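import Mathlib
import Pool.Agent.Work.MP_e37829_mp.Gordon

-- merged part: Pool.Agent.Work.MP_e37829_mp.A.Tm
section
/-! Transfer matrices and Chebyshev recursions. -/

namespace Pool.Agent.Work.MP_e37829_mp.A
open Matrix

section ring
variable {R : Type*} [CommRing R]

def T1 (c : R) : Matrix (Fin 2) (Fin 2) R := !![c, -1; 1, 0]

def tm (c : ℤ → R) (n : ℤ) : ℕ → Matrix (Fin 2) (Fin 2) R
  | 0 => 1
  | l + 1 => T1 (c (n + l + 1)) * tm c n l

lemma tm_zero (c : ℤ → R) (n : ℤ) : tm c n 0 = 1 := rfl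

lemma tm_succ (c : ℤ → R) (n : ℤ) (l : ℕ) : tm c n (l + 1) = T1 (c (n + l + 1)) * tm c n l := rfl

lemma tm_succ_one (c : ℤ → R) (n : ℤ) (l : ℕ) (j : Fin 2) :
    tm c n (l + 1) 1 j = tm c n l 0 j := by
  simp [tm_succ, T1, Matrix.mul_apply, Fin.sum_univ_two]

lemma tm_succ_zero (c : ℤ → R) (n : ℤ) (l : ℕ) (j : Fin 2) :
    tm c n (l + 1) 0 j = c (n + l + 1) * tm c n l 0 j - tm c n l 1 j := by
  simp [tm_succ, T1, Matrix.mul_apply, Fin.sum_univ_two]; ring

lemma tm_add (c : ℤ → R) (n : ℤ) (a b : ℕ) : tm c n (a + b) = tm c (n + a) b * tm c n a := by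
  induction b with
  | zero => simp [tm_zero]
  | succ b ih =>
    rw [← add_assoc, tm_succ, tm_succ, ih, Matrix.mul_assoc]
    congr 3
    push_cast; ring

lemma tm_congr (c c' : ℤ → R) (n n' : ℤ) (l : ℕ)
    (h : ∀ i : ℕ, i < l → c (n + i + 1) = c' (n' + i + 1)) : tm c n l = tm c' n' l := by
  induction l with
  | zero => rfl
  | succ l ih =>
    rw [tm_succ, tm_succ, h l (Nat.lt_succ_self l), ih (fun i hi => h i (by omega))]

lemma tm_det (c : ℤ → R) (n : ℤ) (l : ℕ) : (tm c n l).det = 1 := by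
  induction l with
  | zero => simp [tm_zero]
  | succ l ih => rw [tm_succ, Matrix.det_mul, ih]; simp [T1, Matrix.det_fin_two]

lemma tm_det' (c : ℤ → R) (n : ℤ) (l : ℕ) :
    tm c n l 0 0 * tm c n l 1 1 - tm c n l 0 1 * tm c n l 1 0 = 1 := by
  rw [← Matrix.det_fin_two]; exact tm_det c n l

lemma tm_map {S : Type*} [CommRing S] (φ : R →+* S) (c : ℤ → R) (n : ℤ) (l : ℕ) (i j : Fin 2) :
    φ (tm c n l i j) = tm (fun m => φ (c m)) n l i j := by
  induction l generalizing i j with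
  | zero => simp [tm_zero, Matrix.one_apply, apply_ite φ]
  | succ l ih =>
    fin_cases i
    · simp [tm_succ_zero, ih]
    · simp [tm_succ_one, ih]

lemma per_mul {α : Type*} (c : ℤ → α) (p : ℕ) (hc : ∀ m, c (m + p) = c m) (m q : ℤ) :
    c (m + q * p) = c m := by
  have : Function.Periodic c (p : ℤ) := hc
  exact (this.int_mul q) m

lemma per_dvd {α : Type*} (c : ℤ → α) (p : ℕ) (hc : ∀ m, c (m + p) = c m) (m m' : ℤ)
    (h : (p : ℤ) ∣ m - m') : c m = c m' := by
  obtain ⟨q, hq⟩ := h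
  rw [show m = m' + q * p by linarith only [hq], per_mul c p hc]

lemma tm_per (c : ℤ → R) (p : ℕ) (hc : ∀ m, c (m + p) = c m) (n n' : ℤ) (h : (p : ℤ) ∣ n - n')
    (l : ℕ) : tm c n l = tm c n' l :=
  tm_congr c c n n' l (fun i _ => per_dvd c p hc _ _ (by
    rwa [show n + i + 1 - (n' + i + 1) = n - n' by ring]))

lemma tm_pow (c : ℤ → R) (p : ℕ) (hc : ∀ m, c (m + p) = c m) (n : ℤ) (N : ℕ) :
    tm c n (N * p) = (tm c n p) ^ N := by
  induction N with
  | zero => simp [tm_zero]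
  | succ N ih =>
    rw [Nat.succ_mul, tm_add, ih, pow_succ', tm_per c p hc (n + ((N * p : ℕ) : ℤ)) n (by simp)]

lemma tm_comm (c : ℤ → R) (p : ℕ) (hc : ∀ m, c (m + p) = c m) (n : ℤ) (l : ℕ) :
    tm c (n + l) p * tm c n l = tm c n l * tm c n p := by
  rw [← tm_add, add_comm l p, tm_add, tm_per c p hc (n + p) n (by simp)]

lemma trace_tm (c : ℤ → R) (p : ℕ) (hc : ∀ m, c (m + p) = c m) (n : ℤ) :
    (tm c n p).trace = (tm c 0 p).trace := by
  have step : ∀ n : ℤ, (tm c (n + 1) p).trace = (tm c n p).trace := by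
    intro n
    rcases p with _ | q
    · rfl
    · have h1 : tm c n (q + 1) = tm c (n + 1) q * T1 (c (n + 1)) := by
        rw [add_comm q 1, tm_add]; simp [tm_succ, tm_zero]
      have h2 : c (n + 1 + q + 1) = c (n + 1) := by
        rw [← hc (n + 1)]; congr 1; push_cast; ring
      rw [h1, tm_succ, h2, Matrix.trace_mul_comm]
  induction n using Int.induction_on with
  | zero => rfl
  | succ n ih => rw [step, ih]
  | pred n ih => rw [← step]; simpa using ih

def cU (x : R) : ℕ → R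
  | 0 => 0
  | 1 => 1
  | n + 2 => x * cU x (n + 1) - cU x n

def cT (x : R) (n : ℕ) : R := x * cU x (n + 1) - 2 * cU x n

lemma cU_zero (x : R) : cU x 0 = 0 := rfl
lemma cU_one (x : R) : cU x 1 = 1 := rfl
lemma cU_add_two (x : R) (n : ℕ) : cU x (n + 2) = x * cU x (n + 1) - cU x n := rfl

lemma cU_det (x : R) (n : ℕ) : cU x (n + 1) ^ 2 - x * cU x (n + 1) * cU x n + cU x n ^ 2 = 1 := by
  induction n with
  | zero => simp [cU_zero, cU_one]
  | succ n ih => rw [cU_add_two]; linear_combination ih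

lemma cT_sq (x : R) (n : ℕ) : 4 - cT x n ^ 2 = (4 - x ^ 2) * cU x (n + 1) ^ 2 := by
  unfold cT; linear_combination (-4) * cU_det x n

lemma pow_eq (M : Matrix (Fin 2) (Fin 2) R) (hM : M.det = 1) (n : ℕ) :
    M ^ (n + 1) = cU M.trace (n + 1) • M - cU M.trace n • (1 : Matrix (Fin 2) (Fin 2) R) := by
  have ch : M * M = M.trace • M - 1 := by
    rw [Matrix.det_fin_two] at hM
    ext i j
    fin_cases i <;> fin_cases j <;>
      simp [Matrix.mul_apply, Fin.sum_univ_two, Matrix.trace_fin_two] <;>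
      first | ring1 | linear_combination (-1) * hM
  induction n with
  | zero => simp [cU_zero, cU_one]
  | succ n ih =>
    rw [pow_succ, ih, cU_add_two, Matrix.sub_mul, Matrix.smul_mul, Matrix.smul_mul, ch,
      Matrix.one_mul]
    module

end ring

section real

lemma cU_abs_le (x X : ℝ) (hx : |x| ≤ X) (n : ℕ) :
    |cU x (n + 1)| ≤ (X + 1) ^ n ∧ |cU x n| ≤ (X + 1) ^ n := by
  have hX : 0 ≤ X := (abs_nonneg x).trans hx
  induction n with
  | zero => simp [cU_zero, cU_one]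
  | succ n ih =>
    obtain ⟨h1, h2⟩ := ih
    have h3 : 0 ≤ (X + 1) ^ n := by positivity
    refine ⟨?_, ?_⟩
    · rw [cU_add_two]
      calc |x * cU x (n + 1) - cU x n| ≤ |x * cU x (n + 1)| + |cU x n| := abs_sub _ _
        _ = |x| * |cU x (n + 1)| + |cU x n| := by rw [abs_mul]
        _ ≤ X * (X + 1) ^ n + (X + 1) ^ n := by gcongr
        _ = (X + 1) ^ (n + 1) := by ring
    · rw [pow_succ]; linarith only [h1, hX, h3, mul_nonneg_of_nonpos_of_nonpos (Mathlib.Tactic.Linarith.sub_nonpos_of_le hX) (Mathlib.Tactic.Linarith.sub_nonpos_of_le h3)]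

lemma cU_abs_ge (x : ℝ) (hx : 2 ≤ |x|) (n : ℕ) :
    (|x| - 1) * |cU x n| ≤ |cU x (n + 1)| := by
  induction n with
  | zero => simp [cU_zero, cU_one]
  | succ n ih =>
    rw [cU_add_two]
    have h1 : |x * cU x (n + 1)| - |cU x n| ≤ |x * cU x (n + 1) - cU x n| := abs_sub_abs_le_abs_sub _ _
    rw [abs_mul] at h1
    have h2 := abs_nonneg (cU x n)
    linarith only [ih, h1, hx, h2, mul_nonneg_of_nonpos_of_nonpos (Mathlib.Tactic.Linarith.sub_nonpos_of_le hx) (Mathlib.Tactic.Linarith.sub_nonpos_of_le h2)]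

lemma cU_abs_ge' (x : ℝ) (hx : 2 ≤ |x|) (n : ℕ) : |x| ≤ |cU x (n + 2)| := by
  induction n with
  | zero => simp [cU_add_two, cU_zero, cU_one]
  | succ n ih =>
    have := cU_abs_ge x hx (n + 2)
    have h2 := abs_nonneg (cU x (n + 2))
    linarith only [hx, ih, this, mul_nonneg_of_nonpos_of_nonpos (Mathlib.Tactic.Linarith.sub_nonpos_of_le hx) (Mathlib.Tactic.Linarith.sub_nonpos_of_le hx), mul_nonneg_of_nonpos_of_nonpos (Mathlib.Tactic.Linarith.sub_nonpos_of_le hx) (Mathlib.Tactic.Linarith.sub_nonpos_of_le ih)]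

lemma cU_pos (x : ℝ) (hx : 2 ≤ x) (n : ℕ) :
    0 ≤ cU x n ∧ cU x n + 1 ≤ cU x (n + 1) ∧ (x - 1) * cU x n ≤ cU x (n + 1) := by
  induction n with
  | zero => simp [cU_zero, cU_one]
  | succ n ih =>
    obtain ⟨h1, h2, h3⟩ := ih
    rw [cU_add_two]
    refine ⟨by linarith only [h1, h2], by linarith only [hx, h2, h1, mul_nonneg_of_nonpos_of_nonpos (Mathlib.Tactic.Linarith.sub_nonpos_of_le hx) (Mathlib.Tactic.Linarith.sub_nonpos_of_le h1), mul_nonneg_of_nonpos_of_nonpos (Mathlib.Tactic.Linarith.sub_nonpos_of_le hx) (Mathlib.Tactic.Linarith.sub_nonpos_of_le h2)], by linarith only [h2]⟩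

lemma cU_ge_nat (x : ℝ) (hx : 2 ≤ x) (n : ℕ) : (n : ℝ) ≤ cU x n := by
  induction n with
  | zero => simp [cU_zero]
  | succ n ih => have := (cU_pos x hx n).2.1; push_cast; linarith only [ih, this]

lemma cU_ge_pow (x : ℝ) (hx : 2 ≤ x) (n : ℕ) : (x - 1) ^ n ≤ cU x (n + 1) := by
  induction n with
  | zero => simp [cU_one]
  | succ n ih =>
    have := (cU_pos x hx (n + 1)).2.2
    rw [pow_succ]; linarith only [ih, this, hx, mul_nonneg_of_nonpos_of_nonpos (Mathlib.Tactic.Linarith.sub_nonpos_of_le hx) (Mathlib.Tactic.Linarith.sub_nonpos_of_le ih)]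

lemma cU_ge_self (x : ℝ) (hx : 2 ≤ x) (n : ℕ) : x ≤ cU x (n + 2) := by
  have h := cU_abs_ge' x (by rw [abs_of_nonneg (by linarith only [hx])]; exact hx) n
  rwa [abs_of_nonneg (by linarith only [hx]), abs_of_nonneg (cU_pos x hx _).1] at h

lemma continuous_cU (n : ℕ) : Continuous (fun x : ℝ => cU x n) ∧
    Continuous (fun x : ℝ => cU x (n + 1)) := by
  induction n with
  | zero => simp only [cU_zero, zero_add, cU_one]; exact ⟨continuous_const, continuous_const⟩
  | succ n ih =>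
    refine ⟨ih.2, ?_⟩
    simp only [cU_add_two]
    exact (continuous_id.mul ih.2).sub ih.1

end real

section poly
open Polynomial

/-- real transfer matrix at energy `E` -/
noncomputable def rm (V : ℤ → ℝ) (E : ℝ) (n : ℤ) (l : ℕ) : Matrix (Fin 2) (Fin 2) ℝ :=
  tm (fun m => E - V m) n l

/-- polynomial transfer matrix -/
noncomputable def pm (V : ℤ → ℝ) (n : ℤ) (l : ℕ) : Matrix (Fin 2) (Fin 2) ℝ[X] :=
  tm (fun m => X - C (V m)) n l

noncomputable def xx (V : ℤ → ℝ) (p : ℕ) (E : ℝ) : ℝ := (rm V E 0 p).trace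
noncomputable def yy (V : ℤ → ℝ) (p : ℕ) (n : ℤ) (E : ℝ) : ℝ := rm V E n p 1 0
noncomputable def xp (V : ℤ → ℝ) (p : ℕ) : ℝ[X] := (pm V 0 p).trace

lemma eval_pm (V : ℤ → ℝ) (E : ℝ) (n : ℤ) (l : ℕ) (i j : Fin 2) :
    (pm V n l i j).eval E = rm V E n l i j := by
  have := tm_map (evalRingHom E) (fun m => X - C (V m)) n l i j
  simpa [pm, rm] using this

lemma eval_xp (V : ℤ → ℝ) (p : ℕ) (E : ℝ) : (xp V p).eval E = xx V p E := by
  simp [xp, xx, Matrix.trace_fin_two, eval_pm]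

lemma continuous_rm (V : ℤ → ℝ) (n : ℤ) (l : ℕ) (i j : Fin 2) :
    Continuous (fun E => rm V E n l i j) := by
  simp only [← eval_pm]; exact Polynomial.continuous _

lemma continuous_xx (V : ℤ → ℝ) (p : ℕ) : Continuous (xx V p) := by
  have : xx V p = fun E => (xp V p).eval E := by funext E; rw [eval_xp]
  rw [this]; exact Polynomial.continuous _

lemma continuous_yy (V : ℤ → ℝ) (p : ℕ) (n : ℤ) : Continuous (yy V p n) :=
  continuous_rm V n p 1 0

lemma natDegree_pm (V : ℤ → ℝ) (n : ℤ) (l : ℕ) (i j : Fin 2) : (pm V n l i j).natDegree ≤ l := by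
  induction l generalizing i j with
  | zero =>
    simp only [pm, tm_zero, Matrix.one_apply]
    split_ifs <;> simp
  | succ l ih =>
    fin_cases i
    · simp only [pm, Fin.zero_eta, tm_succ_zero]
      refine (natDegree_sub_le _ _).trans (max_le ?_ ((ih 1 j).trans (by omega)))
      refine natDegree_mul_le.trans ?_
      have := ih 0 j
      rw [natDegree_X_sub_C]
      simp only [pm] at this
      omega
    · simp only [pm, Fin.mk_one, tm_succ_one]
      exact (ih 0 j).trans (by omega)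

lemma natDegree_xp (V : ℤ → ℝ) (p : ℕ) : (xp V p).natDegree ≤ p := by
  simp only [xp, Matrix.trace_fin_two]
  exact (natDegree_add_le _ _).trans (max_le (natDegree_pm _ _ _ _ _) (natDegree_pm _ _ _ _ _))

lemma deriv_pm (V : ℤ → ℝ) (n : ℤ) (l : ℕ) (i j : Fin 2) :
    derivative (pm V n l i j) =
      ∑ k ∈ Finset.range l, pm V (n + k + 1) (l - 1 - k) i 0 * pm V n k 0 j := by
  induction l generalizing i j with
  | zero => simp only [pm, tm_zero, Matrix.one_apply]; split_ifs <;> simp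
  | succ l ih =>
    rw [Finset.sum_range_succ]
    have e : ∀ k ∈ Finset.range l, l + 1 - 1 - k = (l - 1 - k) + 1 := by
      intro k hk; have := Finset.mem_range.mp hk; omega
    rw [Finset.sum_congr rfl (fun k hk => by rw [e k hk])]
    have e0 : l + 1 - 1 - l = 0 := by omega
    rw [e0]
    fin_cases i
    · have h1 := ih 0 j
      have h2 := ih 1 j
      simp only [pm, Fin.zero_eta, tm_succ_zero, tm_zero, Matrix.one_apply_eq] at h1 h2 ⊢
      rw [derivative_sub, derivative_mul, h1, h2, Finset.mul_sum, derivative_X_sub_C]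
      rw [add_sub_assoc, ← Finset.sum_sub_distrib, add_comm]
      congr 1
      refine Finset.sum_congr rfl (fun k hk => ?_)
      have := Finset.mem_range.mp hk
      have e2 : n + k + 1 + ((l - 1 - k : ℕ) : ℤ) + 1 = n + l + 1 := by omega
      rw [e2]; ring
    · have h1 := ih 0 j
      simp only [pm, Fin.mk_one, tm_succ_one, tm_zero] at h1 ⊢
      rw [h1]; simp

lemma deriv_xp (V : ℤ → ℝ) (p : ℕ) (hV : ∀ m, V (m + p) = V m) (E : ℝ) :
    (derivative (xp V p)).eval E = ∑ k ∈ Finset.range p, yy V p (k + 1) E := by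
  simp only [xp, Matrix.trace_fin_two, derivative_add, deriv_pm, eval_add, eval_finset_sum,
    eval_mul, eval_pm, ← Finset.sum_add_distrib]
  refine Finset.sum_congr rfl (fun k hk => ?_)
  have hk := Finset.mem_range.mp hk
  have hc : ∀ m, (fun m => E - V m) (m + p) = (fun m => E - V m) m := fun m => by simp [hV]
  obtain ⟨q, rfl⟩ : ∃ q, p = q + k + 1 := ⟨p - 1 - k, by omega⟩
  have e : q + k + 1 - 1 - k = q := by omega
  rw [e]
  simp only [yy, rm, tm_succ_one, tm_add, zero_add]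
  rw [tm_per _ _ hc (k + 1 + q) 0 (by push_cast; exact ⟨1, by ring⟩)]
  simp [Matrix.mul_apply, Fin.sum_univ_two]; ring

/-- solutions are propagated by the transfer matrix -/
lemma sol_rm (V : ℤ → ℝ) (E : ℝ) (u : ℤ → ℂ) (n : ℤ) (l : ℕ)
    (h : ∀ m, n < m → m ≤ n + l → u (m + 1) + u (m - 1) + V m * u m = E * u m) :
    u (n + l + 1) = rm V E n l 0 0 * u (n + 1) + rm V E n l 0 1 * u n ∧
    u (n + l) = rm V E n l 1 0 * u (n + 1) + rm V E n l 1 1 * u n := by
  induction l with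
  | zero => simp [rm, tm_zero]
  | succ l ih =>
    obtain ⟨h1, h2⟩ := ih (fun m hm hm' => h m hm (by push_cast; omega))
    have h3 := h (n + l + 1) (by omega) (by push_cast; omega)
    simp only [rm, tm_succ_zero, tm_succ_one] at h1 h2 ⊢
    push_cast
    refine ⟨?_, by rw [← add_assoc]; exact h1⟩
    rw [add_sub_cancel_right] at h3
    rw [← add_assoc]
    linear_combination h3 - h2 + ((E : ℂ) - V (n + l + 1)) * h1

lemma sol_rm2 (V : ℤ → ℝ) (E : ℝ) (u : ℤ → ℂ) (n : ℤ) (l : ℕ)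
    (h : ∀ m, n < m → m < n + l → u (m + 1) + u (m - 1) + V m * u m = E * u m) :
    u (n + l) = rm V E n l 1 0 * u (n + 1) + rm V E n l 1 1 * u n := by
  rcases l with _ | l
  · simp [rm, tm_zero]
  · have := (sol_rm V E u n l (fun m hm hm' => h m hm (by push_cast; omega))).1
    simp only [rm, tm_succ_one] at this ⊢
    push_cast
    rw [← add_assoc]; exact this

end poly

end Pool.Agent.Work.MP_e37829_mp.A
end

-- merged part: Pool.Agent.Work.MP_e37829_mp.A.Step
section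
-- merged part: Pool.Agent.Work.MP_e37829_mp.A.Floq
section
/-! Floquet theory for a periodic potential. -/

namespace Pool.Agent.Work.MP_e37829_mp.A
open Matrix Complex

lemma herm_diag {ι : Type} [Fintype ι] [DecidableEq ι] (A : Matrix ι ι ℂ) (hA : A.IsHermitian) :
    ∃ (u : ι → ι → ℂ) (E : ι → ℝ), (∀ a i, ∑ b, A a b * u b i = E i * u a i) ∧
      (∀ a c, ∑ i, u a i * star (u c i) = if a = c then 1 else 0) ∧
      (∀ i j, ∑ a, u a i * star (u a j) = if i = j then 1 else 0) := by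
  refine ⟨fun a i => hA.eigenvectorUnitary a i, hA.eigenvalues, ?_, ?_, ?_⟩
  · intro a i
    have := congrFun (hA.mulVec_eigenvectorBasis i) a
    simpa [Matrix.mulVec, dotProduct] using this
  · intro a c
    have := congrFun (congrFun (Unitary.coe_mul_star_self hA.eigenvectorUnitary) a) c
    simpa [Matrix.mul_apply, Matrix.one_apply] using this
  · intro i j
    have := congrFun (congrFun (Unitary.coe_star_mul_self hA.eigenvectorUnitary) j) i
    simp only [Matrix.mul_apply, Matrix.one_apply, Matrix.star_apply] at this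
    rw [show (if i = j then (1 : ℂ) else 0) = if j = i then 1 else 0 by simp only [eq_comm], ← this]
    exact Finset.sum_congr rfl (fun a _ => mul_comm _ _)

lemma sum_range_zmod (p : ℕ) [NeZero p] (F : ZMod p → ℂ) :
    ∑ k ∈ Finset.range p, F ((((k : ℤ) + 1 : ℤ)) : ZMod p) = ∑ a, F a := by
  rw [← Equiv.sum_comp (Equiv.addRight (1 : ZMod p)) F]
  refine Finset.sum_nbij' (fun k => (k : ZMod p)) (fun a => a.val) (by simp) ?_ ?_ ?_ ?_
  · intro a _; simpa using ZMod.val_lt a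
  · intro k hk; exact ZMod.val_cast_of_lt (by simpa using hk)
  · intro a _; simp
  · intro k _; simp

noncomputable def ee (t : ℝ) : ℂ := Complex.exp (t * I)

lemma ee_add (s t : ℝ) : ee (s + t) = ee s * ee t := by
  simp [ee, add_mul, Complex.exp_add]

lemma ee_star (t : ℝ) : star (ee t) = ee (-t) := by
  simp [ee, ← Complex.exp_conj]

lemma ee_zero : ee 0 = 1 := by simp [ee]

lemma norm_ee (t : ℝ) : ‖ee t‖ = 1 := Complex.norm_exp_ofReal_mul_I t

lemma ee_re (t : ℝ) : (ee t).re = Real.cos t := Complex.exp_ofReal_mul_I_re t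

lemma ee_add_neg (t : ℝ) : ee t + ee (-t) = ((2 * Real.cos t : ℝ) : ℂ) := by
  simp [ee, Complex.cos]; ring

lemma ee_ne (t : ℝ) (ht : t ∈ Set.Ioo 0 Real.pi) : ee t - ee (-t) ≠ 0 := by
  intro h
  have := congrArg Complex.im h
  simp only [ee, sub_im, Complex.exp_ofReal_mul_I_im, Real.sin_neg, zero_im] at this
  have := Real.sin_pos_of_mem_Ioo ht
  linarith

lemma floq_sys (V : ℤ → ℝ) (p : ℕ) [NeZero p] (hV : ∀ m, V (m + p) = V m) (B : ℝ)
    (hB : ∀ m, |V m| ≤ B) (θ : ℝ) :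
    ∃ (φ : ZMod p → ℤ → ℂ) (E : ZMod p → ℝ),
      (∀ i m, φ i (m + 1) + φ i (m - 1) + V m * φ i m = E i * φ i m) ∧
      (∀ i m, φ i (m + p) = ee θ * φ i m) ∧
      (∀ i j, ∑ k ∈ Finset.range p, φ i (k + 1) * star (φ j (k + 1)) = if i = j then 1 else 0) ∧
      (∀ m n, ∑ i, φ i m * star (φ i n) =
        if (p : ℤ) ∣ m - n then ee (θ / p * (m - n)) else 0) ∧
      ∀ i, |E i| ≤ B + 2 := by
  set k : ℝ := θ / p with hk
  let A : Matrix (ZMod p) (ZMod p) ℂ := fun a b =>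
    (if b = a + 1 then ee k else 0) + (if b = a - 1 then ee (-k) else 0) +
      (if b = a then (V (a.val) : ℂ) else 0)
  have hA : A.IsHermitian := by
    ext a b
    simp only [A, Matrix.conjTranspose_apply, star_add, apply_ite star, star_zero, ee_star, neg_neg]
    have h1 : (a = b + 1) ↔ (b = a - 1) := by constructor <;> (rintro rfl; simp)
    have h2 : (a = b - 1) ↔ (b = a + 1) := by constructor <;> (rintro rfl; simp)
    simp only [h1, h2]
    by_cases h : a = b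
    · subst h; simp; ring
    · simp [h, Ne.symm h]; ring
  obtain ⟨u, E, h1, h2, h3⟩ := herm_diag A hA
  have h1' : ∀ a i, ee k * u (a + 1) i + ee (-k) * u (a - 1) i + V (a.val) * u a i =
      E i * u a i := by
    intro a i
    rw [← h1 a i]
    simp [A, add_mul, Finset.sum_add_distrib, ite_mul]
  have hVv : ∀ m : ℤ, V ((m : ZMod p).val) = V m := by
    intro m
    refine per_dvd V p hV _ _ ?_
    rw [← ZMod.intCast_eq_intCast_iff_dvd_sub]
    simp
  have hp : (p : ℝ) ≠ 0 := by exact_mod_cast NeZero.ne p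
  refine ⟨fun i m => ee (k * m) * u (m : ZMod p) i, E, ?_, ?_, ?_, ?_, ?_⟩
  · intro i m
    have := h1' (m : ZMod p) i
    rw [hVv] at this
    have e1 : ee (k * ((m + 1 : ℤ) : ℝ)) = ee (k * m) * ee k := by
      rw [← ee_add]; congr 1; push_cast; ring
    have e2 : ee (k * ((m - 1 : ℤ) : ℝ)) = ee (k * m) * ee (-k) := by
      rw [← ee_add]; congr 1; push_cast; ring
    simp only [e1, e2]
    push_cast
    linear_combination ee (k * m) * this
  · intro i m
    have e1 : ee (k * ((m + p : ℤ) : ℝ)) = ee θ * ee (k * m) := by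
      rw [← ee_add]; congr 1; push_cast; rw [hk]; field_simp; ring
    simp only [e1]
    push_cast
    simp [mul_assoc]
  · intro i j
    rw [← h3 i j, ← sum_range_zmod p (fun a => u a i * star (u a j))]
    refine Finset.sum_congr rfl (fun l _ => ?_)
    simp only [star_mul', ee_star]
    have : ee (k * (((l : ℤ) + 1 : ℤ) : ℝ)) * ee (-(k * (((l : ℤ) + 1 : ℤ) : ℝ))) = 1 := by
      rw [← ee_add]; simp [ee_zero]
    linear_combination (u (((l : ℤ) + 1 : ℤ) : ZMod p) i *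
      star (u (((l : ℤ) + 1 : ℤ) : ZMod p) j)) * this
  · intro m n
    have e : ee (k * (m - n)) = ee (k * m) * ee (-(k * n)) := by
      rw [← ee_add]; congr 1; ring
    have e2 : ((m : ZMod p) = (n : ZMod p)) ↔ (p : ℤ) ∣ m - n := by
      rw [eq_comm, ZMod.intCast_eq_intCast_iff_dvd_sub]
    have := h2 (m : ZMod p) (n : ZMod p)
    simp only [e2] at this
    simp only [star_mul', ee_star]
    rw [show (if (p : ℤ) ∣ m - n then ee (k * (m - n)) else 0) =
      ee (k * (m - n)) * (if (p : ℤ) ∣ m - n then 1 else 0) by split_ifs <;> simp, ← this, e,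
      Finset.mul_sum]
    exact Finset.sum_congr rfl (fun i _ => by ring)
  · intro i
    obtain ⟨a, ha⟩ := Finite.exists_max (fun a => ‖u a i‖)
    have hpos : 0 < ‖u a i‖ := by
      by_contra hn
      have h0 : ∀ b, u b i = 0 := fun b => norm_le_zero_iff.mp ((ha b).trans (not_lt.mp hn))
      have := h3 i i
      simp [h0] at this
    have h4 : |E i| * ‖u a i‖ ≤ (B + 2) * ‖u a i‖ := by
      have := congrArg norm (h1' a i)
      rw [norm_mul, Complex.norm_real, Real.norm_eq_abs] at this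
      rw [← this]
      refine (norm_add₃_le).trans ?_
      simp only [norm_mul, norm_ee, Complex.norm_real, Real.norm_eq_abs]
      have := ha (a + 1)
      have := ha (a - 1)
      have := hB (a.val)
      nlinarith
    exact le_of_mul_le_mul_right h4 hpos

lemma wr_const (V : ℤ → ℝ) (E : ℝ) (φ ψ : ℤ → ℂ)
    (hφ : ∀ m, φ (m + 1) + φ (m - 1) + V m * φ m = E * φ m)
    (hψ : ∀ m, ψ (m + 1) + ψ (m - 1) + V m * ψ m = E * ψ m) (m : ℤ) :
    φ (m + 1) * ψ m - φ m * ψ (m + 1) = φ 1 * ψ 0 - φ 0 * ψ 1 := by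
  induction m using Int.induction_on with
  | zero => simp
  | succ n ih =>
    have h1 := hφ (n + 1)
    have h2 := hψ (n + 1)
    rw [add_sub_cancel_right] at h1 h2
    linear_combination ih + ψ (n + 1) * h1 - φ (n + 1) * h2
  | pred n ih =>
    have h1 := hφ (-n)
    have h2 := hψ (-n)
    rw [sub_add_cancel]
    linear_combination ih - ψ (-n) * h1 + φ (-n) * h2

lemma pair (V : ℤ → ℝ) (p : ℕ) (E : ℝ) (φ ψ : ℤ → ℂ) (z z' : ℂ)
    (hφ : ∀ m, φ (m + 1) + φ (m - 1) + V m * φ m = E * φ m)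
    (hψ : ∀ m, ψ (m + 1) + ψ (m - 1) + V m * ψ m = E * ψ m)
    (hz : ∀ m, φ (m + p) = z * φ m) (hz' : ∀ m, ψ (m + p) = z' * ψ m) (m : ℤ) :
    yy V p m E * (φ 1 * ψ 0 - φ 0 * ψ 1) = (z - z') * (φ m * ψ m) := by
  rw [← wr_const V E φ ψ hφ hψ m]
  have h1 := sol_rm2 V E φ m p (fun m _ _ => hφ m)
  have h2 := sol_rm2 V E ψ m p (fun m _ _ => hψ m)
  rw [hz] at h1
  rw [hz'] at h2
  unfold yy
  linear_combination (-ψ m) * h1 + φ m * h2

lemma disc_eq (V : ℤ → ℝ) (p : ℕ) (E : ℝ) (φ : ℤ → ℂ) (z : ℂ)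
    (hφ : ∀ m, φ (m + 1) + φ (m - 1) + V m * φ m = E * φ m)
    (hz : ∀ m, φ (m + p) = z * φ m) (h0 : φ 0 ≠ 0) : z ^ 2 - xx V p E * z + 1 = 0 := by
  obtain ⟨h1, h2⟩ := sol_rm V E φ 0 p (fun m _ _ => hφ m)
  rw [add_right_comm, hz] at h1
  rw [hz] at h2
  have h3 : ((rm V E 0 p 0 0 * rm V E 0 p 1 1 - rm V E 0 p 0 1 * rm V E 0 p 1 0 : ℝ) : ℂ) = 1 := by
    rw [rm, tm_det']; simp
  push_cast at h3
  apply mul_left_cancel₀ h0
  simp only [xx, Matrix.trace_fin_two]
  push_cast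
  linear_combination (z - rm V E 0 p 0 0) * h2 + (rm V E 0 p 1 0) * h1 - φ 0 * h3

noncomputable def Hop (V : ℤ → ℝ) (u : ℤ → ℝ) : ℤ → ℝ := fun m => u (m + 1) + u (m - 1) + V m * u m

noncomputable def Rth (p : ℕ) (n : ℤ) (θ : ℝ) : ℤ → ℝ :=
  fun m => if (p : ℤ) ∣ m - n then Real.cos (θ / p * (m - n)) else 0

noncomputable def dx (V : ℤ → ℝ) (p : ℕ) (E : ℝ) : ℝ := (Polynomial.derivative (xp V p)).eval E

noncomputable def wt (V : ℤ → ℝ) (p : ℕ) (n : ℤ) (E : ℝ) : ℝ := yy V p n E / dx V p E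

noncomputable def fib (V : ℤ → ℝ) (p : ℕ) (θ : ℝ) : Finset ℝ :=
  (xp V p - Polynomial.C (2 * Real.cos θ)).roots.toFinset

theorem floquet (V : ℤ → ℝ) (p : ℕ) (hp : 0 < p) (hV : ∀ m, V (m + p) = V m) (B : ℝ)
    (hB : ∀ m, |V m| ≤ B) (θ : ℝ) (hθ : θ ∈ Set.Ioo 0 Real.pi) (n : ℤ) :
    (∀ E, E ∈ fib V p θ ↔ xx V p E = 2 * Real.cos θ) ∧
    (∀ E ∈ fib V p θ, dx V p E ≠ 0 ∧ 0 ≤ wt V p n E ∧ |E| ≤ B + 2) ∧
    ∀ j : ℕ, ∑ E ∈ fib V p θ, wt V p n E * E ^ j = (Hop V)^[j] (Rth p n θ) n := by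
  haveI : NeZero p := ⟨hp.ne'⟩
  obtain ⟨φ, E, h1, h2, h3, h4, h5⟩ := floq_sys V p hV B hB θ
  have s1 : ∀ i m, star (φ i (m + 1)) + star (φ i (m - 1)) + V m * star (φ i m) =
      E i * star (φ i m) := by
    intro i m
    have := congrArg star (h1 i m)
    simpa using this
  have s2 : ∀ i m, star (φ i (m + p)) = ee (-θ) * star (φ i m) := by
    intro i m; rw [h2, star_mul', ee_star]
  have hne := ee_ne θ hθ
  -- pair identities
  have P : ∀ i j, E i = E j → ∀ m, yy V p m (E i) *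
      (φ i 1 * star (φ j 0) - φ i 0 * star (φ j 1)) = (ee θ - ee (-θ)) * (φ i m * star (φ j m)) := by
    intro i j hij m
    exact pair V p (E i) (φ i) (fun m => star (φ j m)) _ _ (h1 i) (by rw [hij]; exact s1 j)
      (h2 i) (s2 j) m
  have S : ∀ i j, E i = E j → dx V p (E i) *
      (φ i 1 * star (φ j 0) - φ i 0 * star (φ j 1)) =
        (ee θ - ee (-θ)) * (if i = j then 1 else 0) := by
    intro i j hij
    rw [dx, deriv_xp V p hV, ← h3 i j, Finset.mul_sum]
    push_cast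
    rw [Finset.sum_mul]
    exact Finset.sum_congr rfl (fun k _ => P i j hij _)
  have hdx : ∀ i, dx V p (E i) ≠ 0 := by
    intro i h
    have := S i i rfl
    rw [h] at this
    simp at this
    exact hne this.symm
  have hW : ∀ i, φ i 1 * star (φ i 0) - φ i 0 * star (φ i 1) ≠ 0 := by
    intro i h
    have := S i i rfl
    rw [h] at this
    simp at this
    exact hne this.symm
  have h0 : ∀ i, φ i 0 ≠ 0 := by
    intro i h; apply hW i; simp [h]
  have hwt : ∀ i, ((wt V p n (E i) : ℝ) : ℂ) = φ i n * star (φ i n) := by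
    intro i
    have a1 := P i i rfl n
    have a2 := S i i rfl
    simp only [if_true, mul_one] at a2
    have a3 : (dx V p (E i) : ℂ) ≠ 0 := by exact_mod_cast hdx i
    rw [wt]
    push_cast
    rw [div_eq_iff a3]
    apply mul_left_cancel₀ (hW i)
    linear_combination a1 - (φ i n * star (φ i n)) * a2
  have hinj : Function.Injective E := by
    intro i j hij
    by_contra hn
    have a2 := S i j hij
    simp only [hn, if_false, mul_zero, mul_eq_zero] at a2
    have a3 : (dx V p (E i) : ℂ) ≠ 0 := by exact_mod_cast hdx i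
    have a4 := P i j hij 0
    rw [a2.resolve_left a3, mul_zero] at a4
    exact mul_ne_zero hne (mul_ne_zero (h0 i) (star_ne_zero.mpr (h0 j))) a4.symm
  have hx : ∀ i, xx V p (E i) = 2 * Real.cos θ := by
    intro i
    have a1 := disc_eq V p (E i) (φ i) _ (h1 i) (h2 i) (h0 i)
    have a2 : ee θ * ee (-θ) = 1 := by rw [← ee_add]; simp [ee_zero]
    have a3 := ee_add_neg θ
    have : ((xx V p (E i) : ℝ) : ℂ) = ((2 * Real.cos θ : ℝ) : ℂ) := by
      rw [← a3]
      linear_combination (-ee (-θ)) * a1 + (ee θ - xx V p (E i)) * a2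
    exact_mod_cast this
  have hq : xp V p - Polynomial.C (2 * Real.cos θ) ≠ 0 := by
    intro h
    apply hdx 0
    have := congrArg Polynomial.derivative h
    simp only [Polynomial.derivative_sub, Polynomial.derivative_C, sub_zero,
      Polynomial.derivative_zero] at this
    simp [dx, this]
  have hmem : ∀ E', E' ∈ fib V p θ ↔ xx V p E' = 2 * Real.cos θ := by
    intro E'
    simp only [fib, Multiset.mem_toFinset, Polynomial.mem_roots hq, Polynomial.IsRoot.def,
      Polynomial.eval_sub, Polynomial.eval_C, eval_xp, sub_eq_zero]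
  have hfib : fib V p θ = Finset.univ.image E := by
    symm
    apply Finset.eq_of_subset_of_card_le
    · intro E' hE'
      obtain ⟨i, _, rfl⟩ := Finset.mem_image.mp hE'
      exact (hmem _).mpr (hx i)
    · rw [Finset.card_image_of_injective _ hinj, Finset.card_univ, ZMod.card]
      refine (Multiset.toFinset_card_le _).trans ((Polynomial.card_roots' _).trans ?_)
      rw [Polynomial.natDegree_sub_C]
      exact natDegree_xp V p
  refine ⟨hmem, ?_, ?_⟩
  · intro E' hE'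
    rw [hfib] at hE'
    obtain ⟨i, _, rfl⟩ := Finset.mem_image.mp hE'
    refine ⟨hdx i, ?_, h5 i⟩
    have := hwt i
    rw [Complex.star_def, Complex.mul_conj] at this
    rw [Complex.ofReal_injective this]
    exact Complex.normSq_nonneg _
  · intro j
    have key : ∀ m, (Hop V)^[j] (Rth p n θ) m = (∑ i, (E i : ℂ) ^ j * (φ i m * star (φ i n))).re := by
      induction j with
      | zero =>
        intro m
        simp only [Function.iterate_zero, id, pow_zero, one_mul, h4, Rth]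
        split_ifs
        · rw [ee_re]
        · simp
      | succ j ih =>
        intro m
        rw [Function.iterate_succ_apply', Hop, ih, ih, ih, ← Complex.re_ofReal_mul, ← add_re,
          ← add_re, Finset.mul_sum, ← Finset.sum_add_distrib, ← Finset.sum_add_distrib]
        congr 1
        refine Finset.sum_congr rfl (fun i _ => ?_)
        linear_combination ((E i : ℂ) ^ j * star (φ i n)) * h1 i m
    rw [key, hfib, Finset.sum_image (fun a _ b _ h => hinj h)]
    simp only [← hwt]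
    rw [Complex.re_sum]
    refine Finset.sum_congr rfl (fun i _ => ?_)
    rw [← Complex.ofReal_pow, ← Complex.ofReal_mul, Complex.ofReal_re, mul_comm]

/-- the moments of the operator at a site -/
noncomputable def mom (V : ℤ → ℝ) (n : ℤ) (j : ℕ) (m : ℤ) : ℝ :=
  (Hop V)^[j] (fun m => if m = n then 1 else 0) m

lemma avg_Rth (V : ℤ → ℝ) (p : ℕ) (hp : 0 < p) (n : ℤ) (j : ℕ) (m : ℤ) :
    Continuous (fun θ => (Hop V)^[j] (Rth p n θ) m) ∧
    ∫ θ in (0 : ℝ)..Real.pi, (Hop V)^[j] (Rth p n θ) m = Real.pi * mom V n j m := by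
  induction j generalizing m with
  | zero =>
    simp only [Function.iterate_zero, id, Rth, mom]
    by_cases h : (p : ℤ) ∣ m - n
    · simp only [h, if_true]
      refine ⟨by fun_prop, ?_⟩
      obtain ⟨q, hq⟩ := h
      have hp' : (p : ℝ) ≠ 0 := by exact_mod_cast hp.ne'
      have e : ∀ θ : ℝ, θ / p * (m - n) = q * θ := by
        intro θ
        have : (m : ℝ) - n = p * q := by exact_mod_cast hq
        rw [this]; field_simp
      simp only [e]
      by_cases hq0 : q = 0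
      · have : m = n := by rw [hq0] at hq; omega
        simp [hq0, this]
      · have : m ≠ n := by
          intro h; rw [h, sub_self] at hq
          exact mul_ne_zero (by exact_mod_cast hp.ne') hq0 hq.symm
        have hq' : (q : ℝ) ≠ 0 := by exact_mod_cast hq0
        rw [intervalIntegral.integral_comp_mul_left (fun x => Real.cos x) hq']
        simp [this]
    · have : m ≠ n := by rintro rfl; simp at h
      simp only [h, if_false, this]
      exact ⟨continuous_const, by simp⟩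
  | succ j ih =>
    simp only [Function.iterate_succ_apply', Hop, mom]
    refine ⟨((ih _).1.add (ih _).1).add (continuous_const.mul (ih _).1), ?_⟩
    rw [intervalIntegral.integral_add, intervalIntegral.integral_add,
      intervalIntegral.integral_const_mul, (ih _).2, (ih _).2, (ih _).2]
    · simp only [mom]; ring
    · exact (ih _).1.intervalIntegrable _ _
    · exact (ih _).1.intervalIntegrable _ _
    · exact ((ih _).1.add (ih _).1).intervalIntegrable _ _
    · exact (continuous_const.mul (ih _).1).intervalIntegrable _ _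

end Pool.Agent.Work.MP_e37829_mp.A
end

-- merged part: Pool.Agent.Work.MP_e37829_mp.A.Dens
section
/-! The density of the spectral measure of a periodic operator at one site. -/

namespace Pool.Agent.Work.MP_e37829_mp.A
open MeasureTheory Set
open scoped ENNReal

lemma area (S : Set ℝ) (hS : MeasurableSet S) (t t' : ℝ → ℝ)
    (ht : ∀ x ∈ S, HasDerivAt t (t' x) x) (c : ℝ → ℕ) (hc : Measurable c) (K : ℕ)
    (hK : ∀ x, c x < K) (inj : ∀ x ∈ S, ∀ y ∈ S, c x = c y → t x = t y → x = y)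
    (F : ℝ → Finset ℝ) (D : Set ℝ) (hD : MeasurableSet D)
    (hF : ∀ θ ∈ D, ∀ x, x ∈ F θ ↔ x ∈ S ∧ t x = θ) (hSD : ∀ x ∈ S, t x ∈ D)
    (G : ℝ → ℝ≥0∞) (hG : Measurable G) :
    ∫⁻ x in S, ENNReal.ofReal |t' x| * G x = ∫⁻ θ in D, ∑ x ∈ F θ, G x := by
  classical
  let s : ℕ → Set ℝ := fun j => S ∩ c ⁻¹' {j}
  have hs : ∀ j, MeasurableSet (s j) := fun j => hS.inter (hc (measurableSet_singleton j))
  have hinj : ∀ j, InjOn t (s j) := fun j x hx y hy h =>
    inj x hx.1 y hy.1 (hx.2.trans hy.2.symm) h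
  have hemb : ∀ j, MeasurableEmbedding ((s j).domRestrict t) := fun j =>
    ContinuousOn.measurableEmbedding (hs j)
      (fun x hx => (ht x hx.1).continuousAt.continuousWithinAt) (hinj j)
  let g : ℕ → ℝ → ℝ≥0∞ := fun j =>
    Function.extend ((s j).domRestrict t) (fun x => G x) (fun _ => 0)
  have hg : ∀ j, Measurable (g j) := fun j =>
    (hemb j).measurable_extend (hG.comp measurable_subtype_coe) measurable_const
  have hg1 : ∀ j, ∀ x ∈ s j, g j (t x) = G x := fun j x hx =>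
    (hemb j).injective.extend_apply (fun x : s j => G x) (fun _ => 0) ⟨x, hx⟩
  have hg0 : ∀ j θ, θ ∉ t '' s j → g j θ = 0 := by
    intro j θ h
    refine Function.extend_apply' _ _ _ ?_
    rintro ⟨⟨x, hx⟩, rfl⟩
    exact h ⟨x, hx, rfl⟩
  have hU : S = ⋃ j ∈ Finset.range K, s j := by
    ext x
    simp only [s, mem_iUnion, mem_inter_iff, mem_preimage, mem_singleton_iff, Finset.mem_range]
    exact ⟨fun h => ⟨c x, hK x, h, rfl⟩, fun ⟨_, _, h, _⟩ => h⟩
  have h1 : ∀ j, ∫⁻ x in s j, ENNReal.ofReal |t' x| * G x = ∫⁻ θ in D, g j θ := by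
    intro j
    have a1 := lintegral_image_eq_lintegral_abs_deriv_mul (hs j)
      (fun x hx => (ht x hx.1).hasDerivWithinAt) (hinj j) (g j)
    rw [setLIntegral_congr_fun (hs j) (g := fun x => ENNReal.ofReal |t' x| * g j (t x))
      (fun x hx => by simp only [hg1 j x hx]), ← a1]
    have a2 : Function.support (g j) ⊆ t '' s j := fun θ h => by
      by_contra hn; exact h (hg0 j θ hn)
    rw [setLIntegral_eq_of_support_subset a2, setLIntegral_eq_of_support_subset
      (a2.trans (by rintro _ ⟨x, hx, rfl⟩; exact hSD x hx.1))]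
  calc ∫⁻ x in S, ENNReal.ofReal |t' x| * G x
      = ∑ j ∈ Finset.range K, ∫⁻ x in s j, ENNReal.ofReal |t' x| * G x := by
        conv_lhs => rw [hU]
        refine lintegral_biUnion_finset ?_ (fun j _ => hs j) _
        intro i _ j _ hij
        refine Set.disjoint_left.mpr (fun x hx hy => hij ?_)
        exact hx.2.symm.trans hy.2
    _ = ∫⁻ θ in D, ∑ j ∈ Finset.range K, g j θ := by
        rw [lintegral_finsetSum _ (fun j _ => hg j)]
        exact Finset.sum_congr rfl (fun j _ => h1 j)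
    _ = _ := by
        refine setLIntegral_congr_fun hD (fun θ hθ => ?_)
        rw [← Finset.sum_fiberwise_of_maps_to (s := F θ) (t := Finset.range K) (g := c)
          (fun x _ => Finset.mem_range.mpr (hK x))]
        refine Finset.sum_congr rfl (fun j _ => ?_)
        by_cases h : θ ∈ t '' s j
        · obtain ⟨x, hx, rfl⟩ := h
          rw [hg1 j x hx]
          have : (F (t x)).filter (fun y => c y = j) = {x} := by
            ext y
            simp only [Finset.mem_filter, Finset.mem_singleton, hF _ hθ]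
            constructor
            · rintro ⟨⟨h1, h2⟩, h3⟩
              exact hinj j ⟨h1, h3⟩ hx h2
            · rintro rfl; exact ⟨⟨hx.1, rfl⟩, hx.2⟩
          rw [this, Finset.sum_singleton]
        · rw [hg0 j θ h]
          refine (Finset.sum_eq_zero (fun y hy => ?_)).symm
          simp only [Finset.mem_filter, hF _ hθ] at hy
          exact absurd ⟨y, ⟨hy.1.1, hy.2⟩, hy.1.2⟩ h

noncomputable def rho (V : ℤ → ℝ) (p : ℕ) (n : ℤ) (E : ℝ) : ℝ :=
  if |xx V p E| < 2 then |yy V p n E| / (Real.pi * √(4 - xx V p E ^ 2)) else 0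

noncomputable def nu (V : ℤ → ℝ) (p : ℕ) (n : ℤ) : Measure ℝ :=
  volume.withDensity (fun E => ENNReal.ofReal (rho V p n E))

lemma rho_nonneg (V : ℤ → ℝ) (p : ℕ) (n : ℤ) (E : ℝ) : 0 ≤ rho V p n E := by
  unfold rho; split_ifs <;> positivity

lemma measurable_rho (V : ℤ → ℝ) (p : ℕ) (n : ℤ) : Measurable (rho V p n) := by
  have h1 := (continuous_xx V p).measurable
  have h2 := (continuous_yy V p n).measurable
  refine Measurable.ite (measurableSet_lt h1.abs measurable_const) ?_ measurable_const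
  fun_prop

lemma nu_ac (V : ℤ → ℝ) (p : ℕ) (n : ℤ) : nu V p n ≪ volume :=
  withDensity_absolutelyContinuous _ _

lemma nu_apply (V : ℤ → ℝ) (p : ℕ) (n : ℤ) (A : Set ℝ) (hA : MeasurableSet A) :
    nu V p n A = ∫⁻ E in A, ENNReal.ofReal (rho V p n E) := withDensity_apply _ hA

lemma mem_Ioo_arccos (x : ℝ) (hx : |x| < 2) :
    Real.arccos (x / 2) ∈ Ioo 0 Real.pi ∧ x = 2 * Real.cos (Real.arccos (x / 2)) := by
  obtain ⟨h1, h2⟩ := abs_lt.mp hx
  refine ⟨⟨Real.arccos_pos.mpr (by linarith only [h2]), Real.arccos_lt_pi.mpr (by linarith only [h1])⟩, ?_⟩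
  rw [Real.cos_arccos (by linarith only [h1]) (by linarith only [h2])]; ring

section per
variable (V : ℤ → ℝ) (p : ℕ) (hp : 0 < p) (hV : ∀ m, V (m + p) = V m) (B : ℝ)
  (hB : ∀ m, |V m| ≤ B) (n : ℤ)
include hp hV hB

lemma band (E : ℝ) (hE : |xx V p E| < 2) : dx V p E ≠ 0 ∧ 0 ≤ wt V p n E ∧ |E| ≤ B + 2 := by
  obtain ⟨h1, h2⟩ := mem_Ioo_arccos _ hE
  obtain ⟨a1, a2, _⟩ := floquet V p hp hV B hB _ h1 n
  exact a2 E ((a1 E).mpr h2)

lemma lint_nu (G : ℝ → ℝ≥0∞) (hG : Measurable G) :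
    ∫⁻ E, G E ∂(nu V p n) = ∫⁻ θ in Ioo 0 Real.pi,
      ∑ E ∈ fib V p θ, ENNReal.ofReal (wt V p n E / Real.pi) * G E := by
  classical
  have hx := (continuous_xx V p).measurable
  have hS : MeasurableSet {E | |xx V p E| < 2} := measurableSet_lt hx.abs measurable_const
  let Rt := (Polynomial.derivative (xp V p)).roots.toFinset
  have hmono : Monotone (fun E : ℝ => (Rt.filter (fun r => r < E)).card) := by
    intro a b hab
    refine Finset.card_le_card (fun r hr => ?_)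
    simp only [Finset.mem_filter] at hr ⊢
    exact ⟨hr.1, hr.2.trans_le hab⟩
  have hder : ∀ E, HasDerivAt (xx V p) (dx V p E) E := by
    intro E
    have : xx V p = fun E => (xp V p).eval E := by funext E; rw [eval_xp]
    rw [this]; exact (xp V p).hasDerivAt E
  have hlt : ∀ a b, |xx V p a| < 2 → a < b → xx V p a = xx V p b →
      (Rt.filter (fun r => r < a)).card < (Rt.filter (fun r => r < b)).card := by
    intro a b ha hab h
    obtain ⟨r, hr, hr0⟩ := exists_hasDerivAt_eq_zero hab (continuous_xx V p).continuousOn h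
      (fun x _ => hder x)
    have hne : Polynomial.derivative (xp V p) ≠ 0 := by
      intro h0
      apply (band V p hp hV B hB n a ha).1
      simp [dx, h0]
    refine Finset.card_lt_card ⟨fun s hs => ?_, fun hs => ?_⟩
    · simp only [Finset.mem_filter] at hs ⊢
      exact ⟨hs.1, hs.2.trans hab⟩
    · have : r ∈ Rt.filter (fun r => r < b) := by
        simp only [Finset.mem_filter, Rt, Multiset.mem_toFinset, Polynomial.mem_roots hne]
        exact ⟨hr0, hr.2⟩
      have := (Finset.mem_filter.mp (hs this)).2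
      linarith only [this, hr, hr.1]
  have key := area {E | |xx V p E| < 2} hS (fun E => Real.arccos (xx V p E / 2))
    (fun E => -(1 / √(1 - (xx V p E / 2) ^ 2)) * (dx V p E / 2)) ?_
    (fun E : ℝ => (Rt.filter (fun r => r < E)).card) hmono.measurable (Rt.card + 1)
    (fun E => Nat.lt_succ_of_le (Finset.card_filter_le _ _)) ?_ (fib V p) (Ioo 0 Real.pi)
    measurableSet_Ioo ?_ (fun E hE => (mem_Ioo_arccos _ hE).1)
    (fun E => ENNReal.ofReal (wt V p n E / Real.pi) * G E) ?_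
  · rw [← key, nu, lintegral_withDensity_eq_lintegral_mul _ (measurable_rho V p n).ennreal_ofReal hG,
      ← lintegral_indicator hS]
    refine lintegral_congr (fun E => ?_)
    by_cases hE : |xx V p E| < 2
    · rw [indicator_of_mem (by exact hE), ← mul_assoc, ← ENNReal.ofReal_mul (abs_nonneg _)]
      simp only [Pi.mul_apply]
      congr 2
      obtain ⟨a1, a2, _⟩ := band V p hp hV B hB n E hE
      have a3 : 0 < 4 - xx V p E ^ 2 := by
        have := abs_lt.mp hE; linarith only [this, mul_pos_of_neg_of_neg (Mathlib.Tactic.Linarith.sub_neg_of_lt this.left) (Mathlib.Tactic.Linarith.sub_neg_of_lt this.right)]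
      have a4 : √(4 - xx V p E ^ 2) = 2 * √(1 - (xx V p E / 2) ^ 2) := by
        rw [show 4 - xx V p E ^ 2 = 2 ^ 2 * (1 - (xx V p E / 2) ^ 2) by ring,
          Real.sqrt_mul (by positivity), Real.sqrt_sq (by norm_num)]
      have a5 : 0 < √(1 - (xx V p E / 2) ^ 2) := Real.sqrt_pos.mpr (by linarith only [a3])
      have a6 : wt V p n E = |yy V p n E| / |dx V p E| := by
        rw [← abs_div, ← wt, abs_of_nonneg a2]
      have a7 : |dx V p E| ≠ 0 := abs_ne_zero.mpr a1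
      rw [rho, if_pos hE, a4, a6, abs_mul, abs_neg, abs_div, abs_div, abs_of_pos a5]
      have := Real.pi_pos
      simp only [abs_one, Nat.abs_ofNat]
      field_simp
    · rw [indicator_of_notMem (by exact hE)]
      simp [rho, hE]
  · intro E hE
    obtain ⟨h1, h2⟩ := abs_lt.mp (show |xx V p E| < 2 from hE)
    have h3 : xx V p E / 2 ≠ -1 := by linarith only [h1]
    have h4 : xx V p E / 2 ≠ 1 := by linarith only [h2]
    have := HasDerivAt.comp E (h := fun E => xx V p E / 2) (Real.hasDerivAt_arccos h3 h4)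
      ((hder E).div_const 2)
    exact this
  · intro a ha b hb hc hab
    have h : xx V p a = xx V p b := by
      rw [(mem_Ioo_arccos _ ha).2, (mem_Ioo_arccos _ hb).2]
      rw [hab]
    rcases lt_trichotomy a b with h1 | h1 | h1
    · exact absurd hc (hlt a b ha h1 h).ne
    · exact h1
    · exact absurd hc (hlt b a hb h1 h.symm).ne'
  · intro θ hθ E
    rw [(floquet V p hp hV B hB θ hθ n).1]
    constructor
    · intro h
      have h1 : |Real.cos θ| < 1 := by
        have := Real.sin_pos_of_mem_Ioo hθ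
        have := Real.sin_sq_add_cos_sq θ
        rw [abs_lt]; constructor <;> nlinarith
      refine ⟨?_, ?_⟩
      · simp only [mem_setOf_eq, h, abs_mul, Nat.abs_ofNat]; linarith only [h1]
      · simp only [h]
        rw [mul_div_cancel_left₀ _ (by norm_num), Real.arccos_cos hθ.1.le hθ.2.le]
    · rintro ⟨h1, rfl⟩
      exact (mem_Ioo_arccos _ h1).2
  · have h2 := (continuous_yy V p n).measurable
    have h3 : Measurable (dx V p) := (Polynomial.continuous _).measurable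
    have h4 : Measurable (wt V p n) := h2.div h3
    exact ((h4.div_const _).ennreal_ofReal).mul hG

lemma lint_nu' (g : ℝ → ℝ) (hg : Measurable g) (h0 : ∀ E, |E| ≤ B + 2 → 0 ≤ g E) :
    ∫⁻ E, ENNReal.ofReal (g E) ∂(nu V p n) = ∫⁻ θ in Ioo 0 Real.pi,
      ENNReal.ofReal ((∑ E ∈ fib V p θ, wt V p n E * g E) / Real.pi) := by
  rw [lint_nu V p hp hV B hB n _ hg.ennreal_ofReal]
  refine setLIntegral_congr_fun measurableSet_Ioo (fun θ hθ => ?_)
  have hf := (floquet V p hp hV B hB θ hθ n).2.1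
  have := Real.pi_pos
  rw [Finset.sum_div, ENNReal.ofReal_sum_of_nonneg (fun E hE => by
    have := (hf E hE).2.1
    have := h0 E (hf E hE).2.2
    positivity)]
  refine Finset.sum_congr rfl (fun E hE => ?_)
  rw [← ENNReal.ofReal_mul (by have := (hf E hE).2.1; positivity)]
  congr 1; ring

lemma nu_ae : ∀ᵐ E ∂(nu V p n), |E| ≤ B + 2 ∧ |xx V p E| < 2 := by
  rw [nu, ae_withDensity_iff (measurable_rho V p n).ennreal_ofReal]
  refine Filter.Eventually.of_forall (fun E hE => ?_)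
  by_cases h : |xx V p E| < 2
  · exact ⟨(band V p hp hV B hB n E h).2.2, h⟩
  · simp [rho, h] at hE

lemma lint_mom (j : ℕ) (c : ℝ) (hc : (B + 2) ^ j ≤ c) :
    ∫⁻ E, ENNReal.ofReal (E ^ j + c) ∂(nu V p n) = ENNReal.ofReal (mom V n j n + c) := by
  have h0 : ∀ E, |E| ≤ B + 2 → 0 ≤ E ^ j + c := by
    intro E hE
    have h1 : |E ^ j| ≤ (B + 2) ^ j := by rw [abs_pow]; gcongr
    linarith only [hc, h1, neg_abs_le (E ^ j)]
  rw [lint_nu' V p hp hV B hB n _ (by fun_prop) h0]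
  have hpi := Real.pi_pos
  have h1 : ∀ θ ∈ Ioo 0 Real.pi, (∑ E ∈ fib V p θ, wt V p n E * (E ^ j + c)) / Real.pi =
      ((Hop V)^[j] (Rth p n θ) n + c) / Real.pi := by
    intro θ hθ
    have hf := (floquet V p hp hV B hB θ hθ n).2.2
    have a0 := hf 0
    simp only [pow_zero, mul_one, Function.iterate_zero, id, Rth, sub_self, dvd_zero, if_true,
      mul_zero, Real.cos_zero] at a0
    simp only [mul_add, Finset.sum_add_distrib, hf j, ← Finset.sum_mul, a0, one_mul]
  rw [setLIntegral_congr_fun measurableSet_Ioo (g := fun θ =>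
    ENNReal.ofReal (((Hop V)^[j] (Rth p n θ) n + c) / Real.pi)) (fun θ hθ => by simp only [h1 θ hθ])]
  obtain ⟨a1, a2⟩ := avg_Rth V p hp n j n
  have a3 : Continuous (fun θ => ((Hop V)^[j] (Rth p n θ) n + c) / Real.pi) :=
    (a1.add continuous_const).div_const _
  rw [← ofReal_integral_eq_lintegral_ofReal]
  · congr 1
    rw [← integral_Ioc_eq_integral_Ioo, ← intervalIntegral.integral_of_le hpi.le,
      intervalIntegral.integral_div, intervalIntegral.integral_add (a1.intervalIntegrable _ _)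
        (continuous_const.intervalIntegrable _ _), a2]
    simp only [intervalIntegral.integral_const, sub_zero, smul_eq_mul]
    field_simp
  · exact (a3.integrableOn_Icc).mono_set Ioo_subset_Icc_self
  · refine (ae_restrict_iff' measurableSet_Ioo).mpr (Filter.Eventually.of_forall (fun θ hθ => ?_))
    simp only [Pi.zero_apply]
    rw [← h1 θ hθ]
    have hf := (floquet V p hp hV B hB θ hθ n).2.1
    refine div_nonneg (Finset.sum_nonneg (fun E hE => ?_)) hpi.le
    exact mul_nonneg (hf E hE).2.1 (h0 E (hf E hE).2.2)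

lemma nu_prob : IsProbabilityMeasure (nu V p n) := by
  constructor
  have := lint_mom V p hp hV B hB n 0 1 (by simp)
  simp only [pow_zero, mom, Function.iterate_zero, id, if_true, lintegral_const] at this
  have h2 : ENNReal.ofReal (1 + 1) ≠ 0 := by simp
  exact (ENNReal.mul_right_inj h2 ENNReal.ofReal_ne_top).mp (by rw [this, mul_one])

lemma nu_mom (j : ℕ) : ∫ E, E ^ j ∂(nu V p n) = mom V n j n := by
  have := nu_prob V p hp hV B hB n
  have hae := nu_ae V p hp hV B hB n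
  have h1 : ∀ᵐ E ∂(nu V p n), ‖E ^ j‖ ≤ (B + 2) ^ j := by
    filter_upwards [hae] with E hE
    rw [Real.norm_eq_abs, abs_pow]; gcongr; exact hE.1
  have hi : Integrable (fun E : ℝ => E ^ j) (nu V p n) :=
    Integrable.of_bound (by fun_prop) _ h1
  have h2 := lint_mom V p hp hV B hB n j ((B + 2) ^ j + |mom V n j n| + 1)
    (by linarith only [abs_nonneg (mom V n j n)])
  have hB0 : 0 ≤ B := (abs_nonneg _).trans (hB 0)
  have h3 : 0 ≤ (B + 2) ^ j := by positivity
  have hi2 : Integrable (fun E : ℝ => E ^ j + ((B + 2) ^ j + |mom V n j n| + 1)) (nu V p n) :=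
    hi.add (integrable_const _)
  rw [← ofReal_integral_eq_lintegral_ofReal hi2,
    integral_add hi (integrable_const _)] at h2
  · simp only [integral_const, probReal_univ, smul_eq_mul, one_mul] at h2
    have h4 : ‖∫ E, E ^ j ∂(nu V p n)‖ ≤ (B + 2) ^ j := by
      simpa using norm_integral_le_of_norm_le_const h1
    rw [Real.norm_eq_abs] at h4
    rw [ENNReal.ofReal_eq_ofReal_iff] at h2
    · linarith only [h2]
    · linarith only [h4, neg_abs_le (∫ E, E ^ j ∂(nu V p n)), abs_nonneg (mom V n j n)]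
    · linarith only [h3, neg_abs_le (mom V n j n)]
  · filter_upwards [h1] with E hE
    simp only [Pi.zero_apply, Real.norm_eq_abs] at hE ⊢
    linarith only [hE, neg_abs_le (E ^ j), abs_nonneg (mom V n j n)]

/-- little mass near the band edges -/
lemma nu_edge (s : ℝ) (hs : 0 ≤ s) :
    nu V p n {E | 4 - xx V p E ^ 2 < s ^ 2} ≤ ENNReal.ofReal s := by
  have hx := (continuous_xx V p).measurable
  have hA : MeasurableSet {E | 4 - xx V p E ^ 2 < s ^ 2} :=
    measurableSet_lt (by fun_prop) measurable_const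
  have hpi := Real.pi_pos
  have hpi3 := Real.pi_gt_three
  rw [← lintegral_indicator_one hA, lint_nu V p hp hV B hB n _ (measurable_one.indicator hA)]
  have hD : MeasurableSet (Ioo 0 s ∪ Ioo (Real.pi - s) Real.pi) :=
    measurableSet_Ioo.union measurableSet_Ioo
  calc _ ≤ ∫⁻ θ in Ioo 0 Real.pi, (Ioo 0 s ∪ Ioo (Real.pi - s) Real.pi).indicator
          (fun _ => ENNReal.ofReal (1 / Real.pi)) θ := by
        refine setLIntegral_mono' measurableSet_Ioo (fun θ hθ => ?_)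
        obtain ⟨a1, a2, a3⟩ := floquet V p hp hV B hB θ hθ n
        by_cases h : θ ∈ Ioo 0 s ∪ Ioo (Real.pi - s) Real.pi
        · rw [indicator_of_mem h]
          have a0 := a3 0
          simp only [pow_zero, mul_one, Function.iterate_zero, id, Rth, sub_self, dvd_zero,
            if_true, mul_zero, Real.cos_zero] at a0
          rw [← a0, Finset.sum_div, ENNReal.ofReal_sum_of_nonneg (fun E hE => by
            have := (a2 E hE).2.1; positivity)]
          refine Finset.sum_le_sum (fun E _ => ?_)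
          refine mul_le_of_le_one_right' ?_
          exact indicator_le_self' (fun _ _ => zero_le_one) E
        · rw [indicator_of_notMem h]
          refine (Finset.sum_eq_zero (fun E hE => ?_)).le
          rw [indicator_of_notMem, mul_zero]
          simp only [mem_setOf_eq, (a1 E).mp hE, not_lt]
          simp only [mem_union, mem_Ioo, hθ.1, hθ.2, true_and, and_true, not_or, not_lt] at h
          have b1 : s / 2 ≤ Real.sin θ := by
            have b2 : 2 / Real.pi * s ≤ Real.sin θ := by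
              rcases le_total θ (Real.pi / 2) with h1 | h1
              · refine le_trans ?_ (Real.mul_le_sin hθ.1.le h1)
                gcongr; exact h.1
              · rw [← Real.sin_pi_sub]
                refine le_trans ?_ (Real.mul_le_sin (by linarith only [hs, h, hθ.2]) (by linarith only [h1]))
                gcongr; linarith only [h, h.2]
            refine le_trans ?_ b2
            have : 1 / 2 ≤ 2 / Real.pi := by
              rw [div_le_div_iff₀ (by norm_num) hpi]; linarith only [Real.pi_le_four]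
            linarith only [hs, this, mul_nonneg_of_nonpos_of_nonpos (Mathlib.Tactic.Linarith.sub_nonpos_of_le hs) (Mathlib.Tactic.Linarith.sub_nonpos_of_le this)]
          have := Real.sin_sq_add_cos_sq θ
          linarith only [this, hs, b1, mul_nonneg_of_nonpos_of_nonpos (Mathlib.Tactic.Linarith.sub_nonpos_of_le hs) (Mathlib.Tactic.Linarith.sub_nonpos_of_le b1), mul_nonneg_of_nonpos_of_nonpos (Mathlib.Tactic.Linarith.sub_nonpos_of_le b1) (Mathlib.Tactic.Linarith.sub_nonpos_of_le b1)]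
    _ ≤ ∫⁻ θ, (Ioo 0 s ∪ Ioo (Real.pi - s) Real.pi).indicator
          (fun _ => ENNReal.ofReal (1 / Real.pi)) θ := setLIntegral_le_lintegral _ _
    _ = ENNReal.ofReal (1 / Real.pi) * volume (Ioo 0 s ∪ Ioo (Real.pi - s) Real.pi) := by
        rw [lintegral_indicator hD, setLIntegral_const]
    _ ≤ ENNReal.ofReal (1 / Real.pi) * (ENNReal.ofReal s + ENNReal.ofReal s) := by
        gcongr
        refine (measure_union_le _ _).trans ?_
        simp [Real.volume_Ioo]
    _ ≤ ENNReal.ofReal s := by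
        rw [← ENNReal.ofReal_add hs hs, ← ENNReal.ofReal_mul (by positivity)]
        apply ENNReal.ofReal_le_ofReal
        rw [one_div, inv_mul_le_iff₀ hpi]; linarith only [hs, hpi, hpi3, mul_nonneg_of_nonpos_of_nonpos (Mathlib.Tactic.Linarith.sub_nonpos_of_le hs) (le_of_lt (Mathlib.Tactic.Linarith.sub_neg_of_lt hpi)), mul_nonneg_of_nonpos_of_nonpos (Mathlib.Tactic.Linarith.sub_nonpos_of_le hs) (le_of_lt (Mathlib.Tactic.Linarith.sub_neg_of_lt hpi3))]

end per

end Pool.Agent.Work.MP_e37829_mp.A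
end

-- merged part: Pool.Agent.Work.MP_e37829_mp.A.Step
section
/-! Adding one spike per long period. -/

namespace Pool.Agent.Work.MP_e37829_mp.A
open MeasureTheory Set
open scoped ENNReal

noncomputable def spike (V : ℤ → ℝ) (b : ℝ) (q : ℕ) : ℤ → ℝ :=
  fun m => V m + if (q : ℤ) ∣ m then b else 0

lemma alg_bound (a b c d U U' v1 v2 : ℝ) (hdet : a * d - b * c = 1)
    (hU : U ^ 2 - (a + d) * U * U' + U' ^ 2 = 1) (hx : |a + d| < 2) :
    (4 - (a + d) ^ 2) * |v2 * (v1 * (U * c) - v2 * (U * a - U'))| ≤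
      4 * |c * v1 ^ 2 + (d - a) * v1 * v2 - b * v2 ^ 2| * |c| := by
  set Q := c * v1 ^ 2 + (d - a) * v1 * v2 - b * v2 ^ 2 with hQ
  set w := v1 * (U * c) - v2 * (U * a - U') with hw
  have h0 : 0 < 4 - (a + d) ^ 2 := by have := abs_lt.mp hx; linarith only [this, mul_pos_of_neg_of_neg (Mathlib.Tactic.Linarith.sub_neg_of_lt this.left) (Mathlib.Tactic.Linarith.sub_neg_of_lt this.right)]
  have h1 : (4 - (a + d) ^ 2) * v2 ^ 2 ≤ 4 * c * Q := by
    have : 4 * c * Q - (2 * c * v1 + (d - a) * v2) ^ 2 = (4 - (a + d) ^ 2) * v2 ^ 2 := by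
      rw [hQ]; linear_combination (4 * v2 ^ 2) * hdet
    exact this ▸ sub_le_self _ (sq_nonneg _)
  have h2 : (4 - (a + d) ^ 2) * w ^ 2 ≤ 4 * c * Q := by
    set u1 := U * a - U'
    set u2 := U * c
    have e1 : c * u1 ^ 2 + (d - a) * u1 * u2 - b * u2 ^ 2 = c := by
      simp only [u1, u2]; linear_combination c * hU + (c * U ^ 2) * hdet
    have : 4 * (c * u1 ^ 2 + (d - a) * u1 * u2 - b * u2 ^ 2) * Q -
        (2 * c * u1 * v1 + (d - a) * (u1 * v2 + u2 * v1) - 2 * b * u2 * v2) ^ 2 =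
        (4 - (a + d) ^ 2) * w ^ 2 := by
      rw [hQ, hw]; linear_combination (4 * (v1 * u2 - v2 * u1) ^ 2) * hdet
    rw [e1] at this
    exact this ▸ sub_le_self _ (sq_nonneg _)
  have h3 : ((4 - (a + d) ^ 2) * |v2 * w|) ^ 2 ≤ (4 * |Q| * |c|) ^ 2 := by
    rw [mul_pow, sq_abs, mul_pow, mul_pow, mul_pow, sq_abs, sq_abs]
    have := mul_le_mul h1 h2 (by positivity) (le_trans (by positivity) h1)
    exact (le_of_eq (by ring)).trans (this.trans (le_of_eq (by ring)))
  exact (pow_le_pow_iff_left₀ (by positivity) (by positivity) two_ne_zero).mp h3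

section per
variable (V : ℤ → ℝ) (p : ℕ) (hp : 0 < p) (hV : ∀ m, V (m + p) = V m) (k : ℕ) (b : ℝ)
include hV

lemma rm_per (E : ℝ) (n n' : ℤ) (h : (p : ℤ) ∣ n - n') (l : ℕ) : rm V E n l = rm V E n' l :=
  tm_per _ p (fun m => by simp [hV]) n n' h l

lemma yy_per (n n' : ℤ) (h : (p : ℤ) ∣ n - n') : yy V p n = yy V p n' := by
  funext E; simp only [yy, rm_per V p hV E n n' h]

lemma nu_per (n n' : ℤ) (h : (p : ℤ) ∣ n - n') : nu V p n = nu V p n' := by
  unfold nu rho; simp only [yy_per V p hV n n' h]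

lemma rm_trace (E : ℝ) (n : ℤ) : (rm V E n p).trace = xx V p E :=
  trace_tm _ p (fun m => by simp [hV]) n

lemma rm_long (E : ℝ) (n : ℤ) : rm V E n ((k + 1) * p) =
    cU (xx V p E) (k + 1) • rm V E n p - cU (xx V p E) k • (1 : Matrix (Fin 2) (Fin 2) ℝ) := by
  rw [← rm_trace V p hV E n, ← pow_eq (rm V E n p) (tm_det _ _ _)]
  exact tm_pow _ p (fun m => by simp [hV]) n (k + 1)

lemma xx_long (E : ℝ) : xx V ((k + 1) * p) E = cT (xx V p E) k := by
  rw [xx, rm_long V p hV, Matrix.trace_sub, Matrix.trace_smul, Matrix.trace_smul,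
    rm_trace V p hV, cT]
  simp; ring

lemma yy_long (E : ℝ) (n : ℤ) : yy V ((k + 1) * p) n E = cU (xx V p E) (k + 1) * yy V p n E := by
  rw [yy, rm_long V p hV]; simp [yy]

lemma per_long (m : ℤ) : V (m + ((k + 1) * p : ℕ)) = V m := by
  push_cast; exact per_mul V p hV m _

lemma per_spike (m : ℤ) :
    spike V b ((k + 1) * p) (m + ((k + 1) * p : ℕ)) = spike V b ((k + 1) * p) m := by
  simp only [spike, per_long V p hV, dvd_add_self_right]

include hp

lemma yy_spike (E : ℝ) : yy (spike V b ((k + 1) * p)) ((k + 1) * p) 0 E =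
    cU (xx V p E) (k + 1) * yy V p 0 E := by
  rw [← yy_long V p hV]
  obtain ⟨r, hr⟩ : ∃ r, (k + 1) * p = r + 1 := ⟨(k + 1) * p - 1, by
    have : 0 < (k + 1) * p := by positivity
    omega⟩
  rw [hr]
  simp only [yy, rm, tm_succ_one]
  rw [tm_congr _ (fun m => E - V m) 0 0 r]
  intro i hi
  have : ¬ ((r + 1 : ℕ) : ℤ) ∣ 0 + i + 1 := fun h => by
    have := Int.le_of_dvd (by omega) h
    omega
  simp only [spike, this, if_false, add_zero]

lemma spike_main (E : ℝ) (n : ℤ) :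
    (rm (spike V b ((k + 1) * p)) E n ((k + 1) * p)).trace =
      cT (xx V p E) k - b * yy V p 0 E * cU (xx V p E) (k + 1) ∧
    (|xx V p E| < 2 → (4 - xx V p E ^ 2) *
      |yy (spike V b ((k + 1) * p)) ((k + 1) * p) n E - cU (xx V p E) (k + 1) * yy V p n E| ≤
        4 * |b * yy V p 0 E| * |yy V p n E|) := by
  set q := (k + 1) * p with hq
  have hq0 : 0 < q := by positivity
  -- position of the spike
  obtain ⟨a, c, hac, hm⟩ : ∃ a c : ℕ, q = a + 1 + c ∧ (q : ℤ) ∣ n + a + 1 := by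
    have h1 := Int.emod_nonneg n (by omega : (q : ℤ) ≠ 0)
    have h2 := Int.emod_lt_of_pos n (by omega : (0 : ℤ) < q)
    refine ⟨q - 1 - (n % q).toNat, (n % q).toNat, by omega, ⟨n / q + 1, ?_⟩⟩
    have := Int.emod_add_mul_ediv n q
    rw [mul_add]; omega
  set A := rm V E (n + (a + 1 : ℕ)) c with hA
  set B := rm V E n (a + 1) with hB
  have hAB : A * B = rm V E n q := by rw [hac]; exact (tm_add _ _ _ _).symm
  have e1 : rm (spike V b q) E (n + (a + 1 : ℕ)) c = A := by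
    refine tm_congr _ _ _ _ _ (fun i hi => ?_)
    have : ¬ (q : ℤ) ∣ n + (a + 1 : ℕ) + i + 1 := fun h => by
      have h3 := dvd_sub h hm
      have := Int.le_of_dvd (by push_cast; omega) h3
      push_cast at this; omega
    simp only [spike, this, if_false, add_zero]
  have e2 : rm (spike V b q) E n a = rm V E n a := by
    refine tm_congr _ _ _ _ _ (fun i hi => ?_)
    have : ¬ (q : ℤ) ∣ n + i + 1 := fun h => by
      have h3 := dvd_sub hm h
      have := Int.le_of_dvd (by omega) h3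
      omega
    simp only [spike, this, if_false, add_zero]
  have e3 : ∀ i j, rm (spike V b q) E n q i j = rm V E n q i j - b * (A i 0 * B 1 j) := by
    intro i j
    have : rm (spike V b q) E n q =
        rm (spike V b q) E (n + (a + 1 : ℕ)) c * rm (spike V b q) E n (a + 1) := by
      conv_lhs => rw [hac]
      rw [← hac]
      exact (congrArg _ hac).trans (tm_add _ _ _ _)
    rw [this, e1, ← hAB]
    simp only [Matrix.mul_apply, Fin.sum_univ_two, hB]
    simp only [rm] at e2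
    simp only [rm, tm_succ_one, tm_succ_zero, e2]
    simp only [spike, hm, if_true]
    ring
  have hdA : A 0 0 * A 1 1 - A 0 1 * A 1 0 = 1 := tm_det' _ _ _
  have hcomm : rm V E n p * A = A * rm V E 0 p := by
    have := tm_comm (fun m => E - V m) p (fun m => by simp [hV]) (n + (a + 1 : ℕ)) c
    have h1 : (p : ℤ) ∣ q := by rw [hq]; push_cast; exact dvd_mul_left _ _
    rw [rm_per V p hV E n (n + (a + 1 : ℕ) + c) (by
      rw [show n - (n + (a + 1 : ℕ) + c) = -(q : ℤ) by rw [hac]; push_cast; ring]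
      exact h1.neg_right), rm_per V p hV E 0 (n + (a + 1 : ℕ)) (by
      rw [zero_sub]; push_cast; rw [← add_assoc]; exact (h1.trans hm).neg_right)]
    exact this
  set M := rm V E n p with hM
  have hdM : M 0 0 * M 1 1 - M 0 1 * M 1 0 = 1 := tm_det' _ _ _
  have hx : xx V p E = M 0 0 + M 1 1 := by
    rw [← rm_trace V p hV E n, Matrix.trace_fin_two]
  have hy0 : yy V p 0 E =
      M 1 0 * A 0 0 ^ 2 + (M 1 1 - M 0 0) * A 0 0 * A 1 0 - M 0 1 * A 1 0 ^ 2 := by
    have h0 := congrFun (congrFun hcomm 0) 0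
    have h1 := congrFun (congrFun hcomm 1) 0
    simp only [Matrix.mul_apply, Fin.sum_univ_two] at h0 h1
    unfold yy
    linear_combination (A 1 0) * h0 - (A 0 0) * h1 - (rm V E 0 p 1 0) * hdA
  have hP := rm_long V p hV k E n
  rw [← hq, ← hM] at hP
  set U := cU (xx V p E) (k + 1) with hU
  set U' := cU (xx V p E) k with hU'
  have hB1 : ∀ j, B 1 j = A 0 0 * rm V E n q 1 j - A 1 0 * rm V E n q 0 j := by
    intro j
    rw [← hAB]
    simp only [Matrix.mul_apply, Fin.sum_univ_two]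
    linear_combination (-B 1 j) * hdA
  have p00 : rm V E n q 0 0 = U * M 0 0 - U' := by rw [hP]; simp
  have p01 : rm V E n q 0 1 = U * M 0 1 := by rw [hP]; simp
  have p10 : rm V E n q 1 0 = U * M 1 0 := by rw [hP]; simp
  have p11 : rm V E n q 1 1 = U * M 1 1 - U' := by rw [hP]; simp
  constructor
  · rw [Matrix.trace_fin_two, e3, e3, hB1, hB1, p00, p01, p10, p11, hy0, cT, ← hU, ← hU', hx]
    ring
  · intro hlt
    have hUd := cU_det (xx V p E) k
    rw [← hU, ← hU', hx] at hUd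
    have := alg_bound (M 0 0) (M 0 1) (M 1 0) (M 1 1) U U' (A 0 0) (A 1 0) hdM hUd (hx ▸ hlt)
    have e4 : yy (spike V b q) q n E - U * yy V p n E =
        -b * (A 1 0 * (A 0 0 * (U * M 1 0) - A 1 0 * (U * M 0 0 - U'))) := by
      rw [yy, e3, hB1, p10, p00, yy, ← hM]; ring
    rw [e4, abs_mul, abs_neg, abs_mul b, hy0, hx, yy, ← hM]
    have := mul_le_mul_of_nonneg_left this (abs_nonneg b)
    linarith only [this]

lemma xx_spike (E : ℝ) : xx (spike V b ((k + 1) * p)) ((k + 1) * p) E =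
    cT (xx V p E) k - b * yy V p 0 E * cU (xx V p E) (k + 1) :=
  (spike_main V p hp hV k b E 0).1

end per

lemma rho_cmp (x U T d y y' s : ℝ) (hT : 4 - T ^ 2 = (4 - x ^ 2) * U ^ 2) (hs : 0 < s)
    (hs1 : s ≤ 1 / 16) (h1 : s ^ 2 ≤ 4 - x ^ 2) (h2 : s ^ 2 ≤ 4 - T ^ 2) (hd : |d| ≤ s ^ 4)
    (hy : (4 - x ^ 2) * |y' - U * y| ≤ 4 * |d| * |y|) :
    |T - d * U| < 2 ∧ (1 - 12 * s) * (|y| / (Real.pi * √(4 - x ^ 2))) ≤
      |y'| / (Real.pi * √(4 - (T - d * U) ^ 2)) := by
  set a := √(4 - x ^ 2) with ha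
  have hs2 : 0 < s ^ 2 := by positivity
  have ha2 : a ^ 2 = 4 - x ^ 2 := Real.sq_sqrt (by linarith only [h1, hs2])
  have has : s ≤ a := Real.le_sqrt_of_sq_le h1
  have ha0 : 0 < a := by linarith only [hs, has]
  have ha4 : a ≤ 2 := by nlinarith only [sq_nonneg x, ha2, ha0]
  set u := |U| with hu
  have hu0 : 0 ≤ u := abs_nonneg _
  have ht : (a * u) ^ 2 = 4 - T ^ 2 := by rw [mul_pow, ha2, hu, sq_abs, hT]
  have ht1 : s ≤ a * u := by
    by_contra h
    have : 0 ≤ a * u := by positivity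
    linarith only [ht, h2, this, h, this, h, ht, h2, hs, mul_nonneg_of_nonpos_of_nonpos (Mathlib.Tactic.Linarith.sub_nonpos_of_le this) (le_of_lt (Mathlib.Tactic.Linarith.sub_neg_of_lt (lt_of_not_ge h))), mul_pos_of_neg_of_neg (Mathlib.Tactic.Linarith.sub_neg_of_lt (lt_of_not_ge h)) (Mathlib.Tactic.Linarith.sub_neg_of_lt (lt_of_not_ge h))]
  have ht2 : a * u ≤ 2 := by
    by_contra h
    linarith only [h, ht, sq_nonneg T, h, ht, sq_nonneg T, mul_pos_of_neg_of_neg (Mathlib.Tactic.Linarith.sub_neg_of_lt (lt_of_not_ge h)) (Mathlib.Tactic.Linarith.sub_neg_of_lt (lt_of_not_ge h))]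
  have hu1 : s ≤ 2 * u := ht1.trans (by gcongr)
  have hu2 : s * u ≤ 2 := le_trans (by gcongr) ht2
  have hT2 : |T| ≤ 2 := abs_le_of_sq_le_sq (by linarith only [h2, hs2]) (by norm_num)
  have hdU : |d * U| ≤ 2 * s ^ 3 := by
    rw [abs_mul, ← hu]
    calc |d| * u ≤ s ^ 4 * u := by gcongr
      _ = s ^ 3 * (s * u) := by ring
      _ ≤ s ^ 3 * 2 := by gcongr
      _ = _ := by ring
  set e := d * U with he
  have hTe : |T * e| ≤ 4 * s ^ 3 := by
    rw [abs_mul]
    calc |T| * |e| ≤ 2 * (2 * s ^ 3) := by gcongr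
      _ = _ := by ring
  have he2 : e ^ 2 ≤ (2 * s ^ 3) ^ 2 := by rw [← sq_abs]; gcongr
  obtain ⟨b1, b2⟩ := abs_le.mp hTe
  have hs3 : s ^ 3 ≤ s ^ 2 / 16 := by nlinarith only [hs2, hs1]
  have hs6 : (2 * s ^ 3) ^ 2 ≤ s ^ 2 / 16 := by
    have h4 : s ^ 4 ≤ (1 / 16) ^ 4 := by gcongr
    calc (2 * s ^ 3) ^ 2 = 4 * s ^ 2 * s ^ 4 := by ring
      _ ≤ 4 * s ^ 2 * (1 / 16) ^ 4 := by gcongr
      _ ≤ _ := by linarith only [hs2]
  have c0 : 4 - (T - e) ^ 2 = 4 - T ^ 2 + 2 * (T * e) - e ^ 2 := by ring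
  have c1 : 0 < 4 - (T - e) ^ 2 := by linarith only [h2, hs2, he2, b1, hs3, hs6]
  have c2 : 4 - (T - e) ^ 2 ≤ (a * u * (1 + 4 * s)) ^ 2 := by
    have d1 : s ^ 3 ≤ s * (a * u) ^ 2 := by
      rw [ht]
      calc s ^ 3 = s * s ^ 2 := by ring
        _ ≤ _ := by gcongr
    have d2 : 0 ≤ (a * u) ^ 2 * s ^ 2 := by positivity
    have d3 : (a * u * (1 + 4 * s)) ^ 2 =
        (a * u) ^ 2 + 8 * (s * (a * u) ^ 2) + 16 * ((a * u) ^ 2 * s ^ 2) := by ring
    linarith only [ht, b2, d1, d2, sq_nonneg e]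
  refine ⟨abs_lt_of_sq_lt_sq (by linarith only [c1]) (by norm_num), ?_⟩
  have c3 : √(4 - (T - e) ^ 2) ≤ a * u * (1 + 4 * s) :=
    Real.sqrt_le_iff.mpr ⟨by positivity, c2⟩
  have c4 : 0 < √(4 - (T - e) ^ 2) := Real.sqrt_pos.mpr c1
  have hy0 := abs_nonneg y
  have c5 : |y' - U * y| ≤ 4 * s ^ 2 * |y| := by
    have : s ^ 2 * |y' - U * y| ≤ s ^ 2 * (4 * s ^ 2 * |y|) := by
      calc s ^ 2 * |y' - U * y| ≤ (4 - x ^ 2) * |y' - U * y| := by gcongr
        _ ≤ 4 * |d| * |y| := hy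
        _ ≤ 4 * s ^ 4 * |y| := by gcongr
        _ = _ := by ring
    exact le_of_mul_le_mul_left this hs2
  have c6 : (1 - 8 * s) * (u * |y|) ≤ |y'| := by
    have h3 : |U * y| - |y'| ≤ |y' - U * y| := by
      rw [abs_sub_comm]; exact abs_sub_abs_le_abs_sub _ _
    rw [abs_mul, ← hu] at h3
    have h4 : s * (s * |y|) ≤ s * (2 * u * |y|) := by gcongr
    linarith only [c5, h3, h4]
  have hpi := Real.pi_pos
  rw [← mul_div_assoc, div_le_div_iff₀ (by positivity) (by positivity)]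
  have c7 : 0 ≤ (1 - 12 * s) * |y| := mul_nonneg (by linarith only [hs, hs1]) hy0
  calc (1 - 12 * s) * |y| * (Real.pi * √(4 - (T - e) ^ 2))
      ≤ (1 - 12 * s) * |y| * (Real.pi * (a * u * (1 + 4 * s))) := by gcongr
    _ = ((1 - 12 * s) * (1 + 4 * s)) * (u * |y|) * (Real.pi * a) := by ring
    _ ≤ (1 - 8 * s) * (u * |y|) * (Real.pi * a) := by
      have : (1 - 12 * s) * (1 + 4 * s) ≤ 1 - 8 * s := by linarith only [hs2]
      gcongr
    _ ≤ |y'| * (Real.pi * a) := by gcongr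

section step
variable (V : ℤ → ℝ) (p : ℕ) (hp : 0 < p) (hV : ∀ m, V (m + p) = V m) (k : ℕ) (b : ℝ) (B : ℝ)
  (hB : ∀ m, |V m| ≤ B) (n : ℤ)
include hp hV hB

lemma nu_edge' (s : ℝ) (hs : 0 ≤ s) :
    nu V p n {E | 4 - cT (xx V p E) k ^ 2 < s ^ 2} ≤ ENNReal.ofReal s := by
  have hq : 0 < (k + 1) * p := by positivity
  have h1 := nu_edge V _ hq (per_long V p hV k) B hB n s hs
  have hA : MeasurableSet {E | 4 - xx V ((k + 1) * p) E ^ 2 < s ^ 2} :=
    measurableSet_lt (by have := (continuous_xx V ((k + 1) * p)).measurable; fun_prop)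
      measurable_const
  simp only [← xx_long V p hV k]
  refine le_trans ?_ h1
  rw [nu_apply _ _ _ _ hA, nu_apply _ _ _ _ hA]
  refine lintegral_mono_ae (ae_restrict_of_ae ?_)
  have := nu_prob V _ hq (per_long V p hV k) B hB n
  obtain ⟨E0, hE0⟩ := (nu_ae V _ hq (per_long V p hV k) B hB n).exists
  have hne : (Polynomial.C 4 - xp V ((k + 1) * p) ^ 2) ≠ 0 := by
    intro h
    have := congrArg (Polynomial.eval E0) h
    simp only [Polynomial.eval_sub, Polynomial.eval_C, Polynomial.eval_pow, eval_xp,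
      Polynomial.eval_zero] at this
    have := abs_lt.mp hE0.2
    nlinarith
  have hfin := (Polynomial.C 4 - xp V ((k + 1) * p) ^ 2).roots.toFinset.finite_toSet.countable
  filter_upwards [hfin.ae_notMem volume] with E hE
  apply ENNReal.ofReal_le_ofReal
  by_cases h : |xx V p E| < 2
  · simp only [Finset.mem_coe, Multiset.mem_toFinset, Polynomial.mem_roots hne,
      Polynomial.IsRoot.def, Polynomial.eval_sub, Polynomial.eval_C, Polynomial.eval_pow,
      eval_xp, xx_long V p hV k, cT_sq] at hE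
    have h0 : 0 < 4 - xx V p E ^ 2 := by have := abs_lt.mp h; linarith only [this, mul_pos_of_neg_of_neg (Mathlib.Tactic.Linarith.sub_neg_of_lt this.left) (Mathlib.Tactic.Linarith.sub_neg_of_lt this.right)]
    have hU : cU (xx V p E) (k + 1) ≠ 0 := fun h => hE (by simp [h])
    have h2 : |cT (xx V p E) k| < 2 := by
      have := cT_sq (xx V p E) k
      have : 0 < (4 - xx V p E ^ 2) * cU (xx V p E) (k + 1) ^ 2 := by positivity
      rw [abs_lt]; constructor <;> nlinarith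
    rw [rho, rho, xx_long V p hV k, if_pos h, if_pos h2, yy_long V p hV k, cT_sq,
      Real.sqrt_mul h0.le, Real.sqrt_sq_eq_abs, abs_mul]
    have := abs_pos.mpr hU
    have := Real.sqrt_pos.mpr h0
    have := Real.pi_pos
    apply le_of_eq
    field_simp
  · rw [rho, if_neg h]; exact rho_nonneg _ _ _ _

lemma nu_step (A : Set ℝ) (hA : MeasurableSet A) (s : ℝ) (hs : 0 < s)
    (hd : ∀ E ∈ A, |xx V p E| < 2 → |b * yy V p 0 E| ≤ s ^ 4) :
    nu V p n A ≤ nu (spike V b ((k + 1) * p)) ((k + 1) * p) n A + ENNReal.ofReal (16 * s) := by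
  have := nu_prob V p hp hV B hB n
  by_cases hs1 : s ≤ 1 / 16
  swap
  · refine prob_le_one.trans (le_add_left ?_)
    rw [ENNReal.one_le_ofReal]; linarith only [hs1]
  have hx := (continuous_xx V p).measurable
  have hT : Measurable (fun E => cT (xx V p E) k) := by
    simp only [← xx_long V p hV k]; exact (continuous_xx _ _).measurable
  set G1 := {E | 4 - xx V p E ^ 2 < s ^ 2}
  set G2 := {E | 4 - cT (xx V p E) k ^ 2 < s ^ 2}
  have hG1 : MeasurableSet G1 := measurableSet_lt (by fun_prop) measurable_const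
  have hG2 : MeasurableSet G2 := measurableSet_lt (by fun_prop) measurable_const
  have hA' : MeasurableSet (A \ (G1 ∪ G2)) := hA.diff (hG1.union hG2)
  have h1 : nu V p n A ≤ nu V p n (A \ (G1 ∪ G2)) + (ENNReal.ofReal s + ENNReal.ofReal s) := by
    refine (measure_mono (subset_diff_union A (G1 ∪ G2))).trans ((measure_union_le _ _).trans ?_)
    gcongr
    refine (measure_union_le _ _).trans ?_
    gcongr
    · exact nu_edge V p hp hV B hB n s hs.le
    · exact nu_edge' V p hp hV k B hB n s hs.le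
  have h2 : nu V p n (A \ (G1 ∪ G2)) ≤
      nu (spike V b ((k + 1) * p)) ((k + 1) * p) n (A \ (G1 ∪ G2)) +
        ENNReal.ofReal (12 * s) * nu V p n (A \ (G1 ∪ G2)) := by
    rw [nu_apply _ _ _ _ hA', nu_apply _ _ _ _ hA',
      ← lintegral_const_mul _ (measurable_rho V p n).ennreal_ofReal,
      ← lintegral_add_left (measurable_rho _ _ n).ennreal_ofReal]
    refine setLIntegral_mono' hA' (fun E hE => ?_)
    rw [← ENNReal.ofReal_mul (by positivity), ← ENNReal.ofReal_add (rho_nonneg _ _ _ _)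
      (mul_nonneg (by positivity) (rho_nonneg _ _ _ _))]
    apply ENNReal.ofReal_le_ofReal
    obtain ⟨hEA, hE⟩ := hE
    simp only [G1, G2, mem_union, mem_setOf_eq, not_or, not_lt] at hE
    have hlt : |xx V p E| < 2 := by
      have := pow_pos hs 2
      rw [abs_lt]; constructor <;> (refine lt_of_not_ge fun h_nl => ?_; linarith only [h_nl, hE, hs1, hs, this, hE.1, mul_nonneg_of_nonpos_of_nonpos (Mathlib.Tactic.Linarith.sub_nonpos_of_le (sq_nonneg s)) (Mathlib.Tactic.Linarith.sub_nonpos_of_le hs1), mul_pos_of_neg_of_neg (Mathlib.Tactic.Linarith.sub_neg_of_lt hs) (Mathlib.Tactic.Linarith.sub_neg_of_lt this), mul_nonneg_of_nonpos_of_nonpos (Mathlib.Tactic.Linarith.sub_nonpos_of_le h_nl) (Mathlib.Tactic.Linarith.sub_nonpos_of_le h_nl)])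
    obtain ⟨a1, a2⟩ := rho_cmp (xx V p E) (cU (xx V p E) (k + 1)) (cT (xx V p E) k)
      (b * yy V p 0 E) (yy V p n E) (yy (spike V b ((k + 1) * p)) ((k + 1) * p) n E) s
      (cT_sq _ _) hs hs1 hE.1 hE.2 (hd E hEA hlt) ((spike_main V p hp hV k b E n).2 hlt)
    rw [rho, rho, xx_spike V p hp hV, if_pos hlt, if_pos a1]
    linarith only [a2]
  calc nu V p n A ≤ _ := h1
    _ ≤ (nu (spike V b ((k + 1) * p)) ((k + 1) * p) n A + ENNReal.ofReal (12 * s) * 1) +
        (ENNReal.ofReal s + ENNReal.ofReal s) := by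
      gcongr
      refine h2.trans ?_
      gcongr
      · exact diff_subset
      · exact prob_le_one
    _ ≤ _ := by
      rw [mul_one, add_assoc, ← ENNReal.ofReal_add hs.le hs.le,
        ← ENNReal.ofReal_add (by positivity) (by positivity)]
      gcongr; linarith only [hs]

end step

end Pool.Agent.Work.MP_e37829_mp.A
end
end

-- merged part: Pool.Agent.Work.MP_e37829_mp.A.Grp
section
-- merged part: Pool.Agent.Work.MP_e37829_mp.A.Dyn
section
/-! The scalar dynamics of the hierarchical potential. -/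

namespace Pool.Agent.Work.MP_e37829_mp.A
open MeasureTheory Set
open scoped ENNReal

def alive (x d : ℝ) : Prop := |x| ≤ 4 ∨ |x| ≤ 2 * |d|

section scalar
variable (x d d' lam : ℝ) (k : ℕ) (hl : 2048 ≤ lam)
  (hd : |d'| * cU lam (k + 2) ≤ 4 * |d| * |cU x (k + 2)|)
include hl hd

lemma d_le : |d'| * lam ≤ 4 * (|d| * |cU x (k + 2)|) := by
  have h1 := cU_ge_self lam (by linarith only [hl]) k
  have := mul_le_mul_of_nonneg_left h1 (abs_nonneg d')
  linarith only [hd, this]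

lemma escape (h : alive (cT x (k + 1) - d * cU x (k + 2)) d') : alive x d := by
  by_contra hn
  simp only [alive, not_or, not_le] at hn
  obtain ⟨h1, h2⟩ := hn
  have a1 := d_le x d d' lam k hl hd
  have a2 := cU_abs_ge' x (by linarith only [h1]) k
  have a3 := cT_sq x (k + 1)
  set U := cU x (k + 2)
  set T := cT x (k + 1)
  have a4 : 5 / 6 * (|x| * |U|) ≤ |T| := by
    refine abs_le_of_sq_le_sq' ?_ (abs_nonneg T) |>.2
    have b1 : 16 ≤ x ^ 2 := by rw [← sq_abs]; linarith only [h1, mul_pos_of_neg_of_neg (Mathlib.Tactic.Linarith.sub_neg_of_lt h1) (Mathlib.Tactic.Linarith.sub_neg_of_lt h1)]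
    rw [mul_pow, mul_pow, sq_abs, sq_abs, sq_abs]
    linarith only [a3, b1, sq_nonneg U, sq_nonneg T, mul_nonneg_of_nonpos_of_nonpos (Mathlib.Tactic.Linarith.sub_nonpos_of_le (sq_nonneg U)) (Mathlib.Tactic.Linarith.sub_nonpos_of_le b1)]
  have a5 : |T| - |d * U| ≤ |T - d * U| := abs_sub_abs_le_abs_sub _ _
  rw [abs_mul] at a5
  have a6 : |d| * |U| ≤ |x| / 2 * |U| := by gcongr; linarith only [h2]
  have a7 : 16 < |x| * |U| := by linarith only [h1, a2, mul_pos_of_neg_of_neg (Mathlib.Tactic.Linarith.sub_neg_of_lt h1) (Mathlib.Tactic.Linarith.sub_neg_of_lt h1), mul_nonneg_of_nonpos_of_nonpos (le_of_lt (Mathlib.Tactic.Linarith.sub_neg_of_lt h1)) (Mathlib.Tactic.Linarith.sub_nonpos_of_le a2)]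
  have a8 := abs_nonneg d'
  have a9 : |d'| * 2048 ≤ |d'| * lam := by gcongr
  rcases h with h | h <;> linarith only [a4, a5, a6, a7, h, a1, a9]

lemma weak (h : alive x d) (h' : |d| ≤ lam / 128) : |d'| ≤ |d| / 4 := by
  have hx : |x| ≤ lam / 64 := by rcases h with h | h <;> linarith only [hl, h, h']
  have a1 := (cU_abs_le x _ hx (k + 1)).1
  have a2 := cU_ge_pow lam (by linarith only [hl]) (k + 1)
  have a3 : (lam / 64 + 1) ^ (k + 1) * 16 ≤ (lam - 1) ^ (k + 1) := by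
    rw [pow_succ, pow_succ, mul_assoc]
    have : 0 ≤ (lam - 1) ^ k := pow_nonneg (by linarith only [hl]) _
    gcongr <;> linarith only [hl]
  have a4 : 0 < (lam - 1) ^ (k + 1) := pow_pos (by linarith only [hl]) _
  have a5 := abs_nonneg d
  have a6 := abs_nonneg d'
  have : |d'| * (lam - 1) ^ (k + 1) ≤ |d| / 4 * (lam - 1) ^ (k + 1) := by
    calc |d'| * (lam - 1) ^ (k + 1) ≤ |d'| * cU lam (k + 2) := by gcongr
      _ ≤ 4 * |d| * |cU x (k + 2)| := hd
      _ ≤ 4 * |d| * (lam / 64 + 1) ^ (k + 1) := by gcongr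
      _ = |d| / 4 * ((lam / 64 + 1) ^ (k + 1) * 16) := by ring
      _ ≤ _ := by gcongr
  exact le_of_mul_le_mul_right this a4

lemma strong (h : alive (cT x (k + 1) - d * cU x (k + 2)) d') (h' : 2 * lam / 128 ≤ |d'|) :
    |d| / 4 ≤ |x| := by
  by_contra hn
  have a1 := d_le x d d' lam k hl hd
  have a3 := cT_sq x (k + 1)
  set U := cU x (k + 2)
  set T := cT x (k + 1)
  have a0 : 0 ≤ |x| * |U| := by positivity
  have a4 : |T| ≤ 2 + |x| * |U| := by
    refine abs_le_of_sq_le_sq ?_ (by positivity)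
    have : (|x| * |U|) ^ 2 = x ^ 2 * U ^ 2 := by rw [mul_pow, sq_abs, sq_abs]
    linarith only [a3, a0, this, sq_nonneg U, sq_nonneg U]
  have a5 : |d * U| - |T| ≤ |T - d * U| := by
    rw [abs_sub_comm]; exact abs_sub_abs_le_abs_sub _ _
  rw [abs_mul] at a5
  have a6 : |x| * |U| ≤ |d| / 4 * |U| := by gcongr; linarith only [hn]
  have a9 : |d'| * 2048 ≤ |d'| * lam := by gcongr
  rcases h with h | h <;> linarith only [hl, h', a1, a4, a5, a6, a9, h]

end scalar

noncomputable def lam (j : ℕ) : ℝ := 2048 * 2 ^ j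

lemma lam_ge (j : ℕ) : 2048 ≤ lam j := by
  have : (1 : ℝ) ≤ 2 ^ j := one_le_pow₀ (by norm_num)
  unfold lam; linarith only [this]

lemma lam_succ (j : ℕ) : lam (j + 1) = 2 * lam j := by unfold lam; ring

/-- hierarchical data -/
structure Hier where
  p : ℕ → ℕ
  k : ℕ → ℕ
  V : ℕ → ℤ → ℝ
  b : ℕ → ℝ
  B : ℝ
  p0 : 0 < p 0
  ps : ∀ j, p (j + 1) = (k j + 1 + 1) * p j
  V0 : ∀ m, V 0 (m + p 0) = V 0 m
  Vs : ∀ j, V (j + 1) = spike (V j) (b j) (p (j + 1))
  bs : ∀ j, |b (j + 1)| * cU (lam j) (k j + 2) ≤ 4 * |b j|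
  bd : ∀ j m, |V j m| ≤ B

namespace Hier
variable (h : Hier)

noncomputable def x (j : ℕ) (E : ℝ) : ℝ := xx (h.V j) (h.p j) E
noncomputable def y (j : ℕ) (E : ℝ) : ℝ := yy (h.V j) (h.p j) 0 E
noncomputable def d (j : ℕ) (E : ℝ) : ℝ := h.b j * h.y j E
noncomputable def ν (j : ℕ) (n : ℤ) : Measure ℝ := nu (h.V j) (h.p j) n

def Z : Set ℝ := {E | ∀ j, alive (h.x j E) (h.d j E) ∧ lam j / 128 ≤ |h.d j E|}

lemma pos (j : ℕ) : 0 < h.p j := by
  induction j with
  | zero => exact h.p0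
  | succ j ih => rw [h.ps]; positivity

lemma per (j : ℕ) : ∀ m, h.V j (m + h.p j) = h.V j m := by
  induction j with
  | zero => exact h.V0
  | succ j ih => rw [h.Vs, h.ps]; exact per_spike _ _ ih _ _

lemma x_succ (j : ℕ) (E : ℝ) :
    h.x (j + 1) E = cT (h.x j E) (h.k j + 1) - h.d j E * cU (h.x j E) (h.k j + 2) := by
  rw [x, h.Vs, h.ps]; exact xx_spike _ _ (h.pos j) (h.per j) _ _ E

lemma y_succ (j : ℕ) (E : ℝ) : h.y (j + 1) E = cU (h.x j E) (h.k j + 2) * h.y j E := by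
  rw [y, h.Vs, h.ps]; exact yy_spike _ _ (h.pos j) (h.per j) _ _ E

lemma d_succ (j : ℕ) (E : ℝ) : |h.d (j + 1) E| * cU (lam j) (h.k j + 2) ≤
    4 * |h.d j E| * |cU (h.x j E) (h.k j + 2)| := by
  rw [d, d, y_succ, abs_mul, abs_mul, abs_mul]
  have := mul_le_mul_of_nonneg_right (h.bs j)
    (mul_nonneg (abs_nonneg (cU (h.x j E) (h.k j + 2))) (abs_nonneg (h.y j E)))
  linarith only [this]

lemma cont_x (j : ℕ) : Continuous (h.x j) := continuous_xx _ _
lemma cont_d (j : ℕ) : Continuous (h.d j) := continuous_const.mul (continuous_yy _ _ _)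

lemma closed_bad (j : ℕ) :
    IsClosed {E | alive (h.x j E) (h.d j E) ∧ lam j / 128 ≤ |h.d j E|} := by
  have h1 := (h.cont_x j).abs
  have h2 := (h.cont_d j).abs
  exact ((isClosed_le h1 continuous_const).union
    (isClosed_le h1 (continuous_const.mul h2))).inter (isClosed_le continuous_const h2)

lemma closed_Z : IsClosed h.Z := by
  have : h.Z = ⋂ j, {E | alive (h.x j E) (h.d j E) ∧ lam j / 128 ≤ |h.d j E|} := by
    ext E; simp [Z]
  rw [this]; exact isClosed_iInter h.closed_bad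

lemma alive_prev (j : ℕ) (E : ℝ) (ha : alive (h.x (j + 1) E) (h.d (j + 1) E)) :
    alive (h.x j E) (h.d j E) := by
  rw [x_succ] at ha
  exact escape _ _ _ _ _ (lam_ge j) (h.d_succ j E) ha

lemma bad_prev (j : ℕ) (E : ℝ)
    (ha : alive (h.x (j + 1) E) (h.d (j + 1) E) ∧ lam (j + 1) / 128 ≤ |h.d (j + 1) E|) :
    alive (h.x j E) (h.d j E) ∧ lam j / 128 ≤ |h.d j E| := by
  refine ⟨h.alive_prev j E ha.1, ?_⟩
  by_contra hn
  have := weak _ _ _ _ _ (lam_ge j) (h.d_succ j E) (h.alive_prev j E ha.1) (not_le.mp hn).le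
  have h2 := ha.2
  rw [lam_succ] at h2
  linarith only [hn, this, h2, lam_ge j]

lemma decay (K : Set ℝ) (hK : IsCompact K) (hZ : Disjoint K h.Z) :
    ∃ (J : ℕ) (D : ℝ), 0 < D ∧ ∀ j, J ≤ j → ∀ E ∈ K, |h.x j E| < 2 →
      |h.d j E| ≤ (D * (3 / 4) ^ j) ^ 4 := by
  let bad : ℕ → Set ℝ := fun j => {E | alive (h.x j E) (h.d j E) ∧ lam j / 128 ≤ |h.d j E|}
  have hanti : Antitone bad := antitone_nat_of_succ_le (fun j E hE => h.bad_prev j E hE)
  obtain ⟨J, hJ⟩ : ∃ J, K ⊆ (bad J)ᶜ := by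
    refine hK.elim_directed_cover (fun j => (bad j)ᶜ) (fun j => (h.closed_bad j).isOpen_compl) ?_
      (Monotone.directed_le (fun i j hij => compl_subset_compl.mpr (hanti hij)))
    intro E hE
    have := Set.disjoint_left.mp hZ hE
    simp only [Z, mem_setOf_eq, not_forall] at this
    obtain ⟨j, hj⟩ := this
    exact mem_iUnion.mpr ⟨j, hj⟩
  have h4 : (1 : ℝ) ≤ 4 ^ J := one_le_pow₀ (by norm_num)
  have hD : 1 ≤ lam J * 4 ^ J := by linarith only [h4, lam_ge J, mul_nonneg_of_nonpos_of_nonpos (Mathlib.Tactic.Linarith.sub_nonpos_of_le h4) (Mathlib.Tactic.Linarith.sub_nonpos_of_le (lam_ge J))]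
  refine ⟨J, lam J * 4 ^ J, by linarith, fun j hj E hE hx => ?_⟩
  have key : ∀ j, J ≤ j → alive (h.x j E) (h.d j E) → |h.d j E| ≤ lam J * 4 ^ J * (1 / 4) ^ j := by
    intro j hj
    induction j, hj using Nat.le_induction with
    | base =>
      intro ha
      have : ¬ (lam J / 128 ≤ |h.d J E|) := fun h' => hJ hE ⟨ha, h'⟩
      rw [mul_assoc, ← mul_pow]
      norm_num
      linarith only [this, lam_ge J]
    | succ j hj ih =>
      intro ha
      have ha' := h.alive_prev j E ha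
      have : ¬ (lam j / 128 ≤ |h.d j E|) := fun h' => hJ hE (hanti hj ⟨ha', h'⟩)
      have := weak _ _ _ _ _ (lam_ge j) (h.d_succ j E) ha' (not_le.mp this).le
      have := ih ha'
      rw [pow_succ, ← mul_assoc]
      linarith
  refine (key j hj (Or.inl (by linarith only [hx]))).trans ?_
  rw [mul_pow, ← pow_mul, mul_comm j 4, pow_mul]
  gcongr
  · exact le_self_pow₀ hD (by norm_num)
  · norm_num

lemma ν_prob (j : ℕ) (n : ℤ) : IsProbabilityMeasure (h.ν j n) :=
  nu_prob _ _ (h.pos j) (h.per j) _ (h.bd j) n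

lemma tail (K : Set ℝ) (hK : IsCompact K) (hZ : Disjoint K h.Z) :
    ∃ (J : ℕ) (D : ℝ), 0 < D ∧ ∀ w : ℕ → ℤ, (∀ j, (h.p j : ℤ) ∣ w (j + 1) - w j) →
      ∀ A ⊆ K, MeasurableSet A → ∀ m, J ≤ m → ∀ l, m ≤ l →
        h.ν m (w m) A ≤ h.ν l (w l) A + ENNReal.ofReal (D * (3 / 4) ^ m) := by
  obtain ⟨J, D, hD, hJ⟩ := h.decay K hK hZ
  refine ⟨J, 64 * D, by positivity, fun w hw A hAK hA m hm l hl => ?_⟩
  have key : h.ν m (w m) A ≤ h.ν l (w l) A +
      ENNReal.ofReal (64 * D * (3 / 4) ^ m - 64 * D * (3 / 4) ^ l) := by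
    induction l, hl using Nat.le_induction with
    | base => simp
    | succ l hl ih =>
      have h1 := nu_step (h.V l) (h.p l) (h.pos l) (h.per l) (h.k l + 1) (h.b l) h.B (h.bd l)
        (w (l + 1)) A hA (D * (3 / 4) ^ l) (by positivity)
        (fun E hE hx => hJ l (hm.trans hl) E (hAK hE) hx)
      rw [← h.ps, ← h.Vs, nu_per _ _ (h.per l) _ _ (hw l)] at h1
      have h2 : (3 / 4 : ℝ) ^ l ≤ (3 / 4) ^ m := pow_le_pow_of_le_one (by norm_num) (by norm_num) hl
      calc _ ≤ _ := ih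
        _ ≤ (h.ν (l + 1) (w (l + 1)) A + ENNReal.ofReal (16 * (D * (3 / 4) ^ l))) +
            ENNReal.ofReal (64 * D * (3 / 4) ^ m - 64 * D * (3 / 4) ^ l) := by gcongr; exact h1
        _ = _ := by
          rw [add_assoc, ← ENNReal.ofReal_add (by positivity) (by linarith only [hD, h2, mul_nonneg_of_nonpos_of_nonpos (le_of_lt (Mathlib.Tactic.Linarith.sub_neg_of_lt hD)) (Mathlib.Tactic.Linarith.sub_nonpos_of_le h2)])]
          congr 2; ring
  refine key.trans ?_
  gcongr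
  have : 0 ≤ 64 * D * (3 / 4) ^ l := by positivity
  linarith only [this]

lemma Z_y (E : ℝ) (hE : E ∈ h.Z) (j : ℕ) : h.y j E ≠ 0 := by
  intro h0
  have := (hE j).2
  rw [d, h0, mul_zero, abs_zero] at this
  linarith only [this, lam_ge j]

lemma Z_x (E : ℝ) (hE : E ∈ h.Z) (j : ℕ) : 4 * 2 ^ j ≤ |h.x j E| := by
  have h1 := (hE (j + 1)).1
  have h2 := (hE (j + 1)).2
  rw [x_succ] at h1
  rw [lam_succ] at h2
  have := strong _ _ _ _ _ (lam_ge j) (h.d_succ j E) h1 h2
  have h3 := (hE j).2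
  unfold lam at h3
  linarith only [this, h3]

lemma Z_xy (E : ℝ) (hE : E ∈ h.Z) (j : ℕ) : |h.x j E / h.y j E| ≤ 2 * |h.b j| := by
  have h1 : |h.x j E| ≤ 2 * |h.d j E| := by
    rcases (hE j).1 with h1 | h1
    · linarith only [h1, hE, (hE j).2, lam_ge j]
    · exact h1
  rw [d, abs_mul] at h1
  rw [abs_div, div_le_iff₀ (abs_pos.mpr (h.Z_y E hE j))]
  linarith only [h1]

lemma b_le (j : ℕ) : |h.b j| ≤ |h.b 0| * (1 / 2) ^ j := by
  induction j with
  | zero => simp
  | succ j ih =>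
    have h1 := h.bs j
    have h2 := cU_ge_self (lam j) (by linarith only [lam_ge j]) (h.k j)
    have h3 := mul_le_mul_of_nonneg_left ((lam_ge j).trans h2) (abs_nonneg (h.b (j + 1)))
    have h4 := abs_nonneg (h.b (j + 1))
    rw [pow_succ, ← mul_assoc]
    linarith only [ih, h1, h3, h4]

end Hier

end Pool.Agent.Work.MP_e37829_mp.A
end

-- merged part: Pool.Agent.Work.MP_e37829_mp.A.Box
section
/-! Solutions at energies in the exceptional set. -/

namespace Pool.Agent.Work.MP_e37829_mp.A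
open Filter Topology

def Solves (V : ℤ → ℝ) (E : ℝ) (u : ℤ → ℂ) (s t : ℤ) : Prop :=
  ∀ m, s < m → m < t → u (m + 1) + u (m - 1) + V m * u m = E * u m

def BoxBd (V : ℤ → ℝ) (p : ℕ) (E A : ℝ) : Prop :=
  ∀ s : ℤ, (p : ℤ) ∣ s → ∀ u, Solves V E u s (s + p) →
    ∑ i ∈ Finset.range p, ‖u (s + i)‖ ^ 2 ≤ A * (‖u s‖ ^ 2 + ‖u (s + p)‖ ^ 2)

lemma BoxBd.mono {V : ℤ → ℝ} {p : ℕ} {E A A' : ℝ} (h : BoxBd V p E A) (hA : A ≤ A') :
    BoxBd V p E A' := fun s hs u hu => (h s hs u hu).trans (by gcongr)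

lemma rm_abs_le (V : ℤ → ℝ) (E X : ℝ) (hX : ∀ m, |E - V m| ≤ X) (n : ℤ) (l : ℕ) (i j : Fin 2) :
    |rm V E n l i j| ≤ (X + 1) ^ l := by
  have h0 : 0 ≤ X := (abs_nonneg _).trans (hX 0)
  induction l generalizing i with
  | zero => simp only [rm, tm_zero, Matrix.one_apply]; split_ifs <;> simp
  | succ l ih =>
    have h1 := ih 0
    have h2 := ih 1
    have h3 : 0 ≤ (X + 1) ^ l := by positivity
    fin_cases i
    · simp only [rm, Fin.zero_eta, tm_succ_zero] at h1 h2 ⊢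
      refine (abs_sub _ _).trans ?_
      rw [abs_mul, pow_succ]
      have := mul_le_mul (hX (n + l + 1)) h1 (abs_nonneg _) h0
      linarith only [h2, this]
    · simp only [rm, Fin.mk_one, tm_succ_one] at h1 ⊢
      rw [pow_succ]; linarith only [h1, h0, h3, mul_nonneg_of_nonpos_of_nonpos (Mathlib.Tactic.Linarith.sub_nonpos_of_le h0) (Mathlib.Tactic.Linarith.sub_nonpos_of_le h3)]

lemma box0 (V : ℤ → ℝ) (p : ℕ) (hV : ∀ m, V (m + p) = V m) (X c : ℝ) (hX0 : 0 ≤ X) (hc : 0 < c) :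
    ∃ A, 0 ≤ A ∧ ∀ E, (∀ m, |E - V m| ≤ X) → c ≤ |yy V p 0 E| → BoxBd V p E A := by
  set G := (X + 1) ^ p with hG
  have hG0 : 0 ≤ G := by positivity
  refine ⟨p * (2 * (G * (G / c + 1 / c + 1)) ^ 2), by positivity, fun E hX hy s hs u hu => ?_⟩
  have hb : ∀ l, l ≤ p → ∀ i j, |rm V E s l i j| ≤ G := fun l hl i j =>
    (rm_abs_le V E X hX s l i j).trans (pow_le_pow_right₀ (by linarith only [hX0]) hl)
  have h1 : ∀ l : ℕ, l ≤ p → u (s + l) = rm V E s l 1 0 * u (s + 1) + rm V E s l 1 1 * u s :=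
    fun l hl => sol_rm2 V E u s l (fun m h1 h2 => hu m h1 (by omega))
  have h2 : c * ‖u (s + 1)‖ ≤ ‖u (s + p)‖ + G * ‖u s‖ := by
    have a1 : (rm V E s p 1 0 : ℂ) * u (s + 1) = u (s + p) - rm V E s p 1 1 * u s := by
      rw [h1 p le_rfl]; ring
    have a2 := congrArg norm a1
    rw [norm_mul, Complex.norm_real, Real.norm_eq_abs] at a2
    have a3 : rm V E s p 1 0 = yy V p 0 E := by rw [rm_per V p hV E s 0 (by simpa using hs), yy]
    rw [a3] at a2
    calc c * ‖u (s + 1)‖ ≤ |yy V p 0 E| * ‖u (s + 1)‖ := by gcongr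
      _ ≤ ‖u (s + p)‖ + ‖(rm V E s p 1 1 : ℂ) * u s‖ := by rw [a2]; exact norm_sub_le _ _
      _ ≤ _ := by
        rw [norm_mul, Complex.norm_real, Real.norm_eq_abs]
        gcongr; exact hb p le_rfl 1 1
  have h3 : ‖u (s + 1)‖ ≤ (G / c + 1 / c) * (‖u s‖ + ‖u (s + p)‖) := by
    rw [← add_div, div_mul_eq_mul_div, le_div_iff₀ hc]
    linarith only [h2, hG0, norm_nonneg (u s), norm_nonneg (u (s + p)), mul_nonneg_of_nonpos_of_nonpos (Mathlib.Tactic.Linarith.sub_nonpos_of_le hG0) (Mathlib.Tactic.Linarith.sub_nonpos_of_le (norm_nonneg (u (s + ↑p))))]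
  have h4 : ∀ i ∈ Finset.range p, ‖u (s + i)‖ ^ 2 ≤
      2 * (G * (G / c + 1 / c + 1)) ^ 2 * (‖u s‖ ^ 2 + ‖u (s + p)‖ ^ 2) := by
    intro i hi
    have hi := (Finset.mem_range.mp hi).le
    have a1 : ‖u (s + i)‖ ≤ G * (G / c + 1 / c + 1) * (‖u s‖ + ‖u (s + p)‖) := by
      rw [h1 i hi]
      refine (norm_add_le _ _).trans ?_
      rw [norm_mul, norm_mul, Complex.norm_real, Complex.norm_real, Real.norm_eq_abs,
        Real.norm_eq_abs]
      calc _ ≤ G * ((G / c + 1 / c) * (‖u s‖ + ‖u (s + p)‖)) + G * (‖u s‖ + ‖u (s + p)‖) := by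
            gcongr
            · exact hb i hi 1 0
            · exact hb i hi 1 1
            · linarith only [norm_nonneg (u (s + p))]
        _ = _ := by ring
    calc ‖u (s + i)‖ ^ 2 ≤ (G * (G / c + 1 / c + 1) * (‖u s‖ + ‖u (s + p)‖)) ^ 2 := by gcongr
      _ = (G * (G / c + 1 / c + 1)) ^ 2 * (‖u s‖ + ‖u (s + p)‖) ^ 2 := by ring
      _ ≤ (G * (G / c + 1 / c + 1)) ^ 2 * (2 * (‖u s‖ ^ 2 + ‖u (s + p)‖ ^ 2)) := by
        gcongr; linarith only [sq_nonneg (‖u s‖ - ‖u (s + p)‖), sq_nonneg (‖u s‖ - ‖u (s + ↑p)‖)]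
      _ = _ := by ring
  refine (Finset.sum_le_card_nsmul _ _ _ h4).trans ?_
  simp only [Finset.card_range, nsmul_eq_mul]
  apply le_of_eq; ring

lemma three_term (V : ℤ → ℝ) (p : ℕ) (hp : 0 < p) (hV : ∀ m, V (m + p) = V m) (E : ℝ) (u : ℤ → ℂ)
    (s : ℤ) (hu : Solves V E u s (s + p + p)) :
    u (s + p + p) + u s = xx V p E * u (s + p) := by
  obtain ⟨h1, h2⟩ := sol_rm V E u s p (fun m a b => hu m a (by omega))
  have h3 := sol_rm2 V E u (s + p) p (fun m a b => hu m (by omega) b)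
  rw [rm_per V p hV E (s + p) s (by simp)] at h3
  have h4 : ((rm V E s p 0 0 * rm V E s p 1 1 - rm V E s p 0 1 * rm V E s p 1 0 : ℝ) : ℂ) = 1 := by
    rw [rm, tm_det']; simp
  rw [← rm_trace V p hV E s, Matrix.trace_fin_two]
  push_cast at h4 ⊢
  linear_combination h3 + (rm V E s p 1 0) * h1 - (rm V E s p 0 0) * h2 - u s * h4

lemma seq_bound (z : ℕ → ℂ) (x : ℝ) (n : ℕ) (hx : 4 < x ^ 2)
    (h : ∀ i, i < n → z (i + 2) + z i = x * z (i + 1)) :
    ∑ i ∈ Finset.range (n + 1), (‖z i‖ ^ 2 + ‖z (i + 1)‖ ^ 2) ≤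
      (1 + 4 / (x ^ 2 - 4)) * (‖z 0‖ ^ 2 + ‖z (n + 1)‖ ^ 2) := by
  set S := ∑ i ∈ Finset.range n, ‖z (i + 1)‖ ^ 2 with hS
  have h1 : ∑ i ∈ Finset.range (n + 1), ‖z i‖ ^ 2 = S + ‖z 0‖ ^ 2 := Finset.sum_range_succ' _ _
  have h2 : ∑ i ∈ Finset.range (n + 1), ‖z (i + 1)‖ ^ 2 = S + ‖z (n + 1)‖ ^ 2 :=
    Finset.sum_range_succ _ _
  have h3 := Finset.sum_range_succ (fun i => ‖z i‖ ^ 2) n
  have h4 := Finset.sum_range_succ' (fun i => ‖z (i + 1)‖ ^ 2) n
  have h5 : x ^ 2 * S ≤ 2 * ∑ i ∈ Finset.range n, ‖z (i + 1 + 1)‖ ^ 2 +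
      2 * ∑ i ∈ Finset.range n, ‖z i‖ ^ 2 := by
    rw [hS, Finset.mul_sum, Finset.mul_sum, Finset.mul_sum, ← Finset.sum_add_distrib]
    refine Finset.sum_le_sum (fun i hi => ?_)
    have a1 := congrArg norm (h i (Finset.mem_range.mp hi))
    rw [norm_mul, Complex.norm_real, Real.norm_eq_abs] at a1
    have a2 := norm_add_le (z (i + 2)) (z i)
    rw [a1] at a2
    calc x ^ 2 * ‖z (i + 1)‖ ^ 2 = (|x| * ‖z (i + 1)‖) ^ 2 := by rw [mul_pow, sq_abs]
      _ ≤ (‖z (i + 2)‖ + ‖z i‖) ^ 2 := by gcongr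
      _ ≤ _ := by linarith only [sq_nonneg (‖z (i + 2)‖ - ‖z i‖), sq_nonneg (‖z (i + (2 : ℕ))‖ - ‖z i‖)]
  have h6 : S ≤ 2 / (x ^ 2 - 4) * (‖z 0‖ ^ 2 + ‖z (n + 1)‖ ^ 2) := by
    rw [div_mul_eq_mul_div, le_div_iff₀ (by linarith only [hx])]
    linarith only [h1, h2, h3, h4, h5, sq_nonneg ‖z n‖, sq_nonneg ‖z (0 + 1)‖, sq_nonneg ‖z ((0 : ℕ) + (1 : ℕ))‖, sq_nonneg ‖z n‖]
  rw [Finset.sum_add_distrib, h1, h2]
  have : 4 / (x ^ 2 - 4) = 2 * (2 / (x ^ 2 - 4)) := by ring
  rw [this]; linarith only [h6]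

lemma sum_range_mul' (f : ℕ → ℝ) (N p : ℕ) :
    ∑ i ∈ Finset.range (N * p), f i =
      ∑ q ∈ Finset.range N, ∑ i ∈ Finset.range p, f (q * p + i) := by
  induction N with
  | zero => simp
  | succ N ih => rw [Nat.succ_mul, Finset.sum_range_add, ih, Finset.sum_range_succ]

lemma box_step (V : ℤ → ℝ) (p : ℕ) (hp : 0 < p) (hV : ∀ m, V (m + p) = V m) (k : ℕ) (b E A : ℝ)
    (hA : 0 ≤ A) (hx : 4 < xx V p E ^ 2) (h : BoxBd V p E A) :
    BoxBd (spike V b ((k + 1) * p)) ((k + 1) * p) E (A * (1 + 4 / (xx V p E ^ 2 - 4))) := by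
  intro s hs u hu
  have hu' : Solves V E u s (s + ((k + 1) * p : ℕ)) := by
    intro m h1 h2
    have : ¬ (((k + 1) * p : ℕ) : ℤ) ∣ m := fun h => by
      have := Int.le_of_dvd (by omega) (dvd_sub h hs)
      omega
    simpa only [spike, this, if_false, add_zero] using hu m h1 h2
  have hs' : (p : ℤ) ∣ s := (by push_cast; exact dvd_mul_left _ _ : (p : ℤ) ∣ _).trans hs
  have hb := seq_bound (fun i => u (s + i * p)) (xx V p E) k hx (fun i hi => by
    have := three_term V p hp hV E u (s + i * p) (fun m h1 h2 => hu' m (by linarith only [h1, mul_nonneg_of_nonpos_of_nonpos (Mathlib.Tactic.Linarith.sub_nonpos_of_le (Mathlib.Tactic.Linarith.natCast_nonneg ℤ p)) (Mathlib.Tactic.Linarith.sub_nonpos_of_le (Mathlib.Tactic.Linarith.natCast_nonneg ℤ i))]) (by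
      push_cast
      have : (i : ℤ) + 1 ≤ k := by omega
      nlinarith only [h2, hi]))
    push_cast
    rw [show s + (i + 2) * p = s + i * p + p + p by ring,
      show s + (i + 1) * p = s + i * p + p by ring]
    exact this)
  rw [sum_range_mul' (fun i => ‖u (s + i)‖ ^ 2), mul_assoc]
  simp only [Nat.cast_zero, zero_mul, add_zero] at hb
  push_cast at hb ⊢
  refine le_trans ?_ (mul_le_mul_of_nonneg_left hb hA)
  rw [Finset.mul_sum]
  refine Finset.sum_le_sum (fun q hq => ?_)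
  have hq : (q : ℤ) ≤ k := by have := Finset.mem_range.mp hq; omega
  have := h (s + q * p) (dvd_add hs' (dvd_mul_left _ _)) u (fun m h1 h2 => hu' m (by linarith only [h1, mul_nonneg_of_nonpos_of_nonpos (Mathlib.Tactic.Linarith.sub_nonpos_of_le (Mathlib.Tactic.Linarith.natCast_nonneg ℤ p)) (Mathlib.Tactic.Linarith.sub_nonpos_of_le (Mathlib.Tactic.Linarith.natCast_nonneg ℤ q))]) (by
      push_cast
      linarith only [h2, hq, mul_nonneg_of_nonpos_of_nonpos (Mathlib.Tactic.Linarith.sub_nonpos_of_le (Mathlib.Tactic.Linarith.natCast_nonneg ℤ p)) (Mathlib.Tactic.Linarith.sub_nonpos_of_le hq)]))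
  rw [show s + (q + 1) * p = s + q * p + p by ring]
  simpa only [add_assoc] using this

noncomputable def sol (V : ℤ → ℝ) (E : ℝ) (s : ℤ) (a b : ℂ) (m : ℤ) : ℂ :=
  rm V E s (m - s).toNat 1 0 * a + rm V E s (m - s).toNat 1 1 * b

lemma sol_add (V : ℤ → ℝ) (E : ℝ) (s : ℤ) (a b : ℂ) (l : ℕ) :
    sol V E s a b (s + l) = rm V E s l 1 0 * a + rm V E s l 1 1 * b := by
  simp [sol]

lemma sol_self (V : ℤ → ℝ) (E : ℝ) (s : ℤ) (a b : ℂ) : sol V E s a b s = b := by
  simp [sol, rm, tm_zero]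

lemma sol_add_one (V : ℤ → ℝ) (E : ℝ) (s : ℤ) (a b : ℂ) (l : ℕ) :
    sol V E s a b (s + l + 1) = rm V E s l 0 0 * a + rm V E s l 0 1 * b := by
  have := sol_add V E s a b (l + 1)
  simp only [rm, tm_succ_one] at this ⊢
  push_cast at this
  rw [add_assoc, this]

lemma sol_eq (V : ℤ → ℝ) (E : ℝ) (s : ℤ) (a b : ℂ) (m : ℤ) (hm : s < m) :
    sol V E s a b (m + 1) + sol V E s a b (m - 1) + V m * sol V E s a b m =
      E * sol V E s a b m := by
  obtain ⟨l, rfl⟩ : ∃ l : ℕ, m = s + l + 1 := ⟨(m - s - 1).toNat, by omega⟩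
  have h1 := sol_add_one V E s a b (l + 1)
  push_cast at h1
  rw [add_sub_cancel_right, sol_add, sol_add_one, add_assoc s, h1]
  simp only [rm, tm_succ_zero, add_assoc]
  push_cast
  ring

lemma exists_limit (W : ℤ → ℝ) (E : ℝ) (u : ℕ → ℤ → ℂ) (C : ℝ)
    (hb : ∀ F : Finset ℤ, ∀ᶠ j in atTop, ∑ m ∈ F, ‖u j m‖ ^ 2 ≤ C) (n0 : ℤ) (h0 : ∀ j, u j n0 = 1)
    (he : ∀ m, Tendsto (fun j => u j (m + 1) + u j (m - 1) + W m * u j m - E * u j m) atTop
      (𝓝 0)) :
    ∃ φ : ℤ → ℂ, φ n0 = 1 ∧ (∀ F : Finset ℤ, ∑ m ∈ F, ‖φ m‖ ^ 2 ≤ C) ∧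
      ∀ m, φ (m + 1) + φ (m - 1) + W m * φ m = E * φ m := by
  let U : Ultrafilter ℕ := Ultrafilter.of atTop
  have hU : (U : Filter ℕ) ≤ atTop := Ultrafilter.of_le _
  have hl : ∀ m, ∃ a, Tendsto (fun j => u j m) U (𝓝 a) := by
    intro m
    obtain ⟨a, _, ha⟩ := (isCompact_closedBall (0 : ℂ) √C).ultrafilter_le_nhds
      (U.map (fun j => u j m)) (by
        rw [Ultrafilter.coe_map, le_principal_iff, mem_map]
        filter_upwards [hU (hb {m})] with j hj
        simp only [Finset.sum_singleton, Set.mem_setOf_eq] at hj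
        simpa using Real.le_sqrt_of_sq_le hj)
    exact ⟨a, ha⟩
  choose φ hφ using hl
  refine ⟨φ, ?_, fun F => ?_, fun m => ?_⟩
  · have := hφ n0
    simp only [h0] at this
    exact (tendsto_nhds_unique tendsto_const_nhds this).symm
  · exact le_of_tendsto (tendsto_finsetSum F (fun m _ => ((hφ m).norm.pow 2))) (hU (hb F))
  · have h1 := ((((hφ (m + 1)).add (hφ (m - 1))).add ((hφ m).const_mul (W m : ℂ))).sub
      ((hφ m).const_mul (E : ℂ)))
    exact sub_eq_zero.mp (tendsto_nhds_unique h1 ((he m).mono_left hU))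

namespace Hier
variable (h : Hier)

lemma box (R : ℝ) : ∃ A, 0 ≤ A ∧ ∀ E ∈ h.Z, |E| ≤ R → ∀ j, BoxBd (h.V j) (h.p j) E A := by
  have hB : 0 ≤ h.B := (abs_nonneg _).trans (h.bd 0 0)
  obtain ⟨A, hA, h0⟩ := box0 (h.V 0) (h.p 0) h.V0 (|R| + h.B) (16 / (|h.b 0| + 1))
    (by positivity) (by positivity)
  refine ⟨A * 2, by positivity, fun E hE hR j => ?_⟩
  have key : BoxBd (h.V j) (h.p j) E (A * (2 - (1 / 2) ^ j)) := by
    induction j with
    | zero =>
      refine (h0 E (fun m => ?_) ?_).mono (by norm_num)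
      · exact (abs_sub _ _).trans (add_le_add (hR.trans (le_abs_self _)) (h.bd 0 m))
      · have := (hE 0).2
        rw [d, abs_mul, y] at this
        rw [div_le_iff₀ (by positivity)]
        have := abs_nonneg (yy (h.V 0) (h.p 0) 0 E)
        linarith [lam_ge 0]
    | succ j ih =>
      have h1 : (1 / 2 : ℝ) ^ j ≤ 1 := pow_le_one₀ (by norm_num) (by norm_num)
      have h2 : (1 : ℝ) ≤ 2 ^ j := one_le_pow₀ (by norm_num)
      have h3 : (4 * 2 ^ j) ^ 2 ≤ h.x j E ^ 2 := by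
        rw [← sq_abs (h.x j E)]; gcongr; exact h.Z_x E hE j
      have h4 : (1 / 2 : ℝ) ^ j * 2 ^ j = 1 := by rw [← mul_pow]; norm_num
      have h5 : 0 < (1 / 2 : ℝ) ^ j := by positivity
      rw [h.Vs, h.ps]
      refine (box_step _ _ (h.pos j) (h.per j) _ (h.b j) E _ (mul_nonneg hA (by linarith only [h1]))
        (by have := h3; unfold x at this; linarith only [h2, this, mul_nonneg_of_nonpos_of_nonpos (Mathlib.Tactic.Linarith.sub_nonpos_of_le h2) (Mathlib.Tactic.Linarith.sub_nonpos_of_le h2)]) ih).mono ?_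
      rw [mul_assoc]
      gcongr
      rw [pow_succ (1 / 2 : ℝ)]
      unfold x at h3
      set t : ℝ := (1 / 2) ^ j
      have h6 : 4 / (xx (h.V j) (h.p j) E ^ 2 - 4) ≤ t ^ 2 / 3 := by
        rw [div_le_div_iff₀ (by linarith only [h2, h3, mul_nonneg_of_nonpos_of_nonpos (Mathlib.Tactic.Linarith.sub_nonpos_of_le h2) (Mathlib.Tactic.Linarith.sub_nonpos_of_le h2)]) (by norm_num)]
        have : t ^ 2 * (4 * 2 ^ j) ^ 2 ≤ t ^ 2 * xx (h.V j) (h.p j) E ^ 2 := by gcongr
        have h7 : t ^ 2 * (4 * 2 ^ j) ^ 2 = 16 := by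
          linear_combination (16 * (t * 2 ^ j + 1)) * h4
        linarith only [h1, h4, this, h7, h2, mul_nonneg_of_nonpos_of_nonpos (Mathlib.Tactic.Linarith.sub_nonpos_of_le (sq_nonneg t)) (Mathlib.Tactic.Linarith.sub_nonpos_of_le h2), Mathlib.Tactic.Linarith.mul_zero_eq (Mathlib.Tactic.Linarith.sub_nonpos_of_le h1) (sub_eq_zero_of_eq h4)]
      have h8 : (2 - t) * (4 / (xx (h.V j) (h.p j) E ^ 2 - 4)) ≤ (2 - t) * (t ^ 2 / 3) := by
        gcongr; linarith only [h1]
      linarith only [h5, h8, mul_nonneg h5.le (sq_nonneg (t - 1)), sq_nonneg (t - (1 : ℝ))]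
  refine key.mono ?_
  gcongr
  have : 0 < (1 / 2 : ℝ) ^ j := by positivity
  linarith only [this]

lemma p_dvd (j : ℕ) : (h.p j : ℤ) ∣ h.p (j + 1) := by
  rw [h.ps]; push_cast; exact dvd_mul_left _ _

lemma p_gt (j : ℕ) : j < h.p j := by
  induction j with
  | zero => exact h.p0
  | succ j ih => rw [h.ps]; linarith only [ih, mul_nonneg_of_nonpos_of_nonpos (Mathlib.Tactic.Linarith.sub_nonpos_of_le (Mathlib.Tactic.Linarith.natCast_nonneg ℤ (h.p j))) (Mathlib.Tactic.Linarith.sub_nonpos_of_le (Mathlib.Tactic.Linarith.natCast_nonneg ℤ (h.k j)))]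

/-- `W` is the limit of the approximants along the shifts `w` -/
def Lim (w : ℕ → ℤ) (W : ℤ → ℝ) : Prop :=
  (∀ j, (h.p j : ℤ) ∣ w (j + 1) - w j) ∧ ∀ m, Tendsto (fun j => h.V j (m + w j)) atTop (𝓝 (W m))

variable {h}

lemma Lim.stab {w : ℕ → ℤ} {W : ℤ → ℝ} (hw : h.Lim w W) (j : ℕ) (m : ℤ)
    (hm : ¬ (h.p j : ℤ) ∣ m + w j) (l : ℕ) (hl : j ≤ l) :
    ¬ (h.p l : ℤ) ∣ m + w l ∧ h.V l (m + w l) = h.V j (m + w j) := by
  induction l, hl using Nat.le_induction with
  | base => exact ⟨hm, rfl⟩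
  | succ l hl ih =>
    have h1 : ¬ (h.p (l + 1) : ℤ) ∣ m + w (l + 1) := fun h1 => ih.1 (by
      have := dvd_sub ((h.p_dvd l).trans h1) (hw.1 l)
      rwa [show m + w (l + 1) - (w (l + 1) - w l) = m + w l by ring] at this)
    refine ⟨h1, ?_⟩
    rw [h.Vs, spike, if_neg h1, add_zero, ← ih.2]
    refine per_dvd _ _ (h.per l) _ _ ?_
    rw [show m + w (l + 1) - (m + w l) = w (l + 1) - w l by ring]; exact hw.1 l

lemma Lim.eq {w : ℕ → ℤ} {W : ℤ → ℝ} (hw : h.Lim w W) (j : ℕ) (m : ℤ)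
    (hm : ¬ (h.p j : ℤ) ∣ m + w j) : W m = h.V j (m + w j) := by
  refine tendsto_nhds_unique (hw.2 m) (tendsto_const_nhds.congr' ?_)
  filter_upwards [eventually_ge_atTop j] with l hl
  exact (hw.stab j m hm l hl).2.symm

lemma Lim.bd {w : ℕ → ℤ} {W : ℤ → ℝ} (hw : h.Lim w W) (m : ℤ) : |W m| ≤ h.B :=
  le_of_tendsto' (hw.2 m).abs (fun j => h.bd j _)

lemma Lim.no_eig {w : ℕ → ℤ} {W : ℤ → ℝ} (hw : h.Lim w W)
    (hoff : ∀ m, ∃ j, ¬ (h.p j : ℤ) ∣ m + w j) (E : ℝ) (hE : E ∈ h.Z) (u : ℤ → ℂ)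
    (hu : ∀ m, u (m + 1) + u (m - 1) + W m * u m = E * u m) (h0 : Tendsto u cofinite (𝓝 0))
    (n : ℤ) : u n = 0 := by
  obtain ⟨A, hA, hb⟩ := h.box |E|
  have hcof : ∀ s : ℕ → ℤ, (∀ j, (h.p j : ℤ) ∣ s j + w j) → Tendsto s atTop cofinite := by
    intro s hs
    rw [Tendsto, le_cofinite_iff_eventually_ne]
    intro m
    obtain ⟨j, hj⟩ := hoff m
    rw [eventually_map]
    filter_upwards [eventually_ge_atTop j] with l hl hm
    exact (hw.stab j m hj l hl).1 (hm ▸ hs l)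
  let s : ℕ → ℤ := fun j => n - (n + w j) % h.p j
  have hs : ∀ j, (h.p j : ℤ) ∣ s j + w j := fun j => by
    rw [show s j + w j = (n + w j) - (n + w j) % h.p j by simp only [s]; ring]
    exact Int.dvd_self_sub_emod
  have t1 := (h0.comp (hcof s hs)).norm.pow 2
  have t2 := (h0.comp (hcof (fun j => s j + h.p j) (fun j => by
    rw [add_right_comm]; exact dvd_add (hs j) dvd_rfl))).norm.pow 2
  have t3 := (t1.add t2).const_mul A
  simp only [norm_zero, ne_eq, OfNat.ofNat_ne_zero, not_false_eq_true, zero_pow, add_zero,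
    mul_zero, Function.comp] at t3
  have : ‖u n‖ ^ 2 ≤ 0 := by
    refine ge_of_tendsto' t3 (fun j => ?_)
    have hp : (0 : ℤ) < h.p j := by exact_mod_cast h.pos j
    have a1 := hb E hE le_rfl j (s j + w j) (hs j) (fun m => u (m - w j)) (fun m h1 h2 => by
      have : ¬ (h.p j : ℤ) ∣ m - w j + w j := fun h3 => by
        have := Int.le_of_dvd (by omega) (dvd_sub h3 (hs j))
        omega
      have h4 := hu (m - w j)
      rw [hw.eq j _ this, sub_add_cancel] at h4
      beta_reduce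
      rw [show m + 1 - w j = m - w j + 1 by ring, show m - 1 - w j = m - w j - 1 by ring]
      exact h4)
    simp only [add_sub_cancel_right, add_right_comm (s j) (w j)] at a1
    refine le_trans ?_ a1
    have b1 := Int.emod_nonneg (n + w j) hp.ne'
    have b2 := Int.emod_lt_of_pos (n + w j) hp
    have := Finset.single_le_sum (f := fun i : ℕ => ‖u (s j + i)‖ ^ 2) (fun _ _ => by positivity)
      (Finset.mem_range.mpr (show ((n + w j) % h.p j).toNat < h.p j by omega))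
    rwa [show s j + ((n + w j) % h.p j).toNat = n by simp only [s]; omega] at this
  exact norm_eq_zero.mp (pow_eq_zero_iff two_ne_zero |>.mp (le_antisymm this (by positivity)))

lemma Lim.eig {w : ℕ → ℤ} {W : ℤ → ℝ} (hw : h.Lim w W) (n : ℤ)
    (hon : ∀ j, (h.p j : ℤ) ∣ n + w j) (R : ℝ) :
    ∃ C, 0 ≤ C ∧ ∀ E ∈ h.Z, |E| ≤ R → ∃ φ : ℤ → ℂ, φ n = 1 ∧
      (∀ F : Finset ℤ, ∑ m ∈ F, ‖φ m‖ ^ 2 ≤ C) ∧
      ∀ m, φ (m + 1) + φ (m - 1) + W m * φ m = E * φ m := by
  obtain ⟨A, hA, hb⟩ := h.box R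
  refine ⟨A + A, by positivity, fun E hE hR => ?_⟩
  let M := fun j => rm (h.V j) E 0 (h.p j)
  have hy : ∀ j, ((M j 1 0 : ℝ) : ℂ) ≠ 0 := fun j => by exact_mod_cast h.Z_y E hE j
  let r : ℕ → ℤ → ℂ := fun j => sol (h.V j) E 0 (-(M j 1 1) / M j 1 0) 1
  let l : ℕ → ℤ → ℂ := fun j => sol (h.V j) E (-(h.p j)) (1 / M j 1 0) 0
  have hM : ∀ j, rm (h.V j) E (-(h.p j)) (h.p j) = M j := fun j =>
    rm_per _ _ (h.per j) E _ _ (by simp) _
  have r0 : ∀ j, r j 0 = 1 := fun j => sol_self _ _ _ _ _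
  have r1 : ∀ j, r j 1 = -(M j 1 1) / M j 1 0 := fun j => by
    have := sol_add_one (h.V j) E 0 (-(M j 1 1) / M j 1 0) 1 0
    simpa [rm, tm_zero] using this
  have rp : ∀ j, r j (h.p j) = 0 := fun j => by
    have := sol_add (h.V j) E 0 (-(M j 1 1) / M j 1 0) 1 (h.p j)
    rw [zero_add] at this
    have h2 := hy j
    simp only [r, this, M] at h2 ⊢
    field_simp; ring
  have l0 : ∀ j, l j 0 = 1 := fun j => by
    have := sol_add (h.V j) E (-(h.p j)) (1 / M j 1 0) 0 (h.p j)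
    rw [neg_add_cancel, hM] at this
    have h2 := hy j
    simp only [l, this]
    field_simp; ring
  have l1 : ∀ j, l j 1 = M j 0 0 / M j 1 0 := fun j => by
    have := sol_add_one (h.V j) E (-(h.p j)) (1 / M j 1 0) 0 (h.p j)
    rw [neg_add_cancel, hM, zero_add] at this
    simp only [l, this]
    ring
  have lp : ∀ j, l j (-(h.p j)) = 0 := fun j => sol_self _ _ _ _ _
  let g : ℕ → ℤ → ℂ := fun j m => if 0 ≤ m then r j m else l j m
  have gl : ∀ j m, m ≤ 0 → g j m = l j m := fun j m hm => by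
    rcases hm.eq_or_lt with rfl | hm
    · simp [g, r0, l0]
    · simp [g, not_le.mpr hm]
  have gr : ∀ j m, 0 ≤ m → g j m = r j m := fun j m hm => by simp [g, hm]
  have sr : ∀ j, Solves (h.V j) E (g j) 0 (0 + h.p j) := fun j m h1 h2 => by
    rw [gr j _ (by omega), gr j _ (by omega), gr j _ (by omega)]
    exact sol_eq _ _ _ _ _ m h1
  have sl : ∀ j, Solves (h.V j) E (g j) (-(h.p j)) (-(h.p j) + h.p j) := fun j m h1 h2 => by
    rw [gl j _ (by omega), gl j _ (by omega), gl j _ (by omega)]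
    exact sol_eq _ _ _ _ _ m h1
  have hV : ∀ j m, h.V j (m + w j) = h.V j (m - n) := fun j m =>
    per_dvd _ _ (h.per j) _ _ (by
      rw [show m + w j - (m - n) = n + w j by ring]; exact hon j)
  have hbig : ∀ m : ℤ, ∀ᶠ j in atTop, |m - n| < h.p j := fun m => by
    filter_upwards [eventually_ge_atTop (|m - n|).toNat] with j hj
    have := h.p_gt j
    omega
  refine exists_limit W E (fun j m => g j (m - n)) _ (fun F => ?_) n (fun j => by simp [g, r0])
    (fun m => ?_)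
  · filter_upwards [(eventually_all_finset F).mpr (fun m _ => hbig m)] with j hj
    have a1 := hb E hE hR j 0 (dvd_zero _) _ (sr j)
    have a2 := hb E hE hR j _ (by simp) _ (sl j)
    have hp : (0 : ℤ) < h.p j := by exact_mod_cast h.pos j
    rw [zero_add, gr j 0 le_rfl, gr j _ hp.le, r0, rp] at a1
    rw [neg_add_cancel, gl j 0 le_rfl, gl j _ (by omega), l0, lp] at a2
    simp only [norm_one, one_pow, norm_zero, ne_eq, OfNat.ofNat_ne_zero, not_false_eq_true,
      zero_pow, add_zero, zero_add, mul_one] at a1 a2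
    calc ∑ m ∈ F, ‖g j (m - n)‖ ^ 2
        ≤ ∑ m ∈ (Finset.range (h.p j + h.p j)).image (fun i : ℕ => n - h.p j + i),
            ‖g j (m - n)‖ ^ 2 := by
          refine Finset.sum_le_sum_of_subset_of_nonneg (fun m hm => ?_) (fun _ _ _ => by positivity)
          have := abs_lt.mp (hj m hm)
          exact Finset.mem_image.mpr ⟨(m - n + h.p j).toNat, Finset.mem_range.mpr (by omega),
            by omega⟩
      _ = ∑ i ∈ Finset.range (h.p j + h.p j), ‖g j (n - h.p j + i - n)‖ ^ 2 :=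
          Finset.sum_image (fun a _ b _ hab => by simpa using hab)
      _ ≤ A + A := by
          rw [Finset.sum_range_add]
          refine add_le_add (le_of_eq_of_le ?_ a2) (le_of_eq_of_le ?_ a1)
          · exact Finset.sum_congr rfl (fun i _ => by congr 3; ring)
          · exact Finset.sum_congr rfl (fun i _ => by congr 3; push_cast; ring)
  · by_cases hm : m = n
    · subst hm
      have t1 : Tendsto (fun j => h.x j E / h.y j E) atTop (𝓝 0) := by
        refine squeeze_zero_norm (a := fun j => 2 * (|h.b 0| * (1 / 2) ^ j)) (fun j => ?_) ?_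
        · exact (h.Z_xy E hE j).trans (by gcongr; exact h.b_le j)
        · have := ((tendsto_pow_atTop_nhds_zero_of_lt_one (r := (1 / 2 : ℝ)) (by norm_num)
            (by norm_num)).const_mul |h.b 0|).const_mul 2
          simpa using this
      have t2 := ((hw.2 m).const_sub (W m)).sub t1
      rw [sub_self, sub_zero] at t2
      have t3 := (Complex.continuous_ofReal.tendsto 0).comp t2
      refine t3.congr (fun j => ?_)
      have hp : (0 : ℤ) < h.p j := by exact_mod_cast h.pos j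
      have e1 := sol_eq (h.V j) E (-(h.p j)) (1 / M j 1 0) 0 0 (by omega)
      have e2 := l0 j
      have e3 := l1 j
      simp only [l] at e2 e3
      rw [zero_add, e2, e3] at e1
      simp only [Function.comp, hV, add_sub_cancel_left, sub_sub_cancel_left, sub_self]
      rw [gr j 1 (by omega), gr j 0 le_rfl, gl j _ (by omega), r0, r1]
      simp only [x, y, xx, yy, Matrix.trace_fin_two, l, M, zero_sub] at e1 ⊢
      push_cast
      linear_combination (-1 : ℂ) * e1
    · refine tendsto_const_nhds.congr' ?_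
      filter_upwards [hbig m] with j hj
      have hj := abs_lt.mp hj
      have : ¬ (h.p j : ℤ) ∣ m + w j := fun h3 => by
        have h4 := dvd_sub h3 (hon j)
        rw [show m + w j - (n + w j) = m - n by ring] at h4
        rcases lt_or_gt_of_ne hm with h5 | h5
        · have := Int.le_of_dvd (by omega) h4.neg_right
          omega
        · have := Int.le_of_dvd (by omega) h4
          omega
      rw [hw.eq j m this, hV, show m + 1 - n = m - n + 1 by ring,
        show m - 1 - n = m - n - 1 by ring]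
      rcases lt_or_gt_of_ne hm with h5 | h5
      · exact (sub_eq_zero.mpr (sl j (m - n) (by omega) (by omega))).symm
      · exact (sub_eq_zero.mpr (sr j (m - n) (by omega) (by omega))).symm

end Hier

end Pool.Agent.Work.MP_e37829_mp.A
end

-- merged part: Pool.Agent.Work.MP_e37829_mp.A.Meas
section
/-! Convergence of moments, and a criterion for a weak limit not to charge a null set. -/

namespace Pool.Agent.Work.MP_e37829_mp.A
open MeasureTheory Set Filter Topology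
open scoped ENNReal

lemma integrable_of_bdd (R : ℝ) (μ : Measure ℝ) [IsFiniteMeasure μ] (hμ : ∀ᵐ x ∂μ, |x| ≤ R)
    (g : ℝ → ℝ) (hg : Continuous g) : Integrable g μ := by
  obtain ⟨C, hC⟩ := (isCompact_Icc (a := -R) (b := R)).exists_bound_of_continuousOn hg.continuousOn
  refine Integrable.of_bound hg.aestronglyMeasurable C ?_
  filter_upwards [hμ] with x hx using hC x (abs_le.mp hx)

lemma near_int (R : ℝ) (μ : Measure ℝ) [IsFiniteMeasure μ] (hμ : ∀ᵐ x ∂μ, |x| ≤ R)
    (g P : ℝ → ℝ) (hg : Continuous g) (hP : Continuous P) (η : ℝ)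
    (h : ∀ x ∈ Icc (-R) R, |P x - g x| < η) :
    |∫ x, P x ∂μ - ∫ x, g x ∂μ| ≤ η * μ.real univ := by
  rw [← integral_sub (integrable_of_bdd R μ hμ P hP) (integrable_of_bdd R μ hμ g hg),
    ← Real.norm_eq_abs]
  refine norm_integral_le_of_norm_le_const ?_
  filter_upwards [hμ] with x hx using (h x (abs_le.mp hx)).le

lemma mom_tendsto (R : ℝ) (ν : ℕ → Measure ℝ) (μ : Measure ℝ) [∀ k, IsFiniteMeasure (ν k)]
    [IsFiniteMeasure μ] (hν : ∀ k, ∀ᵐ x ∂(ν k), |x| ≤ R) (hμ : ∀ᵐ x ∂μ, |x| ≤ R)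
    (hm : ∀ j : ℕ, Tendsto (fun k => ∫ x, x ^ j ∂(ν k)) atTop (𝓝 (∫ x, x ^ j ∂μ)))
    (g : ℝ → ℝ) (hg : Continuous g) :
    Tendsto (fun k => ∫ x, g x ∂(ν k)) atTop (𝓝 (∫ x, g x ∂μ)) := by
  have hP : ∀ P : Polynomial ℝ,
      Tendsto (fun k => ∫ x, P.eval x ∂(ν k)) atTop (𝓝 (∫ x, P.eval x ∂μ)) := by
    intro P
    induction P using Polynomial.induction_on' with
    | add P Q hP hQ =>
      simp only [Polynomial.eval_add]
      rw [integral_add (integrable_of_bdd R μ hμ _ P.continuous)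
        (integrable_of_bdd R μ hμ _ Q.continuous)]
      refine (hP.add hQ).congr (fun k => ?_)
      rw [integral_add (integrable_of_bdd R _ (hν k) _ P.continuous)
        (integrable_of_bdd R _ (hν k) _ Q.continuous)]
    | monomial n a =>
      simp only [Polynomial.eval_monomial, integral_const_mul]
      exact (hm n).const_mul a
  have h0 := hm 0
  simp only [pow_zero, integral_const, smul_eq_mul, mul_one] at h0
  rw [Metric.tendsto_nhds]
  intro ε hε
  set M := μ.real univ + 1 with hM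
  have hM0 : 0 < M := by positivity
  obtain ⟨P, hPg⟩ := exists_polynomial_near_of_continuousOn (-R) R g hg.continuousOn (ε / 3 / M)
    (by positivity)
  filter_upwards [Metric.tendsto_nhds.mp (hP P) (ε / 3) (by positivity),
    h0.eventually_lt_const (show μ.real univ < M by linarith only [])] with k h1 h2
  have a1 := near_int R μ hμ g _ hg P.continuous _ hPg
  have a2 := near_int R (ν k) (hν k) g _ hg P.continuous _ hPg
  have a3 : ε / 3 / M * μ.real univ ≤ ε / 3 / M * M := by gcongr; linarith only []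
  have a4 : ε / 3 / M * (ν k).real univ ≤ ε / 3 / M * M := by gcongr
  rw [div_mul_cancel₀ _ hM0.ne'] at a3 a4
  rw [Real.dist_eq] at h1 ⊢
  rw [abs_lt] at h1 ⊢
  rw [abs_le] at a1 a2
  constructor <;> linarith only [h1, a1, a2, a3, a4, a1.1, a1.2, a2.1, a2.2, h1.1, h1.2]

lemma null_of_tail (ν : ℕ → Measure ℝ) (μ : Measure ℝ) [hν : ∀ k, IsProbabilityMeasure (ν k)]
    [hμ : IsProbabilityMeasure μ]
    (hw : ∀ g : ℝ → ℝ, Continuous g → Tendsto (fun k => ∫ x, g x ∂(ν k)) atTop (𝓝 (∫ x, g x ∂μ)))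
    (C O : Set ℝ) (hC : IsClosed C) (hO : IsOpen O) (hCO : C ⊆ O) (h0 : ∀ k, ν k C = 0)
    (t : ℕ → ℝ≥0∞) (ht : Tendsto t atTop (𝓝 0)) (J : ℕ)
    (h : ∀ F ⊆ O, IsClosed F → ∀ m, J ≤ m → ∀ l, m ≤ l → ν m F ≤ ν l F + t m) : μ C = 0 := by
  let P : ProbabilityMeasure ℝ := ⟨μ, hμ⟩
  let Q : ℕ → ProbabilityMeasure ℝ := fun k => ⟨ν k, hν k⟩
  have hT : Tendsto Q atTop (𝓝 P) :=
    ProbabilityMeasure.tendsto_iff_forall_integral_tendsto.mpr (fun f => hw f f.continuous)
  have h1 : ∀ m, J ≤ m → ν m O ≤ μ (O \ C) + t m := by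
    intro m hm
    rw [← measure_diff_null (h0 m), (hO.sdiff hC).measure_eq_iSup_isClosed (ν m)]
    refine iSup_le (fun F => iSup_le (fun hF => iSup_le (fun hF' => ?_)))
    rw [← tsub_le_iff_right]
    refine le_trans ?_ ((ProbabilityMeasure.limsup_measure_closed_le_of_tendsto hT hF').trans
      (measure_mono hF))
    refine le_limsup_of_frequently_le (Eventually.frequently ?_)
    filter_upwards [eventually_ge_atTop m] with l hl
    rw [tsub_le_iff_right]
    exact h F (hF.trans diff_subset) hF' m hm l hl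
  have h2 : μ O ≤ μ (O \ C) := by
    refine (ProbabilityMeasure.le_liminf_measure_open_of_tendsto hT hO).trans ?_
    have h3 : Tendsto (fun m => μ (O \ C) + t m) atTop (𝓝 (μ (O \ C))) := by
      simpa using ht.const_add (μ (O \ C))
    rw [← h3.liminf_eq]
    refine liminf_le_liminf ?_
    filter_upwards [eventually_ge_atTop J] with m hm using h1 m hm
  have h3 := measure_inter_add_diff (μ := μ) O hC.measurableSet
  rw [inter_eq_self_of_subset_right hCO] at h3
  rw [← h3] at h2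
  have h4 : μ C + μ (O \ C) ≤ 0 + μ (O \ C) := by simpa using h2
  exact le_antisymm ((ENNReal.add_le_add_iff_right (measure_ne_top _ _)).mp h4) zero_le

end Pool.Agent.Work.MP_e37829_mp.A
end

-- merged part: Pool.Agent.Work.MP_e37829_mp.A.Op
section
/-! Spectral measures of a bounded self-adjoint operator on square summable sequences. -/

namespace Pool.Agent.Work.MP_e37829_mp.A
open MeasureTheory Set Filter Topology
open scoped ENNReal InnerProductSpace CompactlySupported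

section gen
variable {X : Type} [NormedAddCommGroup X] [InnerProductSpace ℂ X] [CompleteSpace X]

noncomputable def fc (g : ℝ → ℝ) (H : X →L[ℂ] X) : X →L[ℂ] X := cfc g H

def Rep (H : X →L[ℂ] X) (ψ : X) (μ : Measure ℝ) : Prop :=
  IsFiniteMeasure μ ∧ (∀ᵐ x ∂μ, |x| ≤ ‖H‖ + 1) ∧
    ∀ g : ℝ → ℝ, Continuous g → ((∫ x, g x ∂μ : ℝ) : ℂ) = ⟪ψ, fc g H ψ⟫_ℂ

lemma fc_sa (g : ℝ → ℝ) (H : X →L[ℂ] X) : IsSelfAdjoint (fc g H) := cfc_predicate g H

lemma fc_mul (f g : ℝ → ℝ) (hf : Continuous f) (hg : Continuous g) (H : X →L[ℂ] X) (ψ : X) :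
    fc (fun x => f x * g x) H ψ = fc f H (fc g H ψ) := by
  rw [fc, cfc_mul f g H]; rfl

lemma norm_fc_le (g : ℝ → ℝ) (H : X →L[ℂ] X) (h : ∀ x, |g x| ≤ 1) : ‖fc g H‖ ≤ 1 :=
  norm_cfc_le zero_le_one (fun x _ => h x)

variable {H : X →L[ℂ] X} (hH : IsSelfAdjoint H)
include hH

lemma fc_one (ψ : X) : fc (fun _ => 1) H ψ = ψ := by
  rw [fc, cfc_const_one ℝ H]; rfl

lemma fc_pow (k : ℕ) (ψ : X) : fc (fun x => x ^ k) H ψ = (⇑H)^[k] ψ := by
  rw [fc, cfc_pow_id H k, ContinuousLinearMap.coe_pow']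

lemma fc_sub (a : ℝ) (ψ : X) : fc (fun x => x - a) H ψ = H ψ - (a : ℂ) • ψ := by
  rw [fc, cfc_sub (fun x => x) _ H, cfc_id' ℝ H, cfc_const a H, Algebra.algebraMap_eq_smul_one]
  simp

lemma inner_sa (ψ φ : X) : ⟪H ψ, φ⟫_ℂ = ⟪ψ, H φ⟫_ℂ :=
  (ContinuousLinearMap.isSelfAdjoint_iff_isSymmetric.mp hH) ψ φ

lemma inner_re (ψ : X) : (((⟪ψ, H ψ⟫_ℂ).re : ℝ) : ℂ) = ⟪ψ, H ψ⟫_ℂ := by
  rw [← Complex.conj_eq_iff_re, inner_conj_symm, inner_sa hH]

lemma exists_rep (ψ : X) : ∃ μ, Rep H ψ μ := by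
  let L : C_c(spectrum ℝ H, ℝ) →ₗ[ℝ] ℝ :=
    { toFun := fun f => (⟪ψ, (cfcHom hH f.toContinuousMap : X →L[ℂ] X) ψ⟫_ℂ).re
      map_add' := fun f g => by
        have : (f + g).toContinuousMap = f.toContinuousMap + g.toContinuousMap := rfl
        rw [this, map_add]; simp [inner_add_right]
      map_smul' := fun c f => by
        have : (c • f).toContinuousMap = c • f.toContinuousMap := rfl
        rw [this, map_smul, ContinuousLinearMap.smul_apply, ← Complex.coe_smul, inner_smul_right]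
        simp }
  let Λ : C_c(spectrum ℝ H, ℝ) →ₚ[ℝ] ℝ := PositiveLinearMap.mk₀ L (fun f hf => by
    have h1 : 0 ≤ (cfcHom hH f.toContinuousMap : X →L[ℂ] X) :=
      (cfcHom_nonneg_iff hH).mpr (fun x => hf x)
    exact ((ContinuousLinearMap.nonneg_iff_isPositive _).mp h1).re_inner_nonneg_right ψ)
  have hm : Measurable (Subtype.val : spectrum ℝ H → ℝ) := measurable_subtype_coe
  refine ⟨(RealRMK.rieszMeasure Λ).map Subtype.val, inferInstance, ?_, fun g hg => ?_⟩
  · rw [ae_map_iff hm.aemeasurable (measurableSet_le (by fun_prop) measurable_const)]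
    refine Eventually.of_forall (fun x => ?_)
    have h1 := spectrum.norm_le_norm_mul_of_mem x.2
    have h2 : ‖(1 : X →L[ℂ] X)‖ ≤ 1 := ContinuousLinearMap.norm_id_le
    rw [Real.norm_eq_abs] at h1
    linarith only [h1, h2, norm_nonneg H, mul_nonneg_of_nonpos_of_nonpos (Mathlib.Tactic.Linarith.sub_nonpos_of_le h2) (Mathlib.Tactic.Linarith.sub_nonpos_of_le (norm_nonneg H))]
  · rw [integral_map hm.aemeasurable hg.aestronglyMeasurable]
    have := RealRMK.integral_rieszMeasure Λ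
      (CompactlySupportedContinuousMap.continuousMapEquiv ⟨_, hg.continuousOn.domRestrict⟩)
    rw [← inner_re (fc_sa g H) ψ, fc, cfc_apply g H hH hg.continuousOn]
    exact congrArg _ this

lemma Rep.sq {ψ : X} {μ : Measure ℝ} (h : Rep H ψ μ) (g f : ℝ → ℝ) (hg : Continuous g)
    (hf : Continuous f) :
    ((∫ x, g x * (f x * g x) ∂μ : ℝ) : ℂ) = ⟪fc g H ψ, fc f H (fc g H ψ)⟫_ℂ := by
  rw [h.2.2 _ (by fun_prop), fc_mul g _ hg (by fun_prop), fc_mul f g hf hg, inner_sa (fc_sa g H)]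

lemma Rep.norm_sq {ψ : X} {μ : Measure ℝ} (h : Rep H ψ μ) (g : ℝ → ℝ) (hg : Continuous g) :
    ∫ x, g x ^ 2 ∂μ = ‖fc g H ψ‖ ^ 2 := by
  have := h.sq hH g (fun _ => 1) hg continuous_const
  rw [fc_one hH, inner_self_eq_norm_sq_to_K] at this
  simp only [one_mul, ← pow_two] at this
  apply Complex.ofReal_injective
  rw [this]; simp

lemma Rep.mass {ψ : X} {μ : Measure ℝ} (h : Rep H ψ μ) : μ.real univ = ‖ψ‖ ^ 2 := by
  have := h.norm_sq hH (fun _ => 1) continuous_const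
  simpa [fc_one hH] using this

lemma Rep.dens {ψ : X} {μ : Measure ℝ} (h : Rep H ψ μ) (g : ℝ → ℝ) (hg : Continuous g) :
    Rep H (fc g H ψ) (μ.withDensity (fun x => ENNReal.ofReal (g x ^ 2))) := by
  have := h.1
  have hg2 : Continuous (fun x => g x ^ 2) := hg.pow 2
  refine ⟨isFiniteMeasure_withDensity_ofReal
    (integrable_of_bdd _ μ h.2.1 _ hg2).hasFiniteIntegral,
    (withDensity_absolutelyContinuous _ _).ae_le h.2.1, fun f hf => ?_⟩
  rw [← h.sq hH g f hg hf, integral_withDensity_eq_integral_toReal_smul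
    hg2.measurable.ennreal_ofReal (by simp)]
  congr 2
  funext x
  rw [ENNReal.toReal_ofReal (by positivity), smul_eq_mul]; ring

lemma Rep.atom {ψ : X} {μ : Measure ℝ} (h : Rep H ψ μ) (E : ℝ) (hE : μ {E} ≠ 0) :
    ∃ φ : X, φ ≠ 0 ∧ H φ = (E : ℂ) • φ := by
  have := h.1
  have hpos : ∀ i : ℕ, (0 : ℝ) < 1 / (i + 1) := fun i => by positivity
  let g : ℕ → ℝ → ℝ := fun i x => thickenedIndicator (hpos i) {E} x
  have hg : ∀ i, Continuous (g i) := fun i =>
    NNReal.continuous_coe.comp (thickenedIndicator (hpos i) {E}).continuous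
  have hg0 : ∀ i x, 0 ≤ g i x := fun i x => NNReal.coe_nonneg _
  have hg1 : ∀ i x, g i x ≤ 1 := fun i x =>
    NNReal.coe_le_one.mpr (thickenedIndicator_le_one (hpos i) {E} x)
  have hgE : ∀ i, g i E = 1 := fun i =>
    NNReal.coe_eq_one.mpr (thickenedIndicator_one (hpos i) {E} rfl)
  have hgz : ∀ (i : ℕ) (x : ℝ), 1 / ((i : ℝ) + 1) ≤ |x - E| → g i x = 0 := fun i x hx =>
    NNReal.coe_eq_zero.mpr (thickenedIndicator_zero (hpos i) {E} (by
      rw [Metric.thickening_singleton, Metric.mem_ball, Real.dist_eq, not_lt]; exact hx))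
  have hlim : Tendsto (fun i => ∫ x, g i x ∂μ) atTop (𝓝 (μ.real {E})) :=
    tendsto_integral_thickenedIndicator_of_isClosed μ isClosed_singleton hpos
      tendsto_one_div_add_atTop_nhds_zero_nat
  have hI := integrable_of_bdd _ μ h.2.1
  have hI1 : Integrable (({E} : Set ℝ).indicator (fun _ => (1 : ℝ))) μ :=
    (integrable_const 1).indicator (measurableSet_singleton E)
  have hc : CauchySeq (fun i => fc (g i) H ψ) := by
    rw [Metric.cauchySeq_iff]
    intro ε hε
    obtain ⟨N, hN⟩ := eventually_atTop.mp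
      (hlim.eventually_lt_const (show μ.real {E} < μ.real {E} + ε ^ 2 / 2 by linarith only [hε, pow_pos hε 2]))
    refine ⟨N, fun i hi j hj => ?_⟩
    have e : fc (g i) H ψ - fc (g j) H ψ = fc (fun x => g i x - g j x) H ψ := by
      rw [fc, fc, fc, cfc_sub (g i) (g j) H (hg i).continuousOn (hg j).continuousOn]; rfl
    rw [dist_eq_norm, e]
    refine lt_of_pow_lt_pow_left₀ 2 hε.le ?_
    rw [← h.norm_sq hH (fun x => g i x - g j x) ((hg i).sub (hg j))]
    have a1 : ∫ x, (g i x - g j x) ^ 2 ∂μ ≤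
        ∫ x, (g i x + g j x - 2 * ({E} : Set ℝ).indicator (fun _ => (1 : ℝ)) x) ∂μ := by
      refine integral_mono (hI _ (((hg i).sub (hg j)).pow 2))
        ((hI _ ((hg i).add (hg j))).sub (hI1.const_mul 2)) (fun x => ?_)
      by_cases hx : x = E
      · simp [hx, hgE]; norm_num
      · simp only [mem_singleton_iff, hx, not_false_eq_true, indicator_of_notMem]
        linarith only [hg0, hg1, hg0 i x, hg1 i x, hg0 j x, hg1 j x, mul_nonneg_of_nonpos_of_nonpos (Mathlib.Tactic.Linarith.sub_nonpos_of_le (hg0 i x)) (Mathlib.Tactic.Linarith.sub_nonpos_of_le (hg1 i x)), mul_nonneg_of_nonpos_of_nonpos (Mathlib.Tactic.Linarith.sub_nonpos_of_le (hg0 i x)) (Mathlib.Tactic.Linarith.sub_nonpos_of_le (hg0 j x)), mul_nonneg_of_nonpos_of_nonpos (Mathlib.Tactic.Linarith.sub_nonpos_of_le (hg0 j x)) (Mathlib.Tactic.Linarith.sub_nonpos_of_le (hg1 j x))]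
    rw [integral_sub (hI (fun x => g i x + g j x) ((hg i).add (hg j))) (hI1.const_mul 2),
      integral_add (hI _ (hg i)) (hI _ (hg j)), integral_const_mul,
      integral_indicator_const _ (measurableSet_singleton E), smul_eq_mul, mul_one] at a1
    linarith only [a1, hN, hi, hj, hN i hi, hN j hj]
  obtain ⟨φ, hφ⟩ := cauchySeq_tendsto_of_complete hc
  refine ⟨φ, fun h0 => hE ?_, ?_⟩
  · have h3 := (Complex.continuous_ofReal.tendsto _).comp hlim
    have h4 : Tendsto (fun i => ⟪ψ, fc (g i) H ψ⟫_ℂ) atTop (𝓝 ⟪ψ, φ⟫_ℂ) :=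
      tendsto_const_nhds.inner hφ
    have h5 := tendsto_nhds_unique (h3.congr (fun i => h.2.2 _ (hg i))) h4
    rw [h0, inner_zero_right, Complex.ofReal_eq_zero, measureReal_eq_zero_iff] at h5
    exact h5
  · have t1 := ((H.continuous.tendsto φ).comp hφ).sub (hφ.const_smul (E : ℂ))
    have t2 : Tendsto (fun i => fc (fun x => (x - E) * g i x) H ψ) atTop (𝓝 0) := by
      refine squeeze_zero_norm (a := fun i : ℕ => 1 / ((i : ℝ) + 1) * ‖ψ‖) (fun i => ?_)
        (by simpa using tendsto_one_div_add_atTop_nhds_zero_nat.mul_const ‖ψ‖)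
      refine ContinuousLinearMap.le_of_opNorm_le _ (norm_cfc_le (hpos i).le (fun x _ => ?_)) ψ
      rw [Real.norm_eq_abs, abs_mul, abs_of_nonneg (hg0 i x)]
      rcases le_total (1 / ((i : ℝ) + 1)) |x - E| with h1 | h1
      · rw [hgz i x h1, mul_zero]; exact (hpos i).le
      · linarith only [h1, hg1, hg0 i x, hg1 i x, abs_nonneg (x - E), mul_nonneg_of_nonpos_of_nonpos (Mathlib.Tactic.Linarith.sub_nonpos_of_le (hg1 i x)) (Mathlib.Tactic.Linarith.sub_nonpos_of_le (abs_nonneg (x - E)))]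
    refine sub_eq_zero.mp (tendsto_nhds_unique t1 (t2.congr (fun i => ?_)))
    rw [fc_mul _ _ (by fun_prop) (hg i), fc_sub hH]; rfl

end gen

noncomputable abbrev L2 := lp (fun _ : ℤ => ℂ) 2

def IsOp (W : ℤ → ℝ) (H : L2 →L[ℂ] L2) : Prop :=
  ∀ (ψ : L2) (n : ℤ), (H ψ) n = ψ (n + 1) + ψ (n - 1) + ((W n : ℝ) : ℂ) * ψ n

def IsSpec (H : L2 →L[ℂ] L2) (ψ : L2) (μ : Measure ℝ) : Prop :=
  IsFiniteMeasure μ ∧ ∀ k : ℕ, Integrable (fun x : ℝ => x ^ k) μ ∧
    (∑' n : ℤ, star (ψ n) * (((⇑H)^[k] ψ) n)) = (((∫ x, x ^ k ∂μ) : ℝ) : ℂ)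

lemma tsum_inner (ψ φ : L2) : ∑' n : ℤ, star (ψ n) * φ n = ⟪ψ, φ⟫_ℂ := by
  rw [lp.inner_eq_tsum]
  exact tsum_congr (fun n => by simp [mul_comm])

lemma IsOp.sa {W : ℤ → ℝ} {H : L2 →L[ℂ] L2} (h : IsOp W H) : IsSelfAdjoint H := by
  rw [ContinuousLinearMap.isSelfAdjoint_iff_isSymmetric]
  intro ψ φ
  have hs : ∀ a : ℤ, ⟪shift a ψ, φ⟫_ℂ = ⟪ψ, shift (-a) φ⟫_ℂ := by
    intro a
    rw [← tsum_inner, ← tsum_inner, ← (Equiv.addRight a).tsum_eq (fun n => star (ψ n) * _)]
    exact tsum_congr (fun n => by simp [shift_apply])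
  have hM : ⟪H ψ - shift 1 ψ - shift (-1) ψ, φ⟫_ℂ = ⟪ψ, H φ - shift 1 φ - shift (-1) φ⟫_ℂ := by
    rw [← tsum_inner, ← tsum_inner]
    refine tsum_congr (fun n => ?_)
    simp only [lp.coeFn_sub, Pi.sub_apply, shift_apply, h ψ n, h φ n, ← sub_eq_add_neg]
    simp; ring
  have h1 := hs 1
  have h2 := hs (-1)
  simp only [inner_sub_left, inner_sub_right, neg_neg] at hM h2
  simp only [ContinuousLinearMap.coe_coe]
  linear_combination hM + h1 + h2

section sa
variable {H : L2 →L[ℂ] L2} (hH : IsSelfAdjoint H)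
include hH

lemma Rep.spec {ψ : L2} {μ : Measure ℝ} (h : Rep H ψ μ) : IsSpec H ψ μ := by
  have := h.1
  refine ⟨h.1, fun k => ⟨integrable_of_bdd _ μ h.2.1 _ (by fun_prop), ?_⟩⟩
  rw [h.2.2 _ (by fun_prop), fc_pow hH, tsum_inner]

lemma IsSpec.rep {ψ : L2} {μ : Measure ℝ} (h : IsSpec H ψ μ) : Rep H ψ μ := by
  have := h.1
  have hsupp : ∀ᵐ x ∂μ, |x| ≤ ‖H‖ + 1 := by
    have hn : ∀ k : ℕ, ‖(⇑H)^[k] ψ‖ ≤ ‖H‖ ^ k * ‖ψ‖ := by
      intro k
      induction k with
      | zero => simp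
      | succ k ih =>
        rw [Function.iterate_succ_apply', pow_succ', mul_assoc]
        exact (H.le_opNorm _).trans (by gcongr)
    have h0 := norm_nonneg H
    have hb : ∀ k : ℕ, μ.real {x | ‖H‖ + 1 < |x|} ≤ (‖H‖ / (‖H‖ + 1)) ^ (2 * k) * ‖ψ‖ ^ 2 := by
      intro k
      have a1 := mul_meas_ge_le_integral_of_nonneg (μ := μ) (f := fun x : ℝ => x ^ (2 * k))
        (Eventually.of_forall (fun x => Even.pow_nonneg (by simp) x)) (h.2 _).1
        ((‖H‖ + 1) ^ (2 * k))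
      have a2 : μ.real {x | ‖H‖ + 1 < |x|} ≤ μ.real {x | (‖H‖ + 1) ^ (2 * k) ≤ x ^ (2 * k)} := by
        refine measureReal_mono (fun x hx => ?_)
        simp only [mem_setOf_eq] at hx ⊢
        rw [pow_mul, pow_mul, ← sq_abs x]
        gcongr
      have a3 : ∫ x, x ^ (2 * k) ∂μ ≤ ‖H‖ ^ (2 * k) * ‖ψ‖ ^ 2 := by
        have b1 := congrArg norm (h.2 (2 * k)).2
        rw [tsum_inner, Complex.norm_real, Real.norm_eq_abs] at b1
        refine (le_abs_self _).trans (b1 ▸ (norm_inner_le_norm _ _).trans ?_)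
        calc ‖ψ‖ * ‖(⇑H)^[2 * k] ψ‖ ≤ ‖ψ‖ * (‖H‖ ^ (2 * k) * ‖ψ‖) := by gcongr; exact hn _
          _ = _ := by ring
      rw [div_pow, div_mul_eq_mul_div, le_div_iff₀ (by positivity)]
      calc _ ≤ μ.real {x | (‖H‖ + 1) ^ (2 * k) ≤ x ^ (2 * k)} * (‖H‖ + 1) ^ (2 * k) := by gcongr
        _ ≤ _ := by rw [mul_comm]; exact a1.trans a3
    have ht : Tendsto (fun k : ℕ => (‖H‖ / (‖H‖ + 1)) ^ (2 * k) * ‖ψ‖ ^ 2) atTop (𝓝 0) := by
      have := ((tendsto_pow_atTop_nhds_zero_of_lt_one (r := ‖H‖ / (‖H‖ + 1)) (by positivity)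
        (by rw [div_lt_one (by positivity)]; linarith)).pow 2).mul_const (‖ψ‖ ^ 2)
      simpa [← pow_mul, mul_comm] using this
    have h1 := le_antisymm (ge_of_tendsto' ht hb) measureReal_nonneg
    rw [measureReal_eq_zero_iff] at h1
    rw [ae_iff]
    simpa using h1
  refine ⟨h.1, hsupp, fun g hg => ?_⟩
  obtain ⟨μ0, h0⟩ := exists_rep hH ψ
  have := h0.1
  have h1 := mom_tendsto _ (fun _ => μ) μ0 (fun _ => hsupp) h0.2.1 (fun j => by
    have a1 := (h.2 j).2
    rw [((h0.spec hH).2 j).2] at a1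
    rw [Complex.ofReal_injective a1]; exact tendsto_const_nhds) g hg
  rw [tendsto_nhds_unique tendsto_const_nhds h1, h0.2.2 g hg]

lemma null_all (C : Set ℝ) (hC : IsClosed C)
    (h : ∀ n : ℤ, ∃ μ, Rep H (lp.single 2 n 1) μ ∧ μ C = 0) {ψ : L2} {μ : Measure ℝ}
    (hμ : Rep H ψ μ) : μ C = 0 := by
  have hpos : ∀ i : ℕ, (0 : ℝ) < 1 / (i + 1) := fun i => by positivity
  let g : ℕ → ℝ → ℝ := fun i x => thickenedIndicator (hpos i) C x
  have hg : ∀ i, Continuous (g i) := fun i =>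
    NNReal.continuous_coe.comp (thickenedIndicator (hpos i) C).continuous
  have hg0 : ∀ i x, 0 ≤ g i x := fun i x => NNReal.coe_nonneg _
  have hg1 : ∀ i x, g i x ≤ 1 := fun i x =>
    NNReal.coe_le_one.mpr (thickenedIndicator_le_one (hpos i) C x)
  have hlim : ∀ (ν : Measure ℝ) [IsFiniteMeasure ν],
      Tendsto (fun i => ∫ x, g i x ∂ν) atTop (𝓝 (ν.real C)) := fun ν _ =>
    tendsto_integral_thickenedIndicator_of_isClosed ν hC hpos
      tendsto_one_div_add_atTop_nhds_zero_nat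
  have hn : ∀ i, ‖fc (g i) H‖ ≤ 1 := fun i => norm_fc_le _ _ (fun x => by
    rw [abs_of_nonneg (hg0 i x)]; exact hg1 i x)
  have h1 : ∀ n : ℤ, Tendsto (fun i => fc (g i) H (lp.single 2 n 1)) atTop (𝓝 0) := by
    intro n
    obtain ⟨ν, hν, hν0⟩ := h n
    have := hν.1
    have a1 := hlim ν
    rw [Measure.real, hν0, ENNReal.toReal_zero] at a1
    have a2 := (Real.continuous_sqrt.tendsto 0).comp a1
    rw [Real.sqrt_zero] at a2
    refine squeeze_zero_norm (fun i => ?_) a2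
    apply Real.le_sqrt_of_sq_le
    rw [← hν.norm_sq hH _ (hg i)]
    refine integral_mono (integrable_of_bdd _ ν hν.2.1 _ ((hg i).pow 2))
      (integrable_of_bdd _ ν hν.2.1 _ (hg i)) (fun x => ?_)
    linarith only [hg0, hg1, hg0 i x, hg1 i x, mul_nonneg_of_nonpos_of_nonpos (Mathlib.Tactic.Linarith.sub_nonpos_of_le (hg0 i x)) (Mathlib.Tactic.Linarith.sub_nonpos_of_le (hg1 i x))]
  have h2 : Tendsto (fun i => fc (g i) H ψ) atTop (𝓝 0) := by
    rw [Metric.tendsto_nhds]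
    intro ε hε
    obtain ⟨F, hF⟩ := (Metric.tendsto_nhds.mp (lp.hasSum_single (by simp) ψ) (ε / 2)
      (by positivity)).exists
    have a1 : Tendsto (fun i => fc (g i) H (∑ n ∈ F, lp.single 2 n (ψ n))) atTop (𝓝 0) := by
      have := tendsto_finsetSum F (fun n _ => (h1 n).const_smul (ψ n))
      simp only [smul_zero, Finset.sum_const_zero] at this
      refine this.congr (fun i => ?_)
      rw [map_sum]
      refine Finset.sum_congr rfl (fun n _ => ?_)
      rw [← map_smul, ← lp.single_smul]; simp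
    filter_upwards [Metric.tendsto_nhds.mp a1 (ε / 2) (by positivity)] with i hi
    rw [dist_zero_right] at hi ⊢
    rw [dist_comm, dist_eq_norm] at hF
    have a2 := (fc (g i) H).le_of_opNorm_le (hn i) (ψ - ∑ n ∈ F, lp.single 2 n (ψ n))
    rw [map_sub] at a2
    have a3 := norm_add_le (fc (g i) H ψ - fc (g i) H (∑ n ∈ F, lp.single 2 n (ψ n)))
      (fc (g i) H (∑ n ∈ F, lp.single 2 n (ψ n)))
    rw [sub_add_cancel] at a3
    linarith only [hF, hi, a2, a3]
  have := hμ.1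
  have h3 := (Complex.continuous_ofReal.tendsto _).comp (hlim μ)
  have h4 : Tendsto (fun i => ⟪ψ, fc (g i) H ψ⟫_ℂ) atTop (𝓝 ⟪ψ, (0 : L2)⟫_ℂ) :=
    tendsto_const_nhds.inner h2
  have h5 := tendsto_nhds_unique (h3.congr (fun i => hμ.2.2 _ (hg i))) h4
  rw [inner_zero_right, Complex.ofReal_eq_zero, measureReal_eq_zero_iff] at h5
  exact h5

lemma spec_eig {ψ : L2} {E : ℝ} (h : H ψ = (E : ℂ) • ψ) :
    IsSpec H ψ (ENNReal.ofReal (‖ψ‖ ^ 2) • Measure.dirac E) := by
  refine ⟨⟨by simp⟩, fun k => ⟨(integrable_dirac (by simp)).smul_measure (by simp), ?_⟩⟩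
  have : (⇑H)^[k] ψ = (E : ℂ) ^ k • ψ := by
    induction k with
    | zero => simp
    | succ k ih => rw [Function.iterate_succ_apply', ih, map_smul, h, smul_smul, pow_succ]
  rw [tsum_inner, this, inner_smul_right, inner_self_eq_norm_sq_to_K, integral_smul_measure,
    integral_dirac, ENNReal.toReal_ofReal (by positivity)]
  simp [mul_comm]

lemma eig_finite (Z : Set ℝ) (C : ℝ) (n : ℤ)
    (h : ∀ E ∈ Z, ∃ ψ : L2, ψ n = 1 ∧ ‖ψ‖ ^ 2 ≤ C ∧ H ψ = (E : ℂ) • ψ) : Z.Finite := by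
  choose! ψ h1 h2 h3 using h
  have hne : ∀ E ∈ Z, 0 < ‖ψ E‖ := fun E hE => by
    have := lp.norm_apply_le_norm (by simp) (ψ E) n
    rw [h1 E hE, norm_one] at this
    linarith only [this]
  let v : Z → L2 := fun E => ((‖ψ E‖⁻¹ : ℝ) : ℂ) • ψ E
  have hv : Orthonormal ℂ v := by
    refine ⟨fun E => ?_, fun E E' hE => ?_⟩
    · simp only [v, norm_smul, Complex.norm_real, norm_inv, norm_norm]
      exact inv_mul_cancel₀ (hne E E.2).ne'
    · have a1 := inner_sa hH (ψ E) (ψ E')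
      rw [h3 E E.2, h3 E' E'.2, inner_smul_left, inner_smul_right, Complex.conj_ofReal] at a1
      have a2 : ((E : ℝ) : ℂ) - ((E' : ℝ) : ℂ) ≠ 0 := by
        rw [sub_ne_zero]; exact_mod_cast fun h => hE (Subtype.ext h)
      have a3 : ⟪ψ E, ψ E'⟫_ℂ = 0 := by
        apply mul_left_cancel₀ a2; linear_combination a1
      simp only [v, inner_smul_left, inner_smul_right, a3, mul_zero]
  by_contra hinf
  have := Set.Infinite.to_subtype hinf
  obtain ⟨F, hF⟩ := Infinite.exists_subset_card_eq Z (⌈C⌉₊ + 1)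
  have hB := hv.sum_inner_products_le (lp.single 2 n 1) (s := F)
  rw [lp.norm_single (by simp), norm_one, one_pow] at hB
  have hC : 0 < C := by
    obtain ⟨E, hE⟩ := Set.Infinite.nonempty hinf
    exact (pow_pos (hne E hE) 2).trans_le (h2 E hE)
  have a1 : ∀ E ∈ F, C⁻¹ ≤ ‖⟪v E, (lp.single 2 n 1 : L2)⟫_ℂ‖ ^ 2 := by
    intro E _
    simp only [v, inner_smul_left, lp.inner_single_right, h1 E E.2]
    simp only [Complex.conj_ofReal, inner_self_eq_norm_sq_to_K, norm_one, norm_mul,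
      Complex.norm_real, norm_inv, norm_norm]
    simp only [RCLike.ofReal_one, one_pow, norm_one, mul_one, inv_pow]
    exact inv_anti₀ (pow_pos (hne E E.2) 2) (h2 E E.2)
  have a2 := (Finset.card_nsmul_le_sum F _ _ a1).trans hB
  rw [hF, nsmul_eq_mul, mul_inv_le_iff₀ hC] at a2
  push_cast at a2
  linarith only [a2, Nat.le_ceil C]

end sa

lemma IsOp.prod_ne {W : ℤ → ℝ} {H : L2 →L[ℂ] L2} (h : IsOp W H) (F : Finset ℝ) :
    fc (fun x => ∏ E ∈ F, (x - E)) H (lp.single 2 0 1) ≠ 0 := by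
  classical
  have hH := h.sa
  have key : ∃ r : ℤ, fc (fun x => ∏ E ∈ F, (x - E)) H (lp.single 2 0 1) r = 1 ∧
      ∀ m, r < m → fc (fun x => ∏ E ∈ F, (x - E)) H (lp.single 2 0 1) m = 0 := by
    induction F using Finset.induction_on with
    | empty =>
      refine ⟨0, ?_, fun m hm => ?_⟩
      · simp [fc_one hH]
      · simp [fc_one hH, hm.ne']
    | insert a F ha ih =>
      obtain ⟨r, h1, h2⟩ := ih
      simp only [Finset.prod_insert ha]
      rw [fc_mul (fun x => x - a) _ (by fun_prop) (by fun_prop), fc_sub hH]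
      set φ := fc (fun x => ∏ E ∈ F, (x - E)) H (lp.single 2 0 1) with hφ
      have e : ∀ m, (H φ - (a : ℂ) • φ) m = φ (m + 1) + φ (m - 1) + W m * φ m - a * φ m := by
        intro m
        rw [lp.coeFn_sub, Pi.sub_apply, h φ m, lp.coeFn_smul, Pi.smul_apply, smul_eq_mul]
      refine ⟨r + 1, ?_, fun m hm => ?_⟩
      · rw [e, add_sub_cancel_right, h1, h2 _ (by omega), h2 _ (by omega)]; simp
      · rw [e, h2 _ (by omega), h2 _ (by omega), h2 _ (by omega)]; simp
  obtain ⟨r, h1, _⟩ := key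
  intro h0
  rw [h0] at h1
  simp at h1

end Pool.Agent.Work.MP_e37829_mp.A
end

-- merged part: Pool.Agent.Work.MP_e37829_mp.A.Main
section
/-! The spectral type of a hierarchical potential. -/

namespace Pool.Agent.Work.MP_e37829_mp.A
open MeasureTheory Set Filter Topology
open scoped ENNReal InnerProductSpace

lemma mom_succ (V : ℤ → ℝ) (n : ℤ) (j : ℕ) (m : ℤ) :
    mom V n (j + 1) m = mom V n j (m + 1) + mom V n j (m - 1) + V m * mom V n j m := by
  simp only [mom, Function.iterate_succ_apply', Hop]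

lemma mom_lim (V : ℕ → ℤ → ℝ) (w : ℕ → ℤ) (W : ℤ → ℝ)
    (h : ∀ m, Tendsto (fun k => V k (m + w k)) atTop (𝓝 (W m))) (n : ℤ) (j : ℕ) (m : ℤ) :
    Tendsto (fun k => mom (V k) (n + w k) j (m + w k)) atTop (𝓝 (mom W n j m)) := by
  induction j generalizing m with
  | zero => simp [mom]
  | succ j ih =>
    simp only [mom_succ]
    refine (((ih (m + 1)).add (ih (m - 1))).add ((h m).mul (ih m))).congr (fun k => ?_)
    rw [add_right_comm m 1, sub_add_eq_add_sub]

lemma IsOp.mom {W : ℤ → ℝ} {H : L2 →L[ℂ] L2} (h : IsOp W H) (n : ℤ) (j : ℕ) (m : ℤ) :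
    ((⇑H)^[j] (lp.single 2 n 1)) m = ((mom W n j m : ℝ) : ℂ) := by
  induction j generalizing m with
  | zero =>
    simp only [Function.iterate_zero, id, A.mom, lp.single_apply, Pi.single_apply]
    split_ifs <;> simp
  | succ j ih =>
    rw [Function.iterate_succ_apply', h, ih, ih, ih, mom_succ]; push_cast; ring

lemma to_L2 {W : ℤ → ℝ} {H : L2 →L[ℂ] L2} (h : IsOp W H) (C E : ℝ) (hC : 0 ≤ C) (φ : ℤ → ℂ)
    (h1 : ∀ F : Finset ℤ, ∑ m ∈ F, ‖φ m‖ ^ 2 ≤ C)
    (h2 : ∀ m, φ (m + 1) + φ (m - 1) + W m * φ m = E * φ m) :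
    ∃ ψ : L2, (∀ m, ψ m = φ m) ∧ ‖ψ‖ ^ 2 ≤ C ∧ H ψ = (E : ℂ) • ψ := by
  refine ⟨⟨φ, memℓp_gen' (C := C) (fun F => by simpa using h1 F)⟩, fun _ => rfl, ?_, ?_⟩
  · rw [← Real.le_sqrt (norm_nonneg _) hC]
    refine lp.norm_le_of_forall_sum_le (by simp) (Real.sqrt_nonneg _) (fun F => ?_)
    simpa [Real.sq_sqrt hC] using h1 F
  · ext m
    rw [h, lp.coeFn_smul, Pi.smul_apply, smul_eq_mul]
    exact h2 m

lemma L2_zero (ψ : L2) : Tendsto (fun n => ψ n) cofinite (𝓝 0) := by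
  have h := ((lp.memℓp ψ).summable (by simp)).tendsto_cofinite_zero
  have h2 := (Real.continuous_sqrt.tendsto 0).comp h
  rw [tendsto_zero_iff_norm_tendsto_zero]
  simpa [Function.comp_def] using h2

namespace Hier
variable {h : Hier} {w : ℕ → ℤ} {W : ℤ → ℝ} (hw : h.Lim w W) {H : L2 →L[ℂ] L2} (hH : IsOp W H)
include hw hH

lemma Lim.delta_null (C : Set ℝ) (hC : IsCompact C) (h0 : volume C = 0) (hZ : Disjoint C h.Z)
    (n : ℤ) : ∃ μ, Rep H (lp.single 2 n 1) μ ∧ μ C = 0 := by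
  obtain ⟨μ, hμ⟩ := exists_rep hH.sa (lp.single 2 n 1 : L2)
  refine ⟨μ, hμ, ?_⟩
  have := hμ.1
  have : IsProbabilityMeasure μ := by
    have := hμ.mass hH.sa
    rw [lp.norm_single (by simp), norm_one, one_pow] at this
    exact isProbabilityMeasure_iff_real.mpr this
  have := fun k => h.ν_prob k (n + w k)
  obtain ⟨K, hK, h1, h2⟩ := exists_compact_between hC h.closed_Z.isOpen_compl
    (subset_compl_iff_disjoint_right.mpr hZ)
  obtain ⟨J, D, _, hJ⟩ := h.tail K hK (subset_compl_iff_disjoint_right.mp h2)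
  refine null_of_tail (fun k => h.ν k (n + w k)) μ (fun g hg => ?_) C (interior K) hC.isClosed
    isOpen_interior h1 (fun k => nu_ac _ _ _ h0) (fun m => ENNReal.ofReal (D * (3 / 4) ^ m)) ?_ J
    (fun F hF hF' => hJ (fun k => n + w k) (fun j => by simpa using hw.1 j) F
      (hF.trans interior_subset) hF'.measurableSet)
  · refine mom_tendsto (max (h.B + 2) (‖H‖ + 1)) _ μ (fun k => ?_) ?_ (fun j => ?_) g hg
    · filter_upwards [nu_ae _ _ (h.pos k) (h.per k) _ (h.bd k) (n + w k)] with x hx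
      exact hx.1.trans (le_max_left _ _)
    · filter_upwards [hμ.2.1] with x hx using hx.trans (le_max_right _ _)
    · have a1 : ∫ x, x ^ j ∂μ = mom W n j n := by
        apply Complex.ofReal_injective
        rw [hμ.2.2 _ (by fun_prop), fc_pow hH.sa, lp.inner_single_left, hH.mom]
        simp
      rw [a1]
      refine (mom_lim h.V w W hw.2 n j n).congr (fun k => ?_)
      exact (nu_mom _ _ (h.pos k) (h.per k) _ (h.bd k) _ j).symm
  · have := ((tendsto_pow_atTop_nhds_zero_of_lt_one (r := (3 / 4 : ℝ)) (by norm_num)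
      (by norm_num)).const_mul D)
    simpa using ENNReal.tendsto_ofReal this

lemma Lim.rep_null {ψ : L2} {μ : Measure ℝ} (hμ : Rep H ψ μ) (N : Set ℝ) (hN : MeasurableSet N)
    (h0 : volume N = 0) : μ (N \ h.Z) = 0 := by
  have := hμ.1
  rw [(hN.diff h.closed_Z.measurableSet).measure_eq_iSup_isCompact μ]
  simp only [ENNReal.iSup_eq_zero]
  intro C h1 hC
  exact null_all hH.sa C hC.isClosed (hw.delta_null hH C hC
    (measure_mono_null (h1.trans diff_subset) h0)
    (Set.disjoint_left.mpr (fun x hx => (h1 hx).2))) hμ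

lemma Lim.no_sc (hZ : h.Z.Finite) : ¬ ∃ (ψ : L2) (μ : Measure ℝ), IsSpec H ψ μ ∧ μ ≠ 0 ∧
    μ.MutuallySingular volume ∧ ∀ x : ℝ, μ {x} = 0 := by
  rintro ⟨ψ, μ, h1, h2, ⟨s, hs, hs1, hs2⟩, h4⟩
  have a1 := hw.rep_null hH (h1.rep hH.sa) sᶜ hs.compl hs2
  have : NullSingletonClass μ := ⟨h4⟩
  have a2 : μ h.Z = 0 := hZ.measure_zero μ
  apply h2
  rw [← Measure.measure_univ_eq_zero]
  refine measure_mono_null (t := s ∪ (sᶜ \ h.Z ∪ h.Z)) (fun x _ => ?_)
    (measure_union_null hs1 (measure_union_null a1 a2))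
  by_cases h5 : x ∈ s <;> by_cases h6 : x ∈ h.Z <;> simp [h5, h6]

lemma Lim.eig_mem {ψ : L2} (h0 : ψ ≠ 0) {E : ℝ} (hE : H ψ = (E : ℂ) • ψ) : E ∈ h.Z := by
  by_contra hn
  have a1 := hw.rep_null hH ((spec_eig hH.sa hE).rep hH.sa) {E} (measurableSet_singleton E) (by simp)
  rw [Disjoint.sdiff_eq_left (by simpa using hn)] at a1
  simp [h0] at a1

lemma Lim.has_ac (hZ : h.Z.Finite) : ∃ (ψ : L2) (μ : Measure ℝ), IsSpec H ψ μ ∧ μ ≠ 0 ∧
    μ.AbsolutelyContinuous volume := by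
  obtain ⟨μ, hμ⟩ := exists_rep hH.sa (lp.single 2 0 1 : L2)
  have hg : Continuous (fun x : ℝ => ∏ E ∈ hZ.toFinset, (x - E)) := by fun_prop
  have h1 := hμ.dens hH.sa _ hg
  refine ⟨_, _, h1.spec hH.sa, fun h0 => ?_, ?_⟩
  · have := h1.mass hH.sa
    rw [h0] at this
    exact hH.prod_ne _ (by simpa using this.symm)
  · refine Measure.AbsolutelyContinuous.mk (fun N hN h0 => ?_)
    refine measure_mono_null (subset_diff_union N h.Z)
      (measure_union_null (hw.rep_null hH h1 N hN h0) ?_)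
    rw [withDensity_apply _ h.closed_Z.measurableSet]
    refine setLIntegral_eq_zero h.closed_Z.measurableSet (fun x hx => ?_)
    have : ∏ E ∈ hZ.toFinset, (x - E) = 0 :=
      Finset.prod_eq_zero (hZ.mem_toFinset.mpr hx) (sub_self x)
    simp [this]

lemma Lim.eig' (n : ℤ) (hon : ∀ j, (h.p j : ℤ) ∣ n + w j) (R : ℝ) :
    ∃ C, ∀ E ∈ h.Z, |E| ≤ R → ∃ ψ : L2, ψ n = 1 ∧ ‖ψ‖ ^ 2 ≤ C ∧ H ψ = (E : ℂ) • ψ := by
  obtain ⟨C, hC, h1⟩ := hw.eig n hon R
  refine ⟨C, fun E hE hR => ?_⟩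
  obtain ⟨φ, a1, a2, a3⟩ := h1 E hE hR
  obtain ⟨ψ, b1, b2, b3⟩ := to_L2 hH C E hC φ a2 a3
  exact ⟨ψ, (b1 n).trans a1, b2, b3⟩

lemma Lim.finite (n : ℤ) (hon : ∀ j, (h.p j : ℤ) ∣ n + w j) : h.Z.Finite := by
  obtain ⟨C, hC⟩ := hw.eig' hH n hon ‖H‖
  refine eig_finite hH.sa _ C n (fun E hE => hC E hE ?_)
  obtain ⟨C', hC'⟩ := hw.eig' hH n hon |E|
  obtain ⟨ψ, a1, _, a3⟩ := hC' E hE le_rfl
  have b1 := lp.norm_apply_le_norm (by simp) ψ n
  rw [a1, norm_one] at b1
  have b2 := H.le_opNorm ψ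
  rw [a3, norm_smul, Complex.norm_real, Real.norm_eq_abs] at b2
  exact le_of_mul_le_mul_right b2 (by linarith only [b1])

lemma Lim.pp_iff (hZ : h.Z.Nonempty) : (∃ ψ : L2, ψ ≠ 0 ∧ ∃ E : ℝ, H ψ = (E : ℂ) • ψ) ↔
    ∃ n : ℤ, ∀ j, (h.p j : ℤ) ∣ n + w j := by
  constructor
  · rintro ⟨ψ, h0, E, hE⟩
    by_contra hn
    push Not at hn
    apply h0
    ext n
    refine hw.no_eig hn E (hw.eig_mem hH h0 hE) ψ (fun m => ?_) (L2_zero ψ) n
    rw [← hH ψ m, hE, lp.coeFn_smul, Pi.smul_apply, smul_eq_mul]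
  · rintro ⟨n, hn⟩
    obtain ⟨E, hE⟩ := hZ
    obtain ⟨C, hC⟩ := hw.eig' hH n hn |E|
    obtain ⟨ψ, a1, _, a3⟩ := hC E hE le_rfl
    refine ⟨ψ, fun h0 => ?_, E, a3⟩
    rw [h0] at a1
    simp at a1

lemma Lim.pure_iff (hZ : h.Z.Finite) :
    (∀ (ψ : L2) (μ : Measure ℝ), IsSpec H ψ μ → μ.AbsolutelyContinuous volume) ↔
      ¬ ∃ ψ : L2, ψ ≠ 0 ∧ ∃ E : ℝ, H ψ = (E : ℂ) • ψ := by
  constructor
  · rintro h1 ⟨ψ, h0, E, hE⟩
    have := h1 ψ _ (spec_eig hH.sa hE) (show volume {E} = 0 by simp)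
    simp [h0] at this
  · intro h1 ψ μ hμ
    have h2 := hμ.rep hH.sa
    have : NullSingletonClass μ := ⟨fun E => by
      by_contra hE
      obtain ⟨φ, a1, a2⟩ := h2.atom hH.sa E hE
      exact h1 ⟨φ, a1, E, a2⟩⟩
    refine Measure.AbsolutelyContinuous.mk (fun N hN h0 => ?_)
    exact measure_mono_null (subset_diff_union N h.Z)
      (measure_union_null (hw.rep_null hH h2 N hN h0) (hZ.measure_zero μ))

end Hier

end Pool.Agent.Work.MP_e37829_mp.A
end

-- merged part: Pool.Agent.Work.MP_e37829_mp.A.Start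
section
/-! The choice of the spike heights. -/

namespace Pool.Agent.Work.MP_e37829_mp.A
open Set Filter Topology

lemma cone (V : ℤ → ℝ) (B : ℝ) (hB : ∀ m, |V m| ≤ B) (E : ℝ) (hE : B + 3 ≤ E) (v1 v2 : ℝ)
    (h1 : 2 * v2 ≤ v1) (h2 : 0 ≤ v2) (l : ℕ) :
    2 * (rm V E 0 l 1 0 * v1 + rm V E 0 l 1 1 * v2) ≤ rm V E 0 l 0 0 * v1 + rm V E 0 l 0 1 * v2 ∧
    0 ≤ rm V E 0 l 1 0 * v1 + rm V E 0 l 1 1 * v2 ∧
    v1 ≤ rm V E 0 l 0 0 * v1 + rm V E 0 l 0 1 * v2 := by
  induction l with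
  | zero => simp [rm, tm_zero, h1, h2]
  | succ l ih =>
    obtain ⟨a1, a2, a3⟩ := ih
    simp only [rm, tm_succ_one, tm_succ_zero] at a1 a2 a3 ⊢
    have h3 : 3 ≤ E - V (0 + l + 1) := by linarith only [hE, hB, le_abs_self (V (0 + l + 1)), hB (0 + l + 1)]
    set c := E - V (0 + l + 1)
    set M := tm (fun m => E - V m) 0 l
    have h4 := mul_le_mul_of_nonneg_right h3 (show 0 ≤ M 0 0 * v1 + M 0 1 * v2 by linarith only [a1, a2])
    refine ⟨by linarith only [a1, a2, h4], by linarith only [a1, a2], by linarith only [a1, a2, a3, h4]⟩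

lemma top_edge (V : ℤ → ℝ) (p : ℕ) (hp : 0 < p) (hV : ∀ m, V (m + p) = V m) (B : ℝ)
    (hB : ∀ m, |V m| ≤ B) : ∃ E, xx V p E = 2 ∧ yy V p 0 E ≠ 0 := by
  obtain ⟨q, rfl⟩ : ∃ q, p = q + 1 := ⟨p - 1, by omega⟩
  have hx : 2 ≤ xx V (q + 1) (B + 3) := by
    have h1 := (cone V B hB _ le_rfl 1 0 (by norm_num) le_rfl (q + 1)).1
    have h2 := (cone V B hB _ le_rfl 2 1 (by norm_num) (by norm_num) q).2.2
    rw [xx, Matrix.trace_fin_two]
    simp only [rm, tm_succ_one] at h1 h2 ⊢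
    linarith only [h2, h1]
  let S : Set ℝ := ⋃ l ∈ Finset.range (q + 1), {E | rm V E 0 l 0 0 ≤ 0}
  have hS : ∀ E, E ∈ S ↔ ∃ l, l ≤ q ∧ rm V E 0 l 0 0 ≤ 0 := fun E => by
    simp [S, Nat.lt_succ_iff]
  have hbd : ∀ E ∈ S, E ≤ B + 3 := fun E hE => by
    obtain ⟨l, _, hl⟩ := (hS E).mp hE
    by_contra hn
    have := (cone V B hB E (not_le.mp hn).le 1 0 (by norm_num) le_rfl l).2.2
    linarith only [hl, this]
  have fin : ∀ E0, E0 ≤ B + 3 → xx V (q + 1) E0 < 2 → (∀ E, E0 < E → E ∉ S) →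
      ∃ E, xx V (q + 1) E = 2 ∧ yy V (q + 1) 0 E ≠ 0 := by
    intro E0 h1 h2 h3
    obtain ⟨E, hE, hE2⟩ := intermediate_value_Icc h1 (continuous_xx V (q + 1)).continuousOn
      ⟨h2.le, hx⟩
    refine ⟨E, hE2, fun h0 => h3 E (lt_of_le_of_ne hE.1 ?_) ((hS E).mpr ⟨q, le_rfl, ?_⟩)⟩
    · rintro rfl; linarith only [h2, hE2]
    · simp only [yy, rm, tm_succ_one] at h0 ⊢
      exact h0.le
  rcases S.eq_empty_or_nonempty with h0 | hne
  · have := nu_prob V _ hp hV B hB 0
    obtain ⟨E0, h1, h2⟩ := (nu_ae V _ hp hV B hB 0).exists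
    exact fin E0 (by linarith only [h1, le_abs_self E0]) (abs_lt.mp h2).2 (fun E _ => by simp [h0])
  · have hcl : IsClosed S := isClosed_biUnion_finset
      (fun l _ => isClosed_le (continuous_rm V 0 l 0 0) continuous_const)
    have hb : BddAbove S := ⟨B + 3, hbd⟩
    have h1 := hcl.csSup_mem hne hb
    have h2 : ∀ E, sSup S < E → E ∉ S := fun E hE h => (le_csSup hb h).not_gt hE
    set E1 := sSup S
    refine fin E1 (hbd _ h1) ?_ h2
    have h3 : ∀ l, l ≤ q → 0 ≤ rm V E1 0 l 0 0 := by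
      intro l hl
      refine ge_of_tendsto (((continuous_rm V 0 l 0 0).tendsto E1).mono_left
        (nhdsWithin_le_nhds (s := Ioi E1))) ?_
      filter_upwards [self_mem_nhdsWithin] with E hE
      by_contra hn
      exact h2 E hE ((hS E).mpr ⟨l, hl, (not_le.mp hn).le⟩)
    obtain ⟨l, hl, h4⟩ := (hS E1).mp h1
    have h5 := le_antisymm h4 (h3 l hl)
    have h6 : 0 ≤ rm V E1 0 l 1 0 := by
      rcases l with _ | l
      · simp [rm, tm_zero]
      · have := h3 l (by omega)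
        simpa only [rm, tm_succ_one] using this
    have h7 : rm V E1 0 (l + 1) 0 0 = -rm V E1 0 l 1 0 := by
      simp only [rm, tm_succ_zero] at h5 ⊢
      rw [h5]; ring
    have h8 : rm V E1 0 (l + 1) 0 0 * rm V E1 0 (l + 1) 1 1 = 1 := by
      have := tm_det' (fun m => E1 - V m) 0 (l + 1)
      simp only [rm, tm_succ_one] at h5 this ⊢
      rw [h5] at this
      linarith only [this]
    have h9 : rm V E1 0 (l + 1) 0 0 < 0 := by
      refine lt_of_le_of_ne (by linarith only [h6, h7]) (fun h => ?_)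
      rw [h] at h8; simp at h8
    have hlq : l = q := by
      by_contra hn
      have := h3 (l + 1) (by omega)
      linarith only [h9, this]
    rw [xx, Matrix.trace_fin_two, ← hlq]
    (refine lt_of_not_ge fun h_nl => ?_; linarith only [h_nl, h8, h9, h6, h7, mul_nonneg_of_nonpos_of_nonpos (Mathlib.Tactic.Linarith.sub_nonpos_of_le h6) (Mathlib.Tactic.Linarith.sub_nonpos_of_le h6), Mathlib.Tactic.Linarith.mul_zero_eq (Mathlib.Tactic.Linarith.sub_nonpos_of_le h6) (sub_eq_zero_of_eq h7), mul_nonneg_of_nonpos_of_nonpos (Mathlib.Tactic.Linarith.sub_nonpos_of_le h6) (Mathlib.Tactic.Linarith.sub_nonpos_of_le h_nl), Mathlib.Tactic.Linarith.zero_mul_eq (sub_eq_zero_of_eq h7) (sub_eq_zero_of_eq h7), Mathlib.Tactic.Linarith.zero_mul_eq (sub_eq_zero_of_eq h7) (Mathlib.Tactic.Linarith.sub_nonpos_of_le h_nl)])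

lemma cU_two (n : ℕ) : cU (2 : ℝ) n = n ∧ cU (2 : ℝ) (n + 1) = n + 1 := by
  induction n with
  | zero => simp [cU_zero, cU_one]
  | succ n ih => rw [cU_add_two, ih.1, ih.2]; push_cast; exact ⟨rfl, by ring⟩

lemma first_spike (V : ℤ → ℝ) (p : ℕ) (hp : 0 < p) (hV : ∀ m, V (m + p) = V m) (B : ℝ)
    (hB : ∀ m, |V m| ≤ B) (ε : ℝ) (hε : 0 < ε) : ∃ N : ℕ, ∀ k, N ≤ k → ∃ b E : ℝ, |b| ≤ ε ∧
      xx (spike V b ((k + 1) * p)) ((k + 1) * p) E = 2048 ∧
      2048 ≤ ε * |yy (spike V b ((k + 1) * p)) ((k + 1) * p) 0 E| := by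
  obtain ⟨E, h1, h2⟩ := top_edge V p hp hV B hB
  have hy := abs_pos.mpr h2
  obtain ⟨N, hN⟩ := exists_nat_ge (2048 / (ε * |yy V p 0 E|))
  refine ⟨N, fun k hk => ⟨-2046 / ((k + 1) * yy V p 0 E), E, ?_⟩⟩
  have hk' : (N : ℝ) ≤ k + 1 := by exact_mod_cast hk.trans (Nat.le_succ k)
  have h3 : 2048 ≤ ε * ((k + 1) * |yy V p 0 E|) := by
    rw [div_le_iff₀ (by positivity)] at hN
    calc (2048 : ℝ) ≤ N * (ε * |yy V p 0 E|) := hN
      _ ≤ (k + 1) * (ε * |yy V p 0 E|) := by gcongr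
      _ = _ := by ring
  have h4 : |(k : ℝ) + 1| = k + 1 := abs_of_pos (by positivity)
  refine ⟨?_, ?_, ?_⟩
  · rw [abs_div, abs_mul, h4, div_le_iff₀ (by positivity)]
    norm_num; linarith only [h3]
  · rw [xx_spike V p hp hV, h1, cT, (cU_two k).1, (cU_two k).2]
    field_simp; ring
  · rw [yy_spike V p hp hV, h1, (cU_two k).2, abs_mul, h4]; exact h3

noncomputable def kap (k : ℕ → ℕ) (j : ℕ) : ℝ :=
  (cT (lam j) (k j + 1) - lam (j + 1)) / cU (lam j) (k j + 2)

lemma kap_bd (k : ℕ → ℕ) (j : ℕ) : lam j / 2 ≤ kap k j ∧ kap k j ≤ lam j := by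
  have h0 := lam_ge j
  have h1 := cU_ge_self (lam j) (by linarith only [h0]) (k j)
  obtain ⟨h2, _, h3⟩ := cU_pos (lam j) (by linarith only [h0]) (k j + 1)
  rw [kap, le_div_iff₀ (by linarith only [h0, h1]), div_le_iff₀ (by linarith only [h0, h1]), cT, lam_succ]
  constructor <;> nlinarith

noncomputable def ys (k : ℕ → ℕ) (y0 : ℝ) : ℕ → ℝ
  | 0 => y0
  | j + 1 => cU (lam j) (k j + 2) * ys k y0 j

noncomputable def Vs (p : ℕ → ℕ) (V0 : ℤ → ℝ) (b : ℕ → ℝ) : ℕ → ℤ → ℝ
  | 0 => V0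
  | j + 1 => spike (Vs p V0 b j) (b j) (p (j + 1))

lemma exists_hier (p k : ℕ → ℕ) (p0 : 0 < p 0) (ps : ∀ j, p (j + 1) = (k j + 1 + 1) * p j)
    (V0 : ℤ → ℝ) (hV : ∀ m, V0 (m + p 0) = V0 m) (B : ℝ) (hB : ∀ m, |V0 m| ≤ B) (E ε : ℝ)
    (hx : xx V0 (p 0) E = 2048) (hy : 2048 ≤ ε * |yy V0 (p 0) 0 E|) :
    ∃ h : Hier, h.p = p ∧ h.V 0 = V0 ∧ h.Z.Nonempty ∧ |h.b 0| ≤ ε := by
  set y0 := yy V0 (p 0) 0 E with hy0
  have hU : ∀ j, 2048 ≤ cU (lam j) (k j + 2) := fun j =>
    (lam_ge j).trans (cU_ge_self _ (by linarith only [lam_ge j]) _)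
  have hys : ∀ j, ys k y0 j ≠ 0 := by
    intro j
    induction j with
    | zero => rintro (h : y0 = 0); rw [h] at hy; norm_num at hy
    | succ j ih => exact mul_ne_zero (by linarith only [hU, hU j]) ih
  let b : ℕ → ℝ := fun j => kap k j / ys k y0 j
  have hk : ∀ j, |kap k j| = kap k j := fun j =>
    abs_of_nonneg (by linarith only [(kap_bd k j).1, lam_ge j])
  have bs : ∀ j, |b (j + 1)| * cU (lam j) (k j + 2) ≤ 4 * |b j| := by
    intro j
    have h1 := abs_pos.mpr (hys j)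
    have h2 := hU j
    simp only [b, ys, abs_div, abs_mul, hk]
    rw [abs_of_pos (by linarith only [h2] : 0 < cU (lam j) (k j + 2))]
    have : kap k (j + 1) ≤ 4 * kap k j := by
      linarith only [(kap_bd k (j + 1)).2, (kap_bd k j).1, lam_succ j]
    calc _ = kap k (j + 1) / |ys k y0 j| := by field_simp
      _ ≤ 4 * kap k j / |ys k y0 j| := by gcongr
      _ = _ := by ring
  have bl : ∀ j, |b j| ≤ |b 0| * (1 / 2) ^ j := by
    intro j
    induction j with
    | zero => simp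
    | succ j ih =>
      have h3 := mul_le_mul_of_nonneg_left (hU j) (abs_nonneg (b (j + 1)))
      have h4 := abs_nonneg (b (j + 1))
      rw [pow_succ, ← mul_assoc]
      linarith only [ih, h3, h4, bs, bs j]
  have bd : ∀ j m, |Vs p V0 b j m| ≤ B + 2 * |b 0| - 2 * (|b 0| * (1 / 2) ^ j) := by
    intro j m
    induction j with
    | zero => simpa [Vs] using hB m
    | succ j ih =>
      simp only [Vs, spike]
      refine (abs_add_le _ _).trans ?_
      have : |if (p (j + 1) : ℤ) ∣ m then b j else 0| ≤ |b j| := by split_ifs <;> simp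
      rw [pow_succ, ← mul_assoc]
      linarith only [ih, this, bl, bl j]
  let h : Hier := ⟨p, k, Vs p V0 b, b, B + 2 * |b 0|, p0, ps, hV, fun _ => rfl, bs, fun j m =>
    (bd j m).trans (by have : 0 ≤ |b 0| * (1 / 2) ^ j := by positivity
                       linarith only [this])⟩
  have key : ∀ j, h.x j E = lam j ∧ h.y j E = ys k y0 j := by
    intro j
    induction j with
    | zero => exact ⟨hx.trans (by simp [lam]), rfl⟩
    | succ j ih =>
      rw [h.x_succ, h.y_succ, Hier.d, ih.1, ih.2]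
      refine ⟨?_, rfl⟩
      have h1 := hys j
      have h2 : cU (lam j) (k j + 2) ≠ 0 := by linarith only [hU, hU j]
      simp only [h, b, kap]
      field_simp; ring
  refine ⟨h, rfl, rfl, ⟨E, fun j => ?_⟩, ?_⟩
  · have h1 : h.d j E = kap k j := by
      rw [Hier.d, (key j).2]; exact div_mul_cancel₀ _ (hys j)
    rw [h1, (key j).1, alive, hk, abs_of_nonneg (by linarith only [lam_ge j])]
    exact ⟨Or.inr (by linarith only [(kap_bd k j).1]), by linarith only [(kap_bd k j).1, lam_ge j]⟩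
  · change |kap k 0 / y0| ≤ ε
    rw [abs_div, hk, div_le_iff₀ (abs_pos.mpr (show y0 ≠ 0 from hys 0))]
    have := (kap_bd k 0).2
    simp only [lam, pow_zero, mul_one] at this
    linarith only [hy, this]

end Pool.Agent.Work.MP_e37829_mp.A
end

-- merged part: Pool.Agent.Work.MP_e37829_mp.A.Grp
section
/-! Hierarchical sampling functions on a Cantor group. -/

namespace Pool.Agent.Work.MP_e37829_mp.A
open MeasureTheory Set Filter Topology

section grp
variable {Ω : Type} [TopologicalSpace Ω] [AddCommGroup Ω] [IsTopologicalAddGroup Ω]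

noncomputable def lift (U : AddSubgroup Ω) (hU : IsOpen (U : Set Ω)) (g : Ω ⧸ U → ℝ) : C(Ω, ℝ) :=
  ⟨fun x => g x, by
    have := QuotientAddGroup.discreteTopology hU
    exact continuous_of_discreteTopology.comp QuotientAddGroup.continuous_mk⟩

open Classical in
noncomputable def ind (U : AddSubgroup Ω) (hU : IsOpen (U : Set Ω)) : C(Ω, ℝ) :=
  lift U hU (fun q => if q = 0 then 1 else 0)

def Inv (U : AddSubgroup Ω) (f : C(Ω, ℝ)) : Prop := ∀ x y, x - y ∈ U → f x = f y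

lemma inv_lift (U : AddSubgroup Ω) (hU : IsOpen (U : Set Ω)) (g : Ω ⧸ U → ℝ) :
    Inv U (lift U hU g) := fun _ _ h => congrArg g (QuotientAddGroup.eq_iff_sub_mem.mpr h)

noncomputable def ord (α : Ω) (U : AddSubgroup Ω) : ℕ := addOrderOf (α : Ω ⧸ U)

omit [TopologicalSpace Ω] [IsTopologicalAddGroup Ω] in
lemma ord_dvd (α : Ω) (U : AddSubgroup Ω) (n : ℤ) : (ord α U : ℤ) ∣ n ↔ n • α ∈ U := by
  rw [ord, addOrderOf_dvd_iff_zsmul_eq_zero, ← QuotientAddGroup.eq_zero_iff]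
  simp

lemma ind_orbit (α : Ω) (U : AddSubgroup Ω) (hU : IsOpen (U : Set Ω)) (b : ℝ) (n : ℤ) :
    b * ind U hU (n • α) = if (ord α U : ℤ) ∣ n then b else 0 := by
  have h := (ord_dvd α U n).trans (QuotientAddGroup.eq_zero_iff (n • α)).symm
  simp only [ind, lift, ContinuousMap.coe_mk]
  by_cases h1 : (ord α U : ℤ) ∣ n
  · rw [if_pos h1, if_pos (h.mp h1), mul_one]
  · rw [if_neg h1, if_neg (fun h2 => h1 (h.mpr h2)), mul_zero]

omit [IsTopologicalAddGroup Ω] in
lemma Inv.per {U : AddSubgroup Ω} {f : C(Ω, ℝ)} (h : Inv U f) (α : Ω) (m : ℤ) :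
    f ((m + ord α U) • α) = f (m • α) :=
  h _ _ (by rw [← sub_smul, ← ord_dvd]; simp)

lemma near_orbit (α : Ω) (hα : Dense (range fun n : ℤ => n • α)) (U : AddSubgroup Ω)
    (hU : IsOpen (U : Set Ω)) (ω : Ω) : ∃ n : ℤ, ω - n • α ∈ U := by
  obtain ⟨_, ⟨n, rfl⟩, h⟩ := hα.exists_mem_open
    (hU.preimage (show Continuous (fun y => ω - y) by fun_prop)) ⟨ω, by simp⟩
  exact ⟨n, h⟩

variable [CompactSpace Ω]

lemma norm_ind (U : AddSubgroup Ω) (hU : IsOpen (U : Set Ω)) : ‖ind U hU‖ ≤ 1 := by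
  refine (ContinuousMap.norm_le _ zero_le_one).mpr (fun x => ?_)
  simp only [ind, lift, ContinuousMap.coe_mk]
  split_ifs <;> simp

lemma ord_pos (α : Ω) (U : AddSubgroup Ω) (hU : IsOpen (U : Set Ω)) : 0 < ord α U := by
  have := AddSubgroup.quotient_finite_of_isOpen U hU
  exact addOrderOf_pos _

lemma ord_step (α : Ω) (hα : Dense (range fun n : ℤ => n • α)) (U U' : AddSubgroup Ω)
    (hU' : IsOpen (U' : Set Ω)) (hle : U' ≤ U) (hne : ¬ U ≤ U') :
    ∃ k, ord α U' = (k + 1 + 1) * ord α U := by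
  have h1 : (ord α U : ℤ) ∣ ord α U' := (ord_dvd α U _).mpr (hle ((ord_dvd α U' _).mp dvd_rfl))
  obtain ⟨c, hc⟩ := Int.natCast_dvd_natCast.mp h1
  have h2 := ord_pos α U' hU'
  have h3 : c ≠ 1 := by
    rintro rfl
    apply hne
    intro x hx
    obtain ⟨n, hn⟩ := near_orbit α hα U' hU' x
    have a1 : n • α ∈ U := by simpa using U.sub_mem hx (hle hn)
    rw [← ord_dvd, ← mul_one (ord α U), ← hc, ord_dvd] at a1
    simpa using U'.add_mem hn a1
  have h4 : c ≠ 0 := by rintro rfl; omega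
  exact ⟨c - 2, by rw [hc, mul_comm]; congr 1; omega⟩

variable [T2Space Ω] [TotallyDisconnectedSpace Ω]

lemma small_sub (O : Set Ω) (hO : O ∈ 𝓝 (0 : Ω)) :
    ∃ U : AddSubgroup Ω, IsOpen (U : Set Ω) ∧ (U : Set Ω) ⊆ O := by
  obtain ⟨W, ⟨h1, h2⟩, h3⟩ := (nhds_basis_clopen (0 : Ω)).mem_iff.mp hO
  obtain ⟨U, hU⟩ := IsTopologicalAddGroup.exist_openAddSubgroup_sub_clopen_nhds_of_zero h2 h1
  exact ⟨U, U.isOpen, hU.trans h3⟩

lemma approx_inv (f : C(Ω, ℝ)) (ε : ℝ) (hε : 0 < ε) :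
    ∃ U : AddSubgroup Ω, IsOpen (U : Set Ω) ∧ ∃ g : C(Ω, ℝ), Inv U g ∧ ‖g - f‖ ≤ ε := by
  have h1 : ∀ᶠ u in 𝓝 (0 : Ω), ∀ x ∈ univ, |f (x + u) - f x| < ε := by
    refine isCompact_univ.eventually_forall_of_forall_eventually (fun x _ => ?_)
    have : Continuous (fun z : Ω × Ω => |f (z.2 + z.1) - f z.2|) := by fun_prop
    exact (this.tendsto (0, x)).eventually_lt_const (by simpa using hε)
  obtain ⟨U, hU, h2⟩ := small_sub _ h1
  refine ⟨U, hU, lift U hU (fun q => f q.out), inv_lift _ _ _, ?_⟩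
  refine (ContinuousMap.norm_le _ hε.le).mpr (fun x => ?_)
  have h3 : (x : Ω ⧸ U).out - x ∈ U := QuotientAddGroup.eq_iff_sub_mem.mp (QuotientAddGroup.out_eq' _)
  have := h2 h3 x (mem_univ x)
  rw [add_sub_cancel] at this
  exact this.le

lemma exists_chain [TopologicalSpace.MetrizableSpace Ω] (hiso : ∀ x : Ω, ¬ IsOpen ({x} : Set Ω))
    (U0 : AddSubgroup Ω) (h0 : IsOpen (U0 : Set Ω)) :
    ∃ U : ℕ → AddSubgroup Ω, U 0 = U0 ∧ (∀ j, IsOpen (U j : Set Ω)) ∧ (∀ j, U (j + 1) ≤ U j) ∧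
      (∀ j, ¬ U j ≤ U (j + 1)) ∧ ∀ x, (∀ j, x ∈ U j) → x = 0 := by
  letI := TopologicalSpace.metrizableSpaceMetric Ω
  have step : ∀ (j : ℕ) (U : {U : AddSubgroup Ω // IsOpen (U : Set Ω)}),
      ∃ U' : {U : AddSubgroup Ω // IsOpen (U : Set Ω)}, U'.1 ≤ U.1 ∧ ¬ U.1 ≤ U'.1 ∧
        (U'.1 : Set Ω) ⊆ Metric.ball 0 (1 / (j + 1)) := by
    rintro j ⟨U, hU⟩
    obtain ⟨g, hg, hg0⟩ : ∃ g ∈ U, g ≠ 0 := by
      by_contra hn
      push Not at hn
      apply hiso 0
      convert hU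
      ext x; exact ⟨by rintro rfl; exact U.zero_mem, hn x⟩
    obtain ⟨U', h1, h2⟩ := small_sub ((U : Set Ω) ∩ {g}ᶜ ∩ Metric.ball 0 (1 / (j + 1)))
      (inter_mem (inter_mem (hU.mem_nhds U.zero_mem) (isOpen_compl_singleton.mem_nhds hg0.symm))
        (Metric.ball_mem_nhds _ (by positivity)))
    exact ⟨⟨U', h1⟩, fun x hx => (h2 hx).1.1, fun h => (h2 (h hg)).1.2 rfl, fun x hx => (h2 hx).2⟩
  choose F h1 h2 h3 using step
  let U : ℕ → {U : AddSubgroup Ω // IsOpen (U : Set Ω)} :=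
    fun j => Nat.rec ⟨U0, h0⟩ (fun j U => F j U) j
  refine ⟨fun j => (U j).1, rfl, fun j => (U j).2, fun j => h1 j (U j), fun j => h2 j (U j),
    fun x hx => ?_⟩
  have : dist x 0 ≤ 0 := ge_of_tendsto' tendsto_one_div_add_atTop_nhds_zero_nat
    (fun j => (h3 j (U j) (hx (j + 1))).le)
  exact dist_le_zero.mp this

omit [T2Space Ω] [TotallyDisconnectedSpace Ω] in
theorem from_start (α : Ω) (hα : Dense (range fun n : ℤ => n • α)) (U : ℕ → AddSubgroup Ω)
    (hU : ∀ j, IsOpen (U j : Set Ω)) (hle : ∀ j, U (j + 1) ≤ U j) (hne : ∀ j, ¬ U j ≤ U (j + 1))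
    (h0 : ∀ x, (∀ j, x ∈ U j) → x = 0) (g : C(Ω, ℝ)) (hg : Inv (U 0) g) (E ε : ℝ)
    (hx : xx (fun m => g (m • α)) (ord α (U 0)) E = 2048)
    (hy : 2048 ≤ ε * |yy (fun m => g (m • α)) (ord α (U 0)) 0 E|) :
    ∃ f : C(Ω, ℝ), ‖f - g‖ ≤ 2 * ε ∧ ∃ H : Ω → (L2 →L[ℂ] L2),
      (∀ ω, IsOp (fun n => f (n • α + ω)) (H ω)) ∧ ∀ ω,
        (∃ (ψ : L2) (μ : Measure ℝ), IsSpec (H ω) ψ μ ∧ μ ≠ 0 ∧ μ.AbsolutelyContinuous volume) ∧
        (¬ ∃ (ψ : L2) (μ : Measure ℝ), IsSpec (H ω) ψ μ ∧ μ ≠ 0 ∧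
          μ.MutuallySingular volume ∧ ∀ x : ℝ, μ {x} = 0) ∧
        ((∃ ψ : L2, ψ ≠ 0 ∧ ∃ E : ℝ, H ω ψ = (E : ℂ) • ψ) ↔ ω ∈ range fun n : ℤ => n • α) ∧
        {E : ℝ | ∃ ψ : L2, ψ ≠ 0 ∧ H ω ψ = (E : ℂ) • ψ}.Finite ∧
        ((∀ (ψ : L2) (μ : Measure ℝ), IsSpec (H ω) ψ μ → μ.AbsolutelyContinuous volume) ↔
          ω ∉ range fun n : ℤ => n • α) := by
  choose k hk using fun j => ord_step α hα (U j) (U (j + 1)) (hU _) (hle j) (hne j)
  obtain ⟨h, hp, hV, hZ, hb⟩ := exists_hier (fun j => ord α (U j)) k (ord_pos α _ (hU 0)) hk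
    (fun m => g (m • α)) (hg.per α) ‖g‖ (fun m => g.norm_coe_le_norm _) E ε hx hy
  let t : ℕ → C(Ω, ℝ) := fun j => h.b j • ind (U (j + 1)) (hU _)
  have ht : ∀ j, ‖t j‖ ≤ ε * (1 / 2) ^ j := fun j => by
    rw [norm_smul, Real.norm_eq_abs]
    calc _ ≤ |h.b 0| * (1 / 2) ^ j * 1 := by
          gcongr
          · exact h.b_le j
          · exact norm_ind _ _
      _ ≤ _ := by rw [mul_one]; gcongr
  have hgeo : HasSum (fun j : ℕ => ε * (1 / 2) ^ j) (ε * 2) := hasSum_geometric_two.mul_left ε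
  have hs : Summable t := Summable.of_norm_bounded hgeo.summable ht
  let F : ℕ → C(Ω, ℝ) := fun j => g + ∑ i ∈ Finset.range j, t i
  have hF : Tendsto F atTop (𝓝 (g + ∑' i, t i)) := hs.hasSum.tendsto_sum_nat.const_add g
  have hFs : ∀ j x, F (j + 1) x = F j x + h.b j * ind (U (j + 1)) (hU _) x := fun j x => by
    simp [F, Finset.sum_range_succ, t, add_assoc]
  have hF1 : ∀ j m, F j (m • α) = h.V j m := by
    intro j m
    induction j with
    | zero => simp [F, hV]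
    | succ j ih => rw [hFs, ih, h.Vs, spike, ind_orbit, hp]
  have hF2 : ∀ j, Inv (U j) (F j) := by
    intro j
    induction j with
    | zero => simpa [F] using hg
    | succ j ih =>
      intro x y hxy
      rw [hFs, hFs, ih x y (hle j hxy), ind, inv_lift _ _ _ x y hxy]
  set f := g + ∑' i, t i with hf
  choose w hw using fun j ω => near_orbit α hα (U j) (hU j) ω
  have hdv : ∀ ω j n, (h.p j : ℤ) ∣ n + w j ω ↔ n • α + ω ∈ U j := by
    intro ω j n
    rw [hp, ord_dvd, add_smul]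
    constructor
    · intro h1; simpa [add_assoc] using (U j).add_mem h1 (hw j ω)
    · intro h1; simpa [add_sub_assoc] using (U j).sub_mem h1 (hw j ω)
  have hL : ∀ ω, h.Lim (fun j => w j ω) (fun n => f (n • α + ω)) := by
    intro ω
    refine ⟨fun j => ?_, fun m => ?_⟩
    · rw [hp, ord_dvd, sub_smul]
      simpa using (U j).sub_mem (hw j ω) (hle j (hw (j + 1) ω))
    · refine (((continuous_eval_const (m • α + ω)).tendsto f).comp hF).congr
        (fun j => ?_)
      rw [← hF1]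
      refine hF2 j _ _ ?_
      rw [add_smul, add_sub_add_left_eq_sub]; exact hw j ω
  choose H hH using fun ω => exists_operator _ _ (hL ω).bd
  have hfin : h.Z.Finite := (hL 0).finite (hH 0) 0 (fun j => (hdv 0 j 0).mpr (by simp))
  have hpp : ∀ ω, (∃ ψ : L2, ψ ≠ 0 ∧ ∃ E : ℝ, H ω ψ = (E : ℂ) • ψ) ↔
      ω ∈ range fun n : ℤ => n • α := by
    intro ω
    rw [(hL ω).pp_iff (hH ω) hZ]
    simp only [hdv]
    constructor
    · rintro ⟨n, hn⟩
      exact ⟨-n, by simp only [neg_smul]; exact neg_eq_of_add_eq_zero_right (h0 _ hn)⟩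
    · rintro ⟨n, rfl⟩
      exact ⟨-n, fun j => by simp⟩
  refine ⟨f, ?_, H, hH, fun ω => ⟨(hL ω).has_ac (hH ω) hfin, (hL ω).no_sc (hH ω) hfin, hpp ω,
    hfin.subset (fun E ⟨ψ, h1, h2⟩ => (hL ω).eig_mem (hH ω) h1 h2),
    ((hL ω).pure_iff (hH ω) hfin).trans (not_congr (hpp ω))⟩⟩
  rw [hf, add_sub_cancel_left, mul_comm]
  exact tsum_of_norm_bounded hgeo ht

omit [IsTopologicalAddGroup Ω] [TotallyDisconnectedSpace Ω] in
lemma off_orbit (hiso : ∀ x : Ω, ¬ IsOpen ({x} : Set Ω)) (α : Ω) :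
    ∃ ω : Ω, ω ∉ range fun n : ℤ => n • α := by
  by_contra hn
  push Not at hn
  obtain ⟨n, x, hx⟩ := nonempty_interior_of_iUnion_of_closed (f := fun n : ℤ => ({n • α} : Set Ω))
    (fun _ => isClosed_singleton) (eq_univ_of_forall (fun ω => by
      obtain ⟨n, rfl⟩ := hn ω
      exact mem_iUnion.mpr ⟨n, rfl⟩))
  apply hiso (n • α)
  have h1 : x ∈ ({n • α} : Set Ω) := interior_subset hx
  rw [mem_singleton_iff.mp h1] at hx
  exact subset_interior_iff_isOpen.mp (singleton_subset_iff.mpr hx)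

theorem main [TopologicalSpace.MetrizableSpace Ω] (hiso : ∀ x : Ω, ¬ IsOpen ({x} : Set Ω))
    (α : Ω) (hα : Dense (range fun n : ℤ => n • α)) :
    Dense {f : C(Ω, ℝ) | ∃ H : Ω → (L2 →L[ℂ] L2),
      (∀ ω, IsOp (fun n => f (n • α + ω)) (H ω)) ∧ ∀ ω,
        (∃ (ψ : L2) (μ : Measure ℝ), IsSpec (H ω) ψ μ ∧ μ ≠ 0 ∧ μ.AbsolutelyContinuous volume) ∧
        (¬ ∃ (ψ : L2) (μ : Measure ℝ), IsSpec (H ω) ψ μ ∧ μ ≠ 0 ∧
          μ.MutuallySingular volume ∧ ∀ x : ℝ, μ {x} = 0) ∧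
        ((∃ ψ : L2, ψ ≠ 0 ∧ ∃ E : ℝ, H ω ψ = (E : ℂ) • ψ) ↔ ω ∈ range fun n : ℤ => n • α) ∧
        {E : ℝ | ∃ ψ : L2, ψ ≠ 0 ∧ H ω ψ = (E : ℂ) • ψ}.Finite ∧
        ((∀ (ψ : L2) (μ : Measure ℝ), IsSpec (H ω) ψ μ → μ.AbsolutelyContinuous volume) ↔
          ω ∉ range fun n : ℤ => n • α)} := by
  rw [Metric.dense_iff]
  intro f0 r hr
  obtain ⟨U0, hU0, g, hg, hgf⟩ := approx_inv f0 (r / 5) (by positivity)
  obtain ⟨U, rfl, hU, hle, hne, h0⟩ := exists_chain hiso U0 hU0
  obtain ⟨N, hN⟩ := first_spike (fun m => g (m • α)) _ (ord_pos α _ hU0) (hg.per α) ‖g‖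
    (fun m => g.norm_coe_le_norm _) (r / 5) (by positivity)
  have hanti : Antitone U := antitone_nat_of_succ_le hle
  have hk : ∀ j, ∃ k, j ≤ k ∧ ord α (U j) = (k + 1) * ord α (U 0) := by
    intro j
    induction j with
    | zero => exact ⟨0, le_rfl, by simp⟩
    | succ j ih =>
      obtain ⟨k, h1, h2⟩ := ih
      obtain ⟨k', h3⟩ := ord_step α hα (U j) (U (j + 1)) (hU _) (hle j) (hne j)
      exact ⟨(k' + 1) * (k + 1) + k, by linarith only [h1, mul_nonneg_of_nonpos_of_nonpos (Mathlib.Tactic.Linarith.sub_nonpos_of_le (Mathlib.Tactic.Linarith.natCast_nonneg ℤ k)) (Mathlib.Tactic.Linarith.sub_nonpos_of_le (Mathlib.Tactic.Linarith.natCast_nonneg ℤ k'))], by rw [h3, h2]; ring⟩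
  obtain ⟨k, hk1, hk2⟩ := hk N
  obtain ⟨b, E, hb, hx, hy⟩ := hN k hk1
  rw [← hk2] at hx hy
  let g' : C(Ω, ℝ) := g + b • ind (U N) (hU N)
  have e : (fun m : ℤ => g' (m • α)) = spike (fun m => g (m • α)) b (ord α (U N)) := by
    funext m; simp [g', spike, ind_orbit]
  rw [← e] at hx hy
  have hg' : Inv (U N) g' := fun x y hxy => by
    simp only [g', ContinuousMap.add_apply, ContinuousMap.smul_apply]
    rw [hg x y (hanti (Nat.zero_le N) hxy), ind, inv_lift _ _ _ x y hxy]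
  obtain ⟨f, hf, hP⟩ := from_start α hα (fun j => U (N + j)) (fun j => hU _) (fun j => hle _)
    (fun j => hne _) (fun x hx => h0 x (fun j => hanti (Nat.le_add_left j N) (hx j))) g' hg' E
    (r / 5) hx hy
  refine ⟨f, ?_, hP⟩
  rw [Metric.mem_ball, dist_eq_norm]
  have a1 : ‖g' - g‖ ≤ r / 5 := by
    simp only [g', add_sub_cancel_left, norm_smul, Real.norm_eq_abs]
    calc _ ≤ r / 5 * 1 := by
          gcongr
          exact norm_ind _ _
      _ = _ := mul_one _
  have a2 := norm_add₃_le (a := f - g') (b := g' - g) (c := g - f0)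
  rw [sub_add_sub_cancel, sub_add_sub_cancel] at a2
  linarith

end grp

end Pool.Agent.Work.MP_e37829_mp.A
end
end
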